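import Pool.Agent.Lib.MP_786755_nt.W.Weil
import Pool.Agent.Lib.MP_786755_nt.Approx

/-! Complete cubic sums with a linear term, and the sharp approximation of the cubic Weyl sum. -/

namespace Pool.Agent.Lib.MP_786755_nt

open Finset Pool.Agent.Lib.MP_028aa5_nt

/-- the complete cubic sum with a linear term -/
noncomputable def Sc (q : ℕ) (r b : ℤ) : ℂ := ∑ x ∈ range q, ec q (r * x ^ 3 + b * x)

lemma per_Sc (q : ℕ) (r b : ℤ) : Per q fun x => ec q (r * x ^ 3 + b * x) := fun _ _ h =>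
  ec_congr (((h.pow 3).mul_left r).add (h.mul_left b))

lemma card_three_sq {q : ℕ} (hq : q ≠ 0) :
    #((range q).filter fun x : ℕ => (q : ℤ) ∣ 3 * ((x : ℤ) ^ 2 - 1)) ≤ 3 * 4 ^ #q.primeFactors := by
  by_cases h : 3 ∣ q
  · obtain ⟨s, rfl⟩ := h
    have hs : s ≠ 0 := by omega
    have h1 := sum_range_mul (q := s) (f := fun x => if (s : ℤ) ∣ x ^ 2 - 1 then 1 else 0)
      (fun x y h => by simp only [((h.pow 2).sub_right 1).dvd_iff]) 3
    rw [← card_filter, ← card_filter, smul_eq_mul] at h1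
    refine le_trans (card_le_card fun x hx => ?_) (h1.le.trans (Nat.mul_le_mul_left 3
      ((card_sqrt_one_le hs).trans (Nat.pow_le_pow_right (by norm_num)
        (card_le_card (Nat.primeFactors_mono (dvd_mul_left s 3) hq))))))
    obtain ⟨h2, h3⟩ := mem_filter.1 hx
    push_cast at h3
    exact mem_filter.2 ⟨h2, (mul_dvd_mul_iff_left (by norm_num)).1 h3⟩
  · have hc : IsCoprime (q : ℤ) 3 :=
      (Nat.isCoprime_iff_coprime.2 ((Nat.Prime.coprime_iff_not_dvd Nat.prime_three).2 h)).symm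
    refine le_trans (card_le_card fun x hx => ?_) ((card_sqrt_one_le hq).trans (by omega))
    exact mem_filter.2 ⟨(mem_filter.1 hx).1, hc.dvd_of_dvd_mul_left (mem_filter.1 hx).2⟩

lemma card_crit {p l : ℕ} (hp : p.Prime) (hl : l ≠ 0) {r : ℤ} (hr : ¬(p : ℤ) ∣ r) (b : ℤ) :
    #((range (p ^ l)).filter fun y : ℕ =>
      ¬(p : ℤ) ∣ y ∧ ((p ^ l : ℕ) : ℤ) ∣ 3 * r * y ^ 2 + b) ≤ 12 := by
  rcases ((range (p ^ l)).filter fun y : ℕ =>
    ¬(p : ℤ) ∣ y ∧ ((p ^ l : ℕ) : ℤ) ∣ 3 * r * y ^ 2 + b).eq_empty_or_nonempty with h | ⟨y, hy⟩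
  · rw [h]; simp
  obtain ⟨-, h1, h2⟩ := mem_filter.1 hy
  have hy : IsCoprime (y : ℤ) (p ^ l : ℕ) := by
    push_cast; exact (isCoprime_of_not_dvd hp h1).pow_right
  have hr' : IsCoprime ((p ^ l : ℕ) : ℤ) (r * y ^ 2) := by
    refine IsCoprime.mul_right ?_ hy.symm.pow_right
    push_cast; exact (isCoprime_of_not_dvd hp hr).symm.pow_left
  have h3 := sum_affine (q := p ^ l)
    (f := fun x => if ((p ^ l : ℕ) : ℤ) ∣ 3 * r * x ^ 2 + b then 1 else 0)
    (fun x y h => by simp only [(((h.pow 2).mul_left (3 * r)).add_right b).dvd_iff]) hy 0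
  rw [← card_filter, ← card_filter] at h3
  have h4 := card_three_sq (pow_ne_zero l hp.ne_zero)
  rw [Nat.primeFactors_prime_pow hl hp, card_singleton] at h4
  refine le_trans (card_le_card fun x hx => mem_filter.2 ⟨(mem_filter.1 hx).1,
    (mem_filter.1 hx).2.2⟩) (h3.ge.trans (le_trans (card_le_card fun x hx => ?_) h4))
  refine mem_filter.2 ⟨(mem_filter.1 hx).1, hr'.dvd_of_dvd_mul_left ?_⟩
  have := (mem_filter.1 hx).2.sub h2
  rwa [show 3 * r * (y * x + 0) ^ 2 + b - (3 * r * y ^ 2 + b) = r * y ^ 2 * (3 * ((x : ℤ) ^ 2 - 1))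
    by ring] at this

lemma unit_bound {p l k : ℕ} (hp : p.Prime) (hl : l ≠ 0) (hk : l ≤ k) (hk' : k ≤ l + 1) {r : ℤ}
    (hr : ¬(p : ℤ) ∣ r) (b : ℤ) :
    ‖∑ z ∈ range (p ^ (l + k)), (if (p : ℤ) ∣ (z : ℤ) then 0 else
      ec (p ^ (l + k)) (r * z ^ 3 + b * z))‖ ^ 2 ≤ 864 * (p : ℝ) ^ (l + k) := by
  have hp0 := hp.pos
  obtain ⟨i, rfl⟩ : ∃ i, l = i + 1 := ⟨l - 1, by omega⟩
  obtain ⟨j, rfl⟩ : ∃ j, k = i + 1 + j := ⟨k - (i + 1), by omega⟩
  obtain ⟨i', hi'⟩ : ∃ i', i + 1 = j + i' := ⟨i + 1 - j, by omega⟩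
  set l := i + 1 with hl'
  set f : ℤ → ℂ := fun z => if (p : ℤ) ∣ z then 0 else ec (p ^ (l + (l + j))) (r * z ^ 3 + b * z)
    with hf
  have hper : Per (p ^ (l + (l + j))) f := fun x y h => by
    have : x ≡ y [ZMOD p] := h.of_dvd (by push_cast; exact dvd_pow_self _ (by omega))
    simp only [hf, this.dvd_iff]
    rw [ec_congr (((h.pow 3).mul_left r).add (h.mul_left b))]
  set I : ℤ → ℂ := fun z => ∑ t ∈ range (p ^ (l + j)),
    ec (p ^ (l + j)) (3 * r * z * p ^ l * t ^ 2 + (3 * r * z ^ 2 + b) * t) with hI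
  have h1 : ((p ^ (l + j) : ℕ) : ℂ) * ∑ z ∈ range (p ^ (l + (l + j))), f z =
      ∑ z ∈ range (p ^ (l + (l + j))), f z * I z := by
    simp only [hI, mul_sum]
    rw [sum_comm, ← mul_sum, ← nsmul_eq_mul, ← card_range (p ^ (l + j)), ← sum_const, card_range]
    refine sum_congr rfl fun t _ => (sum_shift hper (p ^ l * t)).symm.trans
      (sum_congr rfl fun z _ => ?_)
    have e1 : (p : ℤ) ∣ z + p ^ l * t ↔ (p : ℤ) ∣ z :=
      dvd_add_left ((dvd_pow_self _ hl).mul_right _)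
    simp only [hf, e1]
    split_ifs
    · simp
    rw [← ec_mul_left (k := p ^ l) (by positivity) (p ^ (l + j)), ← pow_add, ← ec_add]
    refine ec_congr (Int.modEq_iff_dvd.2 ⟨-(r * p ^ i' * t ^ 3), ?_⟩)
    have : (p : ℤ) ^ l = p ^ j * p ^ i' := by rw [← pow_add, ← hi']
    push_cast
    simp only [pow_add]
    linear_combination (-(r * ((p : ℤ) ^ l) ^ 2 * t ^ 3)) * this
  set G : ℝ := √(6 * (p : ℝ) ^ (l + (l + j))) with hG
  have h2 : ∀ z : ℤ, ‖f z * I z‖ ≤
      G * (if ¬(p : ℤ) ∣ z ∧ ((p ^ l : ℕ) : ℤ) ∣ 3 * r * z ^ 2 + b then 1 else 0 : ℕ) := by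
    intro z
    split_ifs with h
    · simp only [hf, if_neg h.1, norm_mul, norm_ec, one_mul, Nat.cast_one, mul_one]
      refine Real.le_sqrt_of_sq_le ((quad_bound (by positivity) _ _).trans ?_)
      have e1 : Int.gcd (2 * (3 * r * z * p ^ l)) (p ^ (l + j) : ℕ) ≤ 6 * p ^ l := by
        refine Nat.le_of_dvd (by positivity) (Int.natCast_dvd_natCast.1 ?_)
        have e2 : IsCoprime ((Int.gcd (2 * (3 * r * z * p ^ l)) (p ^ (l + j) : ℕ) : ℕ) : ℤ)
            (r * z) := by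
          refine IsCoprime.of_isCoprime_of_dvd_left ?_ (Int.gcd_dvd_right _ _)
          push_cast
          exact ((isCoprime_of_not_dvd hp hr).mul_left
            (isCoprime_of_not_dvd hp h.1)).symm.pow_left
        refine e2.dvd_of_dvd_mul_left ((Int.gcd_dvd_left _ _).trans (dvd_of_eq ?_))
        push_cast; ring
      calc _ ≤ ((p ^ (l + j) : ℕ) : ℝ) * (6 * p ^ l : ℕ) := by gcongr
        _ = _ := by push_cast; ring
    · rw [Nat.cast_zero, mul_zero, norm_le_zero_iff]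
      by_cases hz : (p : ℤ) ∣ z
      · simp [hf, hz]
      refine mul_eq_zero_of_right _ (sum_vanish (p := p ^ l) (by positivity)
        (f := fun t => ec (p ^ (l + j)) (3 * r * z * p ^ l * t ^ 2 + (3 * r * z ^ 2 + b) * t))
        (fun x y h => ec_congr (((h.pow 2).mul_left _).add (h.mul_left _))) (p ^ j)
        (fun _ => 3 * r * z ^ 2 + b) (fun t y => ?_) fun _ _ h' => h ⟨hz, h'⟩)
      rw [← ec_mul_left (k := p ^ j) (by positivity) (p ^ l), ← pow_add, add_comm j l, ← ec_add]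
      refine ec_congr (Int.modEq_iff_dvd.2 ⟨-(3 * r * z * (2 * t * y + p ^ j * y ^ 2)), ?_⟩)
      push_cast
      ring
  have h3 := sum_range_mul (q := p ^ l)
    (f := fun z => if ¬(p : ℤ) ∣ z ∧ ((p ^ l : ℕ) : ℤ) ∣ 3 * r * z ^ 2 + b then 1 else 0)
    (fun x y h => by
      have : x ≡ y [ZMOD p] := h.of_dvd (by push_cast; exact dvd_pow_self _ hl)
      simp only [this.dvd_iff, (((h.pow 2).mul_left (3 * r)).add_right b).dvd_iff]) (p ^ (l + j))
  rw [← pow_add, add_comm (l + j), ← card_filter _ (range (p ^ l)), smul_eq_mul] at h3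
  have h4 : ((p ^ (l + j) : ℕ) : ℝ) * ‖∑ z ∈ range (p ^ (l + (l + j))), f z‖ ≤
      (p ^ (l + j) : ℕ) * (12 * G) := by
    rw [← Complex.norm_natCast, ← norm_mul, h1, Complex.norm_natCast]
    refine (norm_sum_le _ _).trans ((sum_le_sum fun (z : ℕ) _ => h2 z).trans ?_)
    rw [← mul_sum, ← Nat.cast_sum, h3]
    calc _ ≤ G * (p ^ (l + j) * 12 : ℕ) := by gcongr; exact card_crit hp hl hr b
      _ = _ := by push_cast; ring
  refine (pow_le_pow_left₀ (norm_nonneg _) (le_of_mul_le_mul_left h4 (by positivity)) 2).trans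
    (le_of_eq ?_)
  rw [mul_pow, hG, Real.sq_sqrt (by positivity)]
  ring

lemma Sc_pow {p : ℕ} (hp : p.Prime) {r : ℤ} (hr : ¬(p : ℤ) ∣ r) (j : ℕ) : ∀ b : ℤ,
    ‖Sc (p ^ j) r b‖ ^ 2 ≤ 4096 * (p : ℝ) ^ j * (Int.gcd b (p ^ j : ℕ) : ℝ) ^ 2 := by
  have hp0 := hp.pos
  have hp2 : (2 : ℝ) ≤ p := by exact_mod_cast hp.two_le
  have hg : ∀ (b : ℤ) (j : ℕ), (1 : ℝ) ≤ Int.gcd b (p ^ j : ℕ) := fun b j => by
    exact_mod_cast Int.gcd_pos_of_ne_zero_right b (by positivity)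
  induction j using Nat.strong_induction_on with
  | _ j ih =>
  intro b
  have h0 : (p : ℝ) ^ j ≤ p ^ j * (Int.gcd b (p ^ j : ℕ) : ℝ) ^ 2 :=
    le_mul_of_one_le_right (by positivity) (one_le_pow₀ (hg b j))
  have h0' : 0 ≤ (p : ℝ) ^ j := by positivity
  match j, ih with
  | 0, _ => simp [Sc]
  | 1, _ =>
    have := weil hp hr b
    simp only [pow_one] at h0 ⊢
    rw [Sc]
    linarith
  | i + 2, ih =>
    have h1 := unit_bound (l := (i + 2) / 2) (k := i + 2 - (i + 2) / 2) hp (by omega) (by omega)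
      (by omega) hr b
    rw [show (i + 2) / 2 + (i + 2 - (i + 2) / 2) = i + 2 by omega] at h1
    have h2 := sum_dvd_range hp0 (p ^ (i + 1)) fun z => ec (p ^ (i + 2)) (r * z ^ 3 + b * z)
    rw [← pow_succ'] at h2
    set T := ∑ y ∈ range (p ^ (i + 1)), ec (p ^ (i + 2)) (r * (p * y) ^ 3 + b * (p * y)) with hT
    have hT' : T = ∑ y ∈ range (p ^ (i + 1)), ec (p ^ (i + 1)) (r * p ^ 2 * y ^ 3 + b * y) := by
      refine sum_congr rfl fun y _ => ?_
      rw [← ec_mul_left hp0.ne' (p ^ (i + 1)), ← pow_succ']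
      congr 1
      ring
    have h4 : ‖T‖ ^ 2 ≤ 1024 * (p ^ (i + 2) * (Int.gcd b (p ^ (i + 2) : ℕ) : ℝ) ^ 2) := by
      rcases i with _ | i
      · have : ‖T‖ ≤ p := (norm_sum_le _ _).trans (by simp)
        have := pow_le_pow_left₀ (norm_nonneg _) this 2
        simp only [zero_add] at h0 h0' ⊢
        linarith
      by_cases hb : (p : ℤ) ^ 2 ∣ b
      · obtain ⟨c, rfl⟩ := hb
        have e1 : T = (p ^ 2 : ℕ) • Sc (p ^ i) r c := by
          rw [hT', Sc, ← sum_range_mul (per_Sc _ r c), ← pow_add, add_comm 2 i]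
          refine sum_congr rfl fun y _ => ?_
          rw [← ec_mul_left (k := p ^ 2) (by positivity) (p ^ i), ← pow_add, add_comm 2 i]
          congr 1
          push_cast; ring
        have e2 : (p : ℝ) ^ 2 * Int.gcd c (p ^ i : ℕ) ≤
            Int.gcd ((p : ℤ) ^ 2 * c) (p ^ (i + 1 + 2) : ℕ) := by
          have : p ^ 2 * Int.gcd c (p ^ i : ℕ) ∣ Int.gcd ((p : ℤ) ^ 2 * c) (p ^ (i + 1 + 2) : ℕ) := by
            refine Int.dvd_gcd ?_ ?_ <;> push_cast
            · exact mul_dvd_mul_left _ (Int.gcd_dvd_left _ _)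
            · refine (mul_dvd_mul_left _ (Int.gcd_dvd_right _ _)).trans ⟨p, by ring⟩
          exact_mod_cast Nat.le_of_dvd (Int.gcd_pos_of_ne_zero_right _ (by positivity)) this
        rw [e1, nsmul_eq_mul, norm_mul, mul_pow, Complex.norm_natCast]
        calc _ ≤ ((p ^ 2 : ℕ) : ℝ) ^ 2 * (4096 * (p : ℝ) ^ i * (Int.gcd c (p ^ i : ℕ) : ℝ) ^ 2) := by
              gcongr; exact ih i (by omega) c
          _ = 512 * (2 ^ 3 * p ^ i * ((p : ℝ) ^ 2 * Int.gcd c (p ^ i : ℕ)) ^ 2) := by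
              push_cast; ring
          _ ≤ 1024 * (p ^ 3 * p ^ i * (Int.gcd ((p : ℤ) ^ 2 * c) (p ^ (i + 1 + 2) : ℕ) : ℝ) ^ 2) := by
              gcongr; norm_num
          _ = _ := by ring
      · rw [hT', sum_vanish (p := p ^ 2) (by positivity) (per_Sc _ _ b) (p ^ i) (fun _ => b)
          (fun z y => ?_) fun _ _ h => hb (by exact_mod_cast h), norm_zero, sq, zero_mul]
        · positivity
        rw [← ec_mul_left (k := p ^ i) (by positivity) (p ^ 2), ← pow_add, ← ec_add]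
        refine ec_congr (Int.modEq_iff_dvd.2
          ⟨-(r * (3 * z ^ 2 * y + 3 * z * p ^ i * y ^ 2 + (p ^ i) ^ 2 * y ^ 3)), ?_⟩)
        push_cast
        ring
    have h3 : Sc (p ^ (i + 2)) r b = T + ∑ z ∈ range (p ^ (i + 2)),
        (if (p : ℤ) ∣ (z : ℤ) then 0 else ec (p ^ (i + 2)) (r * z ^ 3 + b * z)) := by
      rw [← h2, ← sum_add_distrib]
      refine sum_congr rfl fun z _ => ?_
      split_ifs <;> simp
    rw [h3]
    refine (pow_le_pow_left₀ (norm_nonneg _) (norm_add_le _ _) 2).trans ?_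
    nlinarith [sq_nonneg (‖T‖ - ‖∑ z ∈ range (p ^ (i + 2)),
        (if (p : ℤ) ∣ (z : ℤ) then 0 else ec (p ^ (i + 2)) (r * z ^ 3 + b * z))‖)]

theorem Sc_le : ∀ q : ℕ, q ≠ 0 → ∀ r b : ℤ, IsCoprime r q →
    ‖Sc q r b‖ ^ 2 ≤ 4096 ^ #q.primeFactors * q * (Int.gcd b q : ℝ) ^ 2 := by
  intro q
  induction q using Nat.recOnPosPrimePosCoprime with
  | zero => simp
  | one => intros; simp [Sc]
  | prime_pow p k hp hk =>
    intro _ r b hr
    rw [Nat.primeFactors_prime_pow hk.ne' hp, card_singleton, pow_one]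
    exact_mod_cast Sc_pow hp (not_dvd_of_isCoprime hp (dvd_pow_self p hk.ne') hr) k b
  | coprime a c ha hc hac iha ihc =>
    intro _ r b hr
    obtain ⟨k₁, k₂, hk⟩ := exists_bezout hac
    obtain ⟨h1, h2⟩ := (cop_split hk r).1 hr
    have e1 : Sc (a * c) r b = Sc a (k₁ * r) (k₁ * b) * Sc c (k₂ * r) (k₂ * b) := by
      rw [Sc, Sc, Sc, ← sum_crt hac (per_Sc _ _ _) (per_Sc _ _ _)]
      refine sum_congr rfl fun x _ => ?_
      rw [ec_split (by omega) (by omega) hk]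
      ring_nf
    have e2 : Int.gcd (k₁ * b) a * Int.gcd (k₂ * b) c ≤ Int.gcd b (a * c : ℕ) := by
      refine Nat.le_of_dvd (Int.gcd_pos_of_ne_zero_right _ (by positivity)) (Int.dvd_gcd ?_ ?_)
      · push_cast
        refine IsCoprime.mul_dvd (((Nat.isCoprime_iff_coprime.2 hac).of_isCoprime_of_dvd_left
          (Int.gcd_dvd_right _ _)).of_isCoprime_of_dvd_right (Int.gcd_dvd_right _ _)) ?_ ?_
        · exact (h1.of_mul_left_left.symm.of_isCoprime_of_dvd_left
            (Int.gcd_dvd_right _ _)).dvd_of_dvd_mul_left (Int.gcd_dvd_left _ _)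
        · exact (h2.of_mul_left_left.symm.of_isCoprime_of_dvd_left
            (Int.gcd_dvd_right _ _)).dvd_of_dvd_mul_left (Int.gcd_dvd_left _ _)
      · push_cast
        exact mul_dvd_mul (Int.gcd_dvd_right _ _) (Int.gcd_dvd_right _ _)
    rw [e1, norm_mul, mul_pow, hac.primeFactors_mul, card_union_of_disjoint hac.disjoint_primeFactors,
      pow_add]
    refine (mul_le_mul (iha (by omega) _ _ h1) (ihc (by omega) _ _ h2) (by positivity)
      (by positivity)).trans ?_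
    calc _ = 4096 ^ #a.primeFactors * 4096 ^ #c.primeFactors * ((a * c : ℕ) : ℝ) *
          ((Int.gcd (k₁ * b) a * Int.gcd (k₂ * b) c : ℕ) : ℝ) ^ 2 := by push_cast; ring
      _ ≤ _ := by gcongr

lemma sum_dvd_inv {d : ℕ} (hd : 0 < d) (Q : ℕ) :
    ∑ t ∈ Icc 1 Q, (if d ∣ t then (d : ℝ) / t else 0) ≤ 1 + Real.log Q := by
  rw [← sum_filter, sum_congr rfl (g := fun t => 1 / ((t / d : ℕ) : ℝ)) fun t ht => by
    obtain ⟨s, rfl⟩ := (mem_filter.1 ht).2
    rw [Nat.mul_div_cancel_left _ hd, Nat.cast_mul, div_mul_cancel_left₀ (by positivity), one_div],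
    ← sum_image (f := fun s : ℕ => 1 / (s : ℝ)) fun x hx y hy h =>
      (Nat.div_left_inj (mem_filter.1 hx).2 (mem_filter.1 hy).2).1 h]
  refine (sum_le_sum_of_subset_of_nonneg (fun x hx => ?_) fun _ _ _ => by positivity).trans
    (sum_inv_le_log Q)
  obtain ⟨t, ht, rfl⟩ := mem_image.1 hx
  obtain ⟨h1, h2⟩ := mem_filter.1 ht
  have := mem_Icc.1 h1
  exact mem_Icc.2 ⟨Nat.div_pos (Nat.le_of_dvd this.1 h2) hd, (Nat.div_le_self _ _).trans this.2⟩

lemma sum_gcd_div {q : ℕ} (hq : q ≠ 0) (Q : ℕ) :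
    ∑ t ∈ Icc 1 Q, (Nat.gcd t q : ℝ) / t ≤ #q.divisors * (1 + Real.log Q) := by
  calc _ ≤ ∑ t ∈ Icc 1 Q, ∑ d ∈ q.divisors, (if d ∣ t then (d : ℝ) / t else 0) := by
        refine sum_le_sum fun t _ => le_trans ?_ (single_le_sum
          (f := fun d => if d ∣ t then (d : ℝ) / t else 0) (fun d _ => by positivity)
          (Nat.mem_divisors.2 ⟨Nat.gcd_dvd_right t q, hq⟩))
        rw [if_pos (Nat.gcd_dvd_left _ _)]
    _ ≤ _ := by
        rw [sum_comm, ← nsmul_eq_mul]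
        exact sum_le_card_nsmul _ _ _ fun d hd => sum_dvd_inv (Nat.pos_of_mem_divisors hd) Q

lemma disc_sharp {q : ℕ} (hq : 0 < q) {E : ℝ} (hE : (#q.divisors : ℝ) ≤ E)
    (hL : 1 + Real.log q ≤ E) {r : ℤ} (hr : IsCoprime r q) (a b : ℕ) :
    ‖∑ z ∈ Ioc a b, (ec q (r * z ^ 3) - s3 q r 1)‖ ≤ 2 * E ^ 8 * √q := by
  have hq0 : (0 : ℝ) < q := by exact_mod_cast hq
  have hqc : (q : ℂ) ≠ 0 := by exact_mod_cast hq.ne'
  have hE1 := one_le_of_div hq.ne' hE
  set W : ℕ → ℂ := fun t => ∑ u ∈ Ioc a b, e ((1 - t / q) * u) with hW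
  have h1 : ∑ z ∈ Ioc a b, (ec q (r * z ^ 3) - s3 q r 1) =
      (∑ t ∈ (range q).erase 0, Sc q r t * W t) / q := by
    simp only [hW, mul_sum]
    rw [sum_comm, sum_div]
    refine sum_congr rfl fun u _ => ?_
    have h2 := fourier_inv hq (f := fun x => ec q (r * x ^ 3))
      (fun x y h => ec_congr ((h.pow 3).mul_left _)) u
    have h3 : ∀ t : ℕ, e ((1 - t / q) * u) = ec q (-(t * u)) := by
      intro t
      rw [ec, ← e_sub_int _ (u : ℤ)]
      congr 1
      push_cast; ring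
    rw [← add_sum_erase _ _ (mem_range.2 hq)] at h2
    simp only [← ec_add] at h2
    simp only [h3, Sc, s3, av, wq_one]
    rw [eq_div_iff hqc, sub_mul, mul_comm _ (q : ℂ), ← h2, div_mul_cancel₀ _ hqc]
    simp
  have hS : ∀ t : ℕ, ‖Sc q r t‖ ≤ E ^ 6 * √q * Nat.gcd t q := fun t => by
    refine (pow_le_pow_iff_left₀ (norm_nonneg _) (by positivity) two_ne_zero).1
      ((Sc_le q hq.ne' r t hr).trans ?_)
    rw [mul_pow, mul_pow, Real.sq_sqrt hq0.le, ← pow_mul, Int.gcd_natCast_natCast]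
    gcongr
    exact_mod_cast pow_omega_le hq.ne' hE (c := 4096) (k := 12) (by norm_num)
  have hWle : ∀ t ∈ (range q).erase 0, ‖W t‖ ≤ q * (1 / t + 1 / (q - t)) := by
    intro t ht
    simp only [mem_erase, mem_range] at ht
    have t1 : (1 : ℝ) ≤ t := by exact_mod_cast Nat.one_le_iff_ne_zero.2 ht.1
    have t2 : (t : ℝ) + 1 ≤ q := by exact_mod_cast ht.2
    have t3 : 0 < (q : ℝ) - t := by linarith
    have hm : 0 < min (t : ℝ) (q - t) := lt_min (by linarith) t3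
    refine (KL (fun u => (1 - t / q) * u) (l := min (t : ℝ) (q - t) / q) (by positivity)
      (fun n _ _ => ?_) (Or.inl fun n _ _ => le_of_eq (by push_cast; ring))).trans ?_
    · have e1 := div_le_div_of_nonneg_right (min_le_left (t : ℝ) (q - t)) hq0.le
      have e2 := div_le_div_of_nonneg_right (min_le_right (t : ℝ) (q - t)) hq0.le
      rw [sub_div, div_self hq0.ne'] at e2
      push_cast
      constructor <;> linarith
    · rw [one_div_div, div_eq_mul_one_div]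
      gcongr
      rcases min_choice (t : ℝ) (q - t) with h | h <;> rw [h]
      · have : 0 ≤ 1 / ((q : ℝ) - t) := by positivity
        linarith
      · have : 0 ≤ 1 / (t : ℝ) := by positivity
        linarith
  have h2 : ∑ t ∈ (range q).erase 0, (Nat.gcd t q : ℝ) / t ≤ E * E :=
    (sum_le_sum_of_subset_of_nonneg (fun t ht => by
      simp only [mem_erase, mem_range, mem_Icc] at ht ⊢; omega) fun _ _ _ => by positivity).trans
      ((sum_gcd_div hq.ne' q).trans (by gcongr))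
  have h3 : ∑ t ∈ (range q).erase 0, ((Nat.gcd t q : ℝ) / (q - t) : ℝ) =
      ∑ t ∈ (range q).erase 0, (Nat.gcd t q : ℝ) / t := by
    refine sum_nbij' (fun t => q - t) (fun t => q - t) ?_ ?_ ?_ ?_ ?_
    all_goals
      intro t ht
      simp only [mem_erase, mem_range] at ht ⊢
    · omega
    · omega
    · omega
    · omega
    · rw [Nat.cast_sub ht.2.le, Nat.gcd_self_sub_left ht.2.le, Nat.gcd_comm]
  rw [h1, norm_div, Complex.norm_natCast, div_le_iff₀ hq0]
  refine (norm_sum_le _ _).trans ?_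
  calc _ ≤ ∑ t ∈ (range q).erase 0, E ^ 6 * √q * q *
        ((Nat.gcd t q : ℝ) / t + (Nat.gcd t q : ℝ) / (q - t)) := by
        refine sum_le_sum fun t ht => ?_
        rw [norm_mul]
        exact (mul_le_mul (hS t) (hWle t ht) (norm_nonneg _) (by positivity)).trans
          (le_of_eq (by ring))
    _ ≤ E ^ 6 * √q * q * (E * E + E * E) := by
        rw [← mul_sum, sum_add_distrib, h3]
        gcongr
    _ = _ := by ring

theorem gc_sharp {q P : ℕ} (hq : 0 < q) (hP : 1 ≤ P) {E : ℝ} (hE : (#q.divisors : ℝ) ≤ E)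
    (hL : 1 + Real.log q ≤ E) {r : ℤ} (hr : IsCoprime r q) (β : ℝ) :
    ‖gc P (r / q + β) - s3 q r 1 * gc P β‖ ^ 2 ≤ 70756 * E ^ 16 * (q * (1 + P ^ 3 * |β|) ^ 2) := by
  have hP1 : (1 : ℝ) ≤ P := by exact_mod_cast hP
  have hE1 := one_le_of_div hq.ne' hE
  have h1 := abel_one (fun z : ℕ => ec q (r * z ^ 3) - s3 q r 1)
    (fun z : ℕ => e (β * z ^ 3)) (a := P) (b := 2 * P) (by omega) (D := 2 * E ^ 8 * √q)
    (V := 133 * (1 + P ^ 3 * |β|)) (fun x _ _ => disc_sharp hq hE hL hr P x) ?_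
  · have e1 : gc P (r / q + β) - s3 q r 1 * gc P β =
        ∑ z ∈ Ioc P (2 * P), (ec q (r * z ^ 3) - s3 q r 1) * e (β * z ^ 3) := by
      rw [gc, gc, mul_sum, ← sum_sub_distrib]
      refine sum_congr rfl fun z _ => ?_
      have := e_add_div q r ((z : ℤ) ^ 3) β
      push_cast at this
      rw [this, sub_mul]
    rw [e1]
    refine (pow_le_pow_left₀ (norm_nonneg _) h1 2).trans (le_of_eq ?_)
    rw [mul_pow, mul_pow, Real.sq_sqrt (by positivity)]
    ring
  · rw [norm_e, mul_add]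
    refine add_le_add (by norm_num)
      ((sum_le_card_nsmul _ _ (7 * (19 * P ^ 2 * |β|)) fun n hn => ?_).trans (le_of_eq ?_))
    · refine (norm_e_sub_le _ _).trans ?_
      have h2 : (n : ℝ) ≤ 2 * P := by exact_mod_cast (mem_Ico.1 hn).2.le
      have h3 : (0 : ℝ) ≤ n := by positivity
      push_cast
      rw [show β * ((n : ℝ) + 1) ^ 3 - β * n ^ 3 = (3 * n ^ 2 + 3 * n + 1) * β by ring, abs_mul,
        abs_of_nonneg (by positivity)]
      gcongr
      nlinarith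
    · rw [Nat.card_Ico, show 2 * P - P = P by omega, nsmul_eq_mul]; ring

end Pool.Agent.Lib.MP_786755_nt
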