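import Pool.Agent.Lib.MP_786755_nt.W.Term

/-! The count of the integers that are not sums of four cubes, with exponent `41 / 48`. -/

namespace Pool.Agent.Lib.MP_786755_nt

open Finset Pool.Agent.Lib.MP_028aa5_nt MeasureTheory

lemma bad_set {X k Y : ℕ} {E : ℝ} (hX : 100 ≤ X) (hk : 1 ≤ k) (hkX : k ^ 76 ≤ X) (hY : 1 ≤ Y)
    (hY' : X ^ 2 ≤ 2 * Y * k) (hE : ∀ m, 1 ≤ m → m ≤ 1000 * (X ^ 4) ^ 48 → (#m.divisors : ℝ) ≤ E)
    (hL : ∀ m : ℕ, 1 ≤ m → m ≤ 1000 * (X ^ 4) ^ 48 → 1 + Real.log m ≤ E) :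
    ∃ T : ℕ → ℝ, (∀ n : ℕ, n ∈ Icc (32 * X ^ 48) (96 * X ^ 48) → ∑ a ∈ Ioc (X ^ 2) (2 * X ^ 2),
      ‖∑ q ∈ Ioc Y (X ^ 5), Aa a q (n - 2 * a ^ 3)‖ ≤ T n + 2 * E ^ 26 * X ^ 2 / k) ∧
      ∑ n ∈ Icc (32 * X ^ 48) (96 * X ^ 48), T n ^ 8 ≤ 1538 * E ^ 169 * X ^ 57 := by
  have h1p : ∀ i, 1 ≤ X ^ i := fun i => Nat.one_le_pow _ _ (by omega)
  have hp : ∀ {i j : ℕ}, i ≤ j → X ^ i ≤ X ^ j := fun h => Nat.pow_le_pow_right (by omega) h
  have hE1 : 1 ≤ E := by simpa using hL 1 le_rfl (Nat.mul_pos (by norm_num) (by positivity))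
  have e1 : (X ^ 5) ^ 8 ≤ 1000 * (X ^ 4) ^ 48 := by
    linarith [hp (show 40 ≤ 192 by norm_num), Nat.zero_le (X ^ 192)]
  have e2 : 432 * (2 * X ^ 2) * (96 * X ^ 48) ^ 3 ≤ 1000 * (X ^ 4) ^ 48 := by
    linarith [pw hX (show 146 < 147 by norm_num), pw hX (show 147 < 148 by norm_num),
      pw hX (show 148 < 192 by norm_num), Nat.zero_le (X ^ 146)]
  have e3 : 96 * X ^ 48 ≤ 1000 * (X ^ 4) ^ 48 := by
    linarith [hp (show 48 ≤ 192 by norm_num), Nat.zero_le (X ^ 192)]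
  have e4 : 2 * (2 * X ^ 2) ^ 3 < 32 * X ^ 48 := by
    linarith [hp (show 6 ≤ 48 by norm_num), h1p 48]
  choose! T h1 h2 h3 using fun (a : ℕ) (ha : a ∈ Ioc (X ^ 2) (2 * X ^ 2)) =>
    tail_bound (a := a) (H := 96 * X ^ 48) hE hL (by have := mem_Ioc.1 ha; omega) hY hk (h1p 5) e1
      (le_trans (by gcongr; exact (mem_Ioc.1 ha).2) e2)
  refine ⟨fun n => ∑ a ∈ Ioc (X ^ 2) (2 * X ^ 2), T a n, fun n hn => ?_, ?_⟩
  · obtain ⟨h4, h5⟩ := mem_Icc.1 hn
    have h6 : 0 < n := by omega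
    refine (sum_le_sum fun a ha => h2 a ha n (lt_of_le_of_lt (by gcongr; exact (mem_Ioc.1 ha).2)
      (e4.trans_le h4)) h5).trans ?_
    rw [sum_add_distrib, ← sum_div, ← mul_sum]
    gcongr _ + ?_ / _
    calc _ ≤ E ^ 25 * (2 * (X ^ 2 : ℕ) * E) := by
          gcongr; exact sum_gcd_Ioc h6 (hE n h6 (h5.trans e3))
      _ = _ := by push_cast; ring
  have hX0 : (0 : ℝ) < X := by exact_mod_cast (by omega : 0 < X)
  have hk1 : (1 : ℝ) ≤ k := by exact_mod_cast hk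
  have e5 : ((96 * X ^ 48 : ℕ) : ℝ) * k ^ 72 / Y ^ 4 + 2 * k ^ 48 * (X ^ 5 : ℕ) ^ 8 ≤
      1538 * X ^ 41 := by
    have f1 : (k : ℝ) ^ 76 ≤ X := by exact_mod_cast hkX
    have f2 : (X : ℝ) ^ 2 ≤ 2 * Y * k := by exact_mod_cast hY'
    have f3 : (k : ℝ) ^ 48 ≤ X := (pow_le_pow_right₀ hk1 (by norm_num)).trans f1
    have f4 : ((96 * X ^ 48 : ℕ) : ℝ) * k ^ 72 / Y ^ 4 ≤ 1536 * X ^ 41 := by
      rw [div_le_iff₀ (by positivity)]
      calc _ = 96 * (X : ℝ) ^ 40 * k ^ 72 * (X ^ 2) ^ 4 := by push_cast; ring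
        _ ≤ 96 * X ^ 40 * k ^ 72 * (2 * Y * k) ^ 4 := by gcongr
        _ = 1536 * (X ^ 40 * k ^ 76) * Y ^ 4 := by ring
        _ ≤ 1536 * (X ^ 40 * X) * Y ^ 4 := by gcongr
        _ = _ := by ring
    have := mul_le_mul_of_nonneg_right f3 (pow_pos hX0 40).le
    push_cast at f4 ⊢
    linarith
  refine (sum_le_sum_of_subset_of_nonneg (t := Ioc 0 (96 * X ^ 48)) (fun n hn => by
    have := mem_Icc.1 hn
    exact mem_Ioc.2 ⟨by omega, this.2⟩) fun _ _ _ => by positivity).trans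
    ((sum_le_sum fun n _ => pow_sum_le_card_mul_sum_pow (fun a ha => h1 a ha n) 7).trans ?_)
  rw [← mul_sum, sum_comm, Nat.card_Ioc, show 2 * X ^ 2 - X ^ 2 = X ^ 2 by omega]
  have e6 := sum_le_card_nsmul _ _ _ fun a ha => (h3 a ha).trans
    (mul_le_mul_of_nonneg_left e5 (by positivity))
  rw [Nat.card_Ioc, show 2 * X ^ 2 - X ^ 2 = X ^ 2 by omega, nsmul_eq_mul] at e6
  refine (mul_le_mul_of_nonneg_left e6 (by positivity)).trans (le_of_eq ?_)
  push_cast; ring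

open Classical in
theorem window2 : ∃ c C : ℝ, 0 < c ∧ 0 < C ∧ ∀ (X k : ℕ) (E : ℝ), 100 ≤ X → 1 ≤ k → k ^ 76 ≤ X →
    (∀ m, 1 ≤ m → m ≤ 1000 * (X ^ 4) ^ 48 → (#m.divisors : ℝ) ≤ E) →
    (∀ m : ℕ, 1 ≤ m → m ≤ 1000 * (X ^ 4) ^ 48 → 1 + Real.log m ≤ E) → E ^ 28 ≤ c * k →
    (#((Icc (32 * X ^ 48) (96 * X ^ 48)).filter fun n : ℕ => Exc n) : ℝ) ≤ C * E ^ 185 * X ^ 41 := by
  obtain ⟨c, C, hc, hC, h⟩ := sing_lower
  refine ⟨min (c / (2 * C)) (c / 10 ^ 10), 10 ^ 21 * (2592 / c) ^ 2 + 1538 * (124416 / c) ^ 8,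
    by positivity, by positivity, fun X k E hX hk hkX hE hL hEk => ?_⟩
  have hX1 : (100 : ℝ) ≤ X := by exact_mod_cast hX
  have hX0 : (0 : ℝ) < X := by linarith
  have hk1 : (1 : ℝ) ≤ k := by exact_mod_cast hk
  have h1p : ∀ i, 1 ≤ X ^ i := fun i => Nat.one_le_pow _ _ (by omega)
  have hp : ∀ {i j : ℕ}, i ≤ j → X ^ i ≤ X ^ j := fun h => Nat.pow_le_pow_right (by omega) h
  have hp' : ∀ {i j : ℕ}, i ≤ j → (X : ℝ) ^ i ≤ X ^ j := fun h => pow_le_pow_right₀ (by linarith) h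
  have hE1 : 1 ≤ E := by simpa using hL 1 le_rfl (Nat.mul_pos (by norm_num) (by positivity))
  have hE0 : 0 < E := by linarith
  have e0 : (0 : ℝ) < 1 / (216 * X ^ 41) := by positivity
  have hM : 1000 * X ^ 48 ≤ 1000 * (X ^ 4) ^ 48 := by linarith [hp (show 48 ≤ 192 by norm_num)]
  have hE' := fun m h1 h2 => hE m h1 (le_trans h2 hM)
  have hL' := fun m h1 h2 => hL m h1 (le_trans h2 hM)
  obtain ⟨Y, hY⟩ : ∃ Y, Y = X ^ 2 / k := ⟨_, rfl⟩
  have y1 : k ^ 4 ≤ Y := by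
    rw [hY, Nat.le_div_iff_mul_le hk, ← pow_succ]
    exact ((Nat.pow_le_pow_right hk (by norm_num)).trans hkX).trans (Nat.le_self_pow two_ne_zero X)
  have y2 : 1 ≤ Y := (Nat.one_le_pow _ _ hk).trans y1
  have y3 : Y * k ≤ X ^ 2 := hY ▸ Nat.div_mul_le_self _ _
  have y4 : X ^ 2 ≤ 2 * Y * k := by
    have := Nat.lt_div_mul_add (a := X ^ 2) hk
    have := Nat.le_mul_of_pos_left k y2
    rw [← hY] at *
    linarith
  have y5 : Y ≤ X ^ 2 := hY ▸ Nat.div_le_self _ _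
  have y6 : Y ≤ 1000 * X ^ 48 := by have := hp (show 2 ≤ 48 by norm_num); omega
  obtain ⟨T, t1, t2⟩ := bad_set hX hk hkX y2 y4 hE hL
  obtain ⟨l, hl⟩ : ∃ l : ℝ, l = c / 124416 * X ^ 2 / E ^ 2 := ⟨_, rfl⟩
  have hl0 : 0 < l := by rw [hl]; positivity
  set S := (Icc (32 * X ^ 48) (96 * X ^ 48)).filter fun n : ℕ => Exc n with hS
  have h1 := (bessel_int (by fun_prop) (S.filter fun n => T n ≤ l) _).trans
    (ms_bound2 hX rfl hE' hL')
  have h2 := card_nsmul_le_sum (S.filter fun n => T n ≤ l)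
    (fun n : ℕ => ‖∫ α in (1 / (2 * (X ^ 5 : ℕ)) : ℝ)..1 / (2 * (X ^ 5 : ℕ)) + 1,
      (ff (X ^ 2) (X ^ 23) (X ^ 16) α -
        MM2 (X ^ 2) (X ^ 23) (X ^ 16) (X ^ 5) (1 / (216 * X ^ 41)) α) *
        e (-(α * n))‖ ^ 2) ((c / 2592 * X ^ 9 / E) ^ 2) fun n hn => by
      obtain ⟨h3, h4⟩ := mem_filter.1 hn
      obtain ⟨h5, h6⟩ := mem_filter.1 h3
      obtain ⟨h7, h8⟩ := mem_Icc.1 h5
      have h9 := h1p 48
      refine pow_le_pow_left₀ (by positivity) ?_ 2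
      simp only [sub_mul]
      rw [intervalIntegral.integral_sub (Continuous.intervalIntegrable (by fun_prop) _ _)
        (Continuous.intervalIntegrable (by fun_prop) _ _), int_ff h6, zero_sub, norm_neg,
        int_MM2 _ _ _ _ _ e0 rfl (by
          push_cast
          exact one_div_le_one_div_of_le (by positivity)
            (by linarith [hp' (show 5 ≤ 41 by norm_num), pow_pos hX0 41]))]
      refine le_trans ?_ (main_lower e0 (hp (by norm_num)) (h1p _) (by ring) y5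
        (y5.trans (hp (by norm_num))) (fun m h1 h2 => hE' m h1 (h2.trans y6)) hE0.le (hL' Y y2 y6)
        ?_ ?_ ((t1 n h5).trans (add_le_add_left h4 _)))
      · have f1 : c / (2 * E) ≤ ‖∑ q ∈ Icc 1 Y, An n q‖ := by
          refine le_trans ?_ (h n Y E (by omega) (hE' n (by omega) (by omega)) y2)
          have g1 : (k : ℝ) ≤ (Y : ℝ) ^ (1 / 4 : ℝ) := by
            rw [one_div, Real.le_rpow_inv_iff_of_pos (by positivity) (by positivity) (by norm_num)]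
            exact_mod_cast y1
          have g2 : C * E ^ 16 / (Y : ℝ) ^ (1 / 4 : ℝ) ≤ c / (2 * E) := by
            rw [div_le_div_iff₀ (by positivity) (by positivity)]
            calc _ = 2 * C * E ^ 17 := by ring
              _ ≤ 2 * C * E ^ 28 := by gcongr; norm_num
              _ ≤ 2 * C * (c / (2 * C) * (Y : ℝ) ^ (1 / 4 : ℝ)) := by
                  gcongr
                  exact hEk.trans (by gcongr; exact min_le_left _ _)
              _ = _ := by field_simp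
          have g3 : c / E = c / (2 * E) + c / (2 * E) := by field_simp; ring
          linarith
        have f2 := J_lower (A := X ^ 2) (U := X ^ 23) (P := X ^ 16) (l := X ^ 16) (n := n) e0 (h1p _)
          (by linarith [pw hX (show 6 < 48 by norm_num), pw hX (show 41 < 48 by norm_num),
            pw hX (show 34 < 48 by norm_num)])
          (h8.trans (le_of_eq (by ring))) (le_of_eq (by push_cast; field_simp))
        have f3 := mul_le_mul f1 f2 (by positivity) (norm_nonneg _)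
        have f4 : 8 * E * (10 ^ 5 * E ^ 13 * Y + 3 * (2 * E ^ 26 * X ^ 2 / k)) ≤
            c / 5184 * X ^ 2 / E := by
          have g1 : (Y : ℝ) ≤ X ^ 2 / k := by
            rw [le_div_iff₀ (by positivity)]; exact_mod_cast y3
          have g2 : E ^ 28 / k ≤ c / 10 ^ 10 := by
            rw [div_le_iff₀ (by positivity)]
            exact hEk.trans (by gcongr; exact min_le_right _ _)
          calc _ ≤ 8 * E * (10 ^ 5 * E ^ 26 * (X ^ 2 / k) + 3 * (2 * E ^ 26 * X ^ 2 / k)) := by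
                gcongr; norm_num
            _ = 800048 * (E ^ 28 / k) * X ^ 2 / E := by field_simp; ring
            _ ≤ 800048 * (c / 10 ^ 10) * X ^ 2 / E := by gcongr
            _ ≤ _ := by gcongr; linarith
        have f5 := mul_le_mul_of_nonneg_left f4 (pow_pos hX0 7).le
        have f6 : ((X ^ 23 : ℕ) : ℝ) / (X ^ 16 : ℕ) = X ^ 7 := by push_cast; field_simp
        have f7 : 8 * E * X ^ 7 * (3 * l) = c / 5184 * X ^ 9 / E := by rw [hl]; field_simp; ring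
        have f8 : c / (2 * E) * ((X ^ 2 : ℕ) * (X ^ 16 : ℕ) ^ 2 * (X ^ 16 : ℕ) *
            (1 / (216 * X ^ 41)) / 3) = c / 1296 * X ^ 9 / E := by push_cast; field_simp; ring
        rw [f6]
        rw [f8] at f3
        linear_combination f3 + f5 + f7
      · have f1 := hL' _ (h1p 8) (by have := hp (show 8 ≤ 48 by norm_num); omega)
        have f2 : ((X ^ 16 : ℕ) : ℝ) ^ 3 * (1 / (216 * X ^ 41)) = X ^ 7 / 216 := by
          push_cast; field_simp
        have f3 : 100 * (X : ℝ) ^ 7 ≤ X ^ 8 := by exact_mod_cast pw hX (show 7 < 8 by norm_num)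
        have f4 := Real.log_le_log (by positivity)
          (by linarith [hp' (show 0 ≤ 7 by norm_num)] : 1 + (X : ℝ) ^ 7 / 216 ≤ X ^ 8)
        rw [f2]
        push_cast at f1
        linarith
      · rw [one_div_mul_eq_div, div_le_one (by positivity)]
        push_cast
        linarith [hp' (show 32 ≤ 41 by norm_num), pow_pos hX0 41]
  have h3 := card_nsmul_le_sum (S.filter fun n => ¬T n ≤ l) (fun n => T n ^ 8) (l ^ 8)
    fun n hn => pow_le_pow_left₀ hl0.le (not_le.1 (mem_filter.1 hn).2).le 8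
  have h4 := h3.trans ((sum_le_sum_of_subset_of_nonneg ((filter_subset _ _).trans
    (filter_subset _ _)) fun _ _ _ => by positivity).trans t2)
  rw [nsmul_eq_mul, ← le_div_iff₀ (by positivity)] at h2 h4
  have h5 := h2.trans (div_le_div_of_nonneg_right h1 (by positivity))
  rw [← card_filter_add_card_filter_not (s := S) fun n => T n ≤ l, Nat.cast_add, add_mul, add_mul]
  refine add_le_add (h5.trans ?_) (h4.trans (le_of_eq ?_))
  · calc _ = 10 ^ 21 * (2592 / c) ^ 2 * E ^ 37 * X ^ 41 := by field_simp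
      _ ≤ _ := by gcongr; norm_num
  · rw [hl]; field_simp

open Classical in
theorem window2' {ε : ℝ} (hε : 0 < ε) : ∃ (C : ℝ) (X₀ : ℕ), 0 < C ∧ ∀ X : ℕ, X₀ ≤ X →
    (#((Icc (32 * X ^ 48) (96 * X ^ 48)).filter fun n : ℕ => Exc n) : ℝ) ≤
      C * ((X ^ 48 : ℕ) : ℝ) ^ (41 / 48 + ε) := by
  obtain ⟨c, C, hc, hC, h⟩ := window2
  obtain ⟨η, hη⟩ : ∃ η, η = min (ε / 16) (1 / 17024) := ⟨_, rfl⟩
  have hη0 : 0 < η := hη ▸ lt_min (by positivity) (by norm_num)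
  obtain ⟨D, hD, hE⟩ := exists_E hη0
  refine ⟨C * D ^ 185, ⌈(2 * D ^ 28 / c) ^ 152⌉₊ + 100, by positivity, fun X hX => ?_⟩
  have hX1 : (1 : ℝ) ≤ X := by exact_mod_cast (by omega : 1 ≤ X)
  have hp : ∀ k : ℕ, (((X ^ 4 : ℕ) : ℝ) ^ η) ^ k = (X : ℝ) ^ (4 * η * k) := fun k => by
    rw [Real.rpow_mul (by positivity), Real.rpow_mul (by positivity), Real.rpow_natCast]
    norm_num
  have h1 : 1 ≤ (X : ℝ) ^ (76⁻¹ : ℝ) := Real.one_le_rpow hX1 (by norm_num)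
  have h2 : 1 ≤ ⌊(X : ℝ) ^ (76⁻¹ : ℝ)⌋₊ := Nat.le_floor (by simpa using h1)
  refine (h X _ _ (by omega) h2 ?_ (fun m h1 h2 => (hE (X ^ 4) m h1 h2).1)
    (fun m h1 h2 => (hE (X ^ 4) m h1 h2).2) ?_).trans ?_
  · have := pow_le_pow_left₀ (by positivity) (Nat.floor_le (by positivity :
      0 ≤ (X : ℝ) ^ (76⁻¹ : ℝ))) 76
    rw [show (76⁻¹ : ℝ) = ((76 : ℕ) : ℝ)⁻¹ by norm_num,
      Real.rpow_inv_natCast_pow (by positivity) (by norm_num)] at this
    exact_mod_cast this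
  · have e1 : 2 * D ^ 28 / c ≤ (X : ℝ) ^ (152⁻¹ : ℝ) := by
      rw [Real.le_rpow_inv_iff_of_pos (by positivity) (by positivity) (by norm_num)]
      have := Nat.ceil_le.1 (by omega : ⌈(2 * D ^ 28 / c) ^ 152⌉₊ ≤ X)
      exact_mod_cast this
    have e2 := Nat.lt_floor_add_one ((X : ℝ) ^ (76⁻¹ : ℝ))
    have e3 : (1 : ℝ) ≤ ⌊(X : ℝ) ^ (76⁻¹ : ℝ)⌋₊ := by exact_mod_cast h2
    have e4 : (X : ℝ) ^ (4 * η * (28 : ℕ)) ≤ X ^ (152⁻¹ : ℝ) := by
      refine Real.rpow_le_rpow_of_exponent_le hX1 ?_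
      have := min_le_right (ε / 16) (1 / 17024)
      push_cast
      linarith
    rw [div_le_iff₀' hc] at e1
    rw [mul_pow, hp]
    calc _ ≤ c * (X : ℝ) ^ (152⁻¹ : ℝ) / 2 * X ^ (152⁻¹ : ℝ) := by gcongr; linarith
      _ = c * (X ^ (76⁻¹ : ℝ) / 2) := by
          rw [show (76⁻¹ : ℝ) = 152⁻¹ + 152⁻¹ by norm_num, Real.rpow_add (by positivity)]; ring
      _ ≤ _ := by gcongr; linarith
  · rw [mul_pow, hp, Nat.cast_pow, ← Real.rpow_natCast _ 41, ← Real.rpow_natCast _ 48,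
      ← Real.rpow_mul (by positivity), mul_assoc, mul_assoc, ← Real.rpow_add (by positivity),
      ← mul_assoc]
    gcongr
    have := min_le_left (ε / 16) (1 / 17024)
    push_cast
    linarith

open Classical in
theorem count_nat2 {ε : ℝ} (hε : 0 < ε) : ∃ C : ℝ, 0 < C ∧ ∀ N : ℕ,
    (#((Icc 1 N).filter fun n : ℕ => Exc n) : ℝ) ≤ C * (N : ℝ) ^ (41 / 48 + ε) := by
  obtain ⟨C, X₀, hC, h⟩ := window2' hε
  obtain ⟨B, hB⟩ : ∃ B : ℕ, ∀ N, B < N → ∃ X, X₀ + 144 ≤ X ∧ N ≤ 96 * X ^ 48 ∧ 64 * X ^ 48 ≤ N :=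
    ⟨_, fun N hN => exists_X (Nat.le_add_left _ _) hN⟩
  refine ⟨4 * C + B, by positivity, fun N => ?_⟩
  induction N using Nat.strong_induction_on with
  | _ N ih =>
  rcases Nat.eq_zero_or_pos N with rfl | hN
  · simp only [show Icc 1 0 = ∅ from rfl, filter_empty, card_empty, Nat.cast_zero]
    positivity
  have hN1 : (1 : ℝ) ≤ N := by exact_mod_cast hN
  have h1 : 1 ≤ (N : ℝ) ^ (41 / 48 + ε) := Real.one_le_rpow hN1 (by positivity)
  rcases le_or_gt N B with h2 | h2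
  · have : #((Icc 1 N).filter fun n : ℕ => Exc n) ≤ B := (card_filter_le _ _).trans (by simpa)
    calc _ ≤ (4 * C + B) * 1 := by
          have : (#((Icc 1 N).filter fun n : ℕ => Exc n) : ℝ) ≤ B := by exact_mod_cast this
          linarith
      _ ≤ _ := by gcongr
  obtain ⟨X, h3, h4, h5⟩ := hB N h2
  have h6 : #((Icc 1 N).filter fun n : ℕ => Exc n) ≤ #((Icc 1 (N / 2)).filter fun n : ℕ => Exc n) +
      #((Icc (32 * X ^ 48) (96 * X ^ 48)).filter fun n : ℕ => Exc n) := by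
    refine le_trans (card_le_card fun n hn => ?_) (card_union_le _ _)
    simp only [mem_union, mem_filter, mem_Icc] at hn ⊢
    by_cases h7 : n ≤ N / 2
    · exact Or.inl ⟨⟨hn.1.1, h7⟩, hn.2⟩
    · exact Or.inr ⟨⟨by omega, by omega⟩, hn.2⟩
  have h7 := ih (N / 2) (by omega)
  have h8 := h X (by omega)
  have h9 : ((X ^ 48 : ℕ) : ℝ) ^ (41 / 48 + ε) ≤ (N : ℝ) ^ (41 / 48 + ε) :=
    Real.rpow_le_rpow (by positivity) (by exact_mod_cast (by omega : X ^ 48 ≤ N)) (by positivity)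
  have h10 : ((N / 2 : ℕ) : ℝ) ^ (41 / 48 + ε) ≤ 3 / 4 * (N : ℝ) ^ (41 / 48 + ε) := by
    have e1 : ((N / 2 : ℕ) : ℝ) ≤ 1 / 2 * N := by
      have := Nat.cast_div_le (α := ℝ) (m := N) (n := 2)
      push_cast at this
      linarith
    refine (Real.rpow_le_rpow (by positivity) e1 (by positivity)).trans ?_
    rw [Real.mul_rpow (by norm_num) (by positivity)]
    gcongr
    refine (Real.rpow_le_rpow_of_exponent_ge (by norm_num) (by norm_num)
      (by linarith : (2 : ℝ)⁻¹ ≤ 41 / 48 + ε)).trans ?_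
    rw [Real.rpow_inv_le_iff_of_pos (by norm_num) (by norm_num) (by norm_num)]
    norm_num
  have h11 : (#((Icc 1 N).filter fun n : ℕ => Exc n) : ℝ) ≤
      #((Icc 1 (N / 2)).filter fun n : ℕ => Exc n) +
      #((Icc (32 * X ^ 48) (96 * X ^ 48)).filter fun n : ℕ => Exc n) := by exact_mod_cast h6
  have h12 := mul_le_mul_of_nonneg_left h10 (by positivity : 0 ≤ 4 * C + B)
  have h13 := mul_le_mul_of_nonneg_left h9 hC.le
  have h14 : 0 ≤ (B : ℝ) * (N : ℝ) ^ (41 / 48 + ε) := by positivity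
  linarith

open Classical in
theorem count_int2 {ε : ℝ} (hε : 0 < ε) : ∃ C : ℝ, ∀ N : ℕ,
    (#((Icc (-(N : ℤ)) N).filter Exc) : ℝ) ≤ C * (N : ℝ) ^ (41 / 48 + ε) := by
  obtain ⟨C, -, h⟩ := count_nat2 hε
  refine ⟨2 * C, fun N => ?_⟩
  have h1 : #((Icc (-(N : ℤ)) N).filter Exc) ≤ 2 * #((Icc 1 N).filter fun n : ℕ => Exc n) := by
    refine card_le_mul_card_image_of_maps_to (f := Int.natAbs) (fun n hn => ?_) 2 fun m _ => ?_
    · obtain ⟨h1, h2⟩ := mem_filter.1 hn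
      have h3 := mem_Icc.1 h1
      have h4 : n ≠ 0 := fun h => h2 ⟨0, 0, 0, 0, by simp [h]⟩
      refine mem_filter.2 ⟨mem_Icc.2 (by omega), fun ⟨a, b, c, d, h5⟩ => h2 ?_⟩
      rcases Int.natAbs_eq n with h6 | h6
      · exact ⟨a, b, c, d, h6.trans h5⟩
      · exact ⟨-a, -b, -c, -d, by rw [h6, h5]; ring⟩
    · refine (card_le_card fun n hn => ?_).trans (card_le_two (a := (m : ℤ)) (b := -m))
      have := (mem_filter.1 hn).2
      simp only [mem_insert, mem_singleton]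
      omega
  have h2 : (#((Icc (-(N : ℤ)) N).filter Exc) : ℝ) ≤
      2 * #((Icc 1 N).filter fun n : ℕ => Exc n) := by exact_mod_cast h1
  linarith [h N]

end Pool.Agent.Lib.MP_786755_nt
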