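import Pool.Agent.Lib.MP_639284_nt.RH

/-! The curve `y ^ p - y = x ^ 3 + B x`: pole orders and twisted point counts. -/

namespace Pool.Agent.Lib.MP_786755_nt.AS

open Polynomial Finset Pool.Agent.Lib.MP_639284_nt

variable {k : Type} [Field k] (p : ℕ) (B : k)

/-- the equation as a cubic over `k[y]` -/
noncomputable def g : k[X][X] := X ^ 3 + (C (C B) * X - C (X ^ p - X))

lemma deg_low : (C (C B) * X - C (X ^ p - X) : k[X][X]).degree < 3 := by
  refine (degree_sub_le _ _).trans_lt (max_lt ((degree_C_mul_X_le _).trans_lt (by norm_num))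
    (degree_C_le.trans_lt (by norm_num)))

lemma g_monic : (g p B).Monic := monic_X_pow_add (deg_low p B)

lemma g_deg : (g p B).natDegree = 3 := by
  rw [g, natDegree_add_eq_left_of_degree_lt, natDegree_X_pow]
  rw [degree_X_pow]
  exact deg_low p B

/-- the coordinate ring -/
abbrev O : Type := AdjoinRoot (g p B)

/-- the basis `1, x, x ^ 2` -/
noncomputable def bas : Module.Basis (Fin 3) k[X] (O p B) :=
  (AdjoinRoot.powerBasis' (g_monic p B)).basis.reindex (finCongr (g_deg p B))

lemma bas_eq (i : Fin 3) : bas p B i = AdjoinRoot.root (g p B) ^ (i : ℕ) := by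
  simp only [bas, Module.Basis.reindex_apply, PowerBasis.coe_basis]
  rfl

lemma root_cube : AdjoinRoot.root (g p B) ^ 3 =
    (X ^ p - X : k[X]) • (1 : O p B) - (C B : k[X]) • AdjoinRoot.root (g p B) := by
  have h : aeval (AdjoinRoot.root (g p B))
      (X ^ 3 + (C (C B) * X - C (X ^ p - X)) : k[X][X]) = 0 :=
    (AdjoinRoot.aeval_eq (g p B)).trans AdjoinRoot.mk_self
  rw [map_add, map_sub (aeval _), map_mul, map_pow, aeval_X, aeval_C, aeval_C] at h
  rw [Algebra.smul_def, Algebra.smul_def, mul_one]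
  linear_combination h

/-- coordinates -/
noncomputable def co (i : Fin 3) : O p B →ₗ[k[X]] k[X] := (bas p B).coord i

/-- the element `P x ^ i` -/
noncomputable def sg (i : Fin 3) (P : k[X]) : O p B := P • bas p B i

variable {p B}

lemma co_sg (i j : Fin 3) (P : k[X]) : co p B i (sg p B j P) = if i = j then P else 0 := by
  simp [co, sg, Finsupp.single_apply, eq_comm]

lemma sum_sg (u : O p B) : ∑ j, sg p B j (co p B j u) = u := (bas p B).sum_repr u

variable (p) in
/-- the pole order model of `P x ^ j` -/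
noncomputable def T (j : Fin 3) : k[X] →ₗ[k] k[X] :=
  LinearMap.mulLeft k (X ^ (p * j)) ∘ₗ (expand k 3).toLinearMap

lemma T_apply (j : Fin 3) (P : k[X]) : T p j P = X ^ (p * j) * expand k 3 P := rfl

lemma d_inj (h3 : ¬3 ∣ p) {i j : Fin 3} {s t : ℕ} (h : p * i + 3 * s = p * j + 3 * t) : i = j := by
  fin_cases i <;> fin_cases j <;> simp at h ⊢ <;> omega

lemma coeff_T (h3 : ¬3 ∣ p) (l j : Fin 3) (i : ℕ) (P : k[X]) :
    (T p l P).coeff (p * j + 3 * i) = if l = j then P.coeff i else 0 := by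
  rw [T_apply, coeff_X_pow_mul', coeff_expand (by norm_num)]
  split_ifs with h1 h2 h3' h3' h3'
  · rw [h3', Nat.add_sub_cancel_left, Nat.mul_div_cancel_left _ (by norm_num)]
  · obtain ⟨t, ht⟩ := h2
    exact absurd (d_inj h3 (s := t) (t := i) (by omega)) h3'
  · exact absurd (by rw [h3', Nat.add_sub_cancel_left]; exact dvd_mul_right _ _) h2
  · rfl
  · subst h3'; omega
  · rfl

lemma degree_T (j : Fin 3) {P : k[X]} (hP : P ≠ 0) :
    (T p j P).degree = (p * j + 3 * P.natDegree : ℕ) := by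
  rw [T_apply, degree_mul, degree_X_pow,
    degree_eq_natDegree ((expand_ne_zero (by norm_num)).2 hP), natDegree_expand, mul_comm _ 3,
    Nat.cast_add]

variable (p B) in
/-- the pole order model -/
noncomputable def pol : O p B →ₗ[k] k[X] := ∑ j, T p j ∘ₗ (co p B j).restrictScalars k

lemma pol_apply (u : O p B) : pol p B u = ∑ j, T p j (co p B j u) := by simp [pol]

lemma pol_sg (j : Fin 3) (P : k[X]) : pol p B (sg p B j P) = T p j P := by
  simp [pol_apply, co_sg, apply_ite (T p _)]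

lemma coeff_pol (h3 : ¬3 ∣ p) (u : O p B) (j : Fin 3) (i : ℕ) :
    (pol p B u).coeff (p * j + 3 * i) = (co p B j u).coeff i := by
  simp [pol_apply, coeff_T h3]

lemma degree_pol (h3 : ¬3 ∣ p) (u : O p B) :
    (pol p B u).degree = univ.sup fun j => (T p j (co p B j u)).degree := by
  refine le_antisymm (by rw [pol_apply]; exact degree_sum_le _ _) (Finset.sup_le fun j _ => ?_)
  rcases eq_or_ne (co p B j u) 0 with h | h
  · simp [h]
  · rw [degree_T j h]
    exact le_degree_of_ne_zero (by rw [coeff_pol h3]; exact leadingCoeff_ne_zero.2 h)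

lemma degree_T_le (h3 : ¬3 ∣ p) (u : O p B) (j : Fin 3) :
    (T p j (co p B j u)).degree ≤ (pol p B u).degree := by
  rw [degree_pol h3]
  exact le_sup (f := fun j => (T p j (co p B j u)).degree) (mem_univ j)

lemma deg_two {i j : Fin 3} {R S : k[X]} (hR : R ≠ 0)
    (h : p * j + 3 * S.natDegree < p * i + 3 * R.natDegree) :
    (pol p B (sg p B i R - sg p B j S)).degree = (p * i + 3 * R.natDegree : ℕ) := by
  rw [map_sub, pol_sg, pol_sg, degree_sub_eq_left_of_degree_lt, degree_T i hR]
  rw [degree_T i hR]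
  rcases eq_or_ne S 0 with rfl | hS
  · rw [map_zero, degree_zero]; exact WithBot.bot_lt_coe _
  · rw [degree_T j hS]; exact_mod_cast h

lemma degree_sg_mul (hp : 1 < p) (i j : Fin 3) (P Q : k[X]) :
    (pol p B (sg p B i P * sg p B j Q)).degree = (T p i P).degree + (T p j Q).degree := by
  rcases eq_or_ne P 0 with rfl | hP
  · simp [sg]
  rcases eq_or_ne Q 0 with rfl | hQ
  · simp [sg]
  have hPQ := mul_ne_zero hP hQ
  have hA0 : (X ^ p - X : k[X]) ≠ 0 := FiniteField.X_pow_card_sub_X_ne_zero k hp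
  have hA : (X ^ p - X : k[X]).natDegree = p := FiniteField.X_pow_card_sub_X_natDegree_eq k hp
  have hd := natDegree_mul hP hQ
  have hd1 : (P * Q * (X ^ p - X)).natDegree = P.natDegree + Q.natDegree + p := by
    rw [natDegree_mul hPQ hA0, hd, hA]
  have hd2 : (P * Q * C B).natDegree ≤ P.natDegree + Q.natDegree :=
    (natDegree_mul_C_le _ _).trans hd.le
  have e0 : sg p B i P * sg p B j Q = (P * Q) • AdjoinRoot.root (g p B) ^ (i + j : ℕ) := by
    rw [sg, sg, smul_mul_smul_comm, bas_eq, bas_eq, pow_add]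
  rw [degree_T i hP, degree_T j hQ, ← Nat.cast_add, e0]
  by_cases h : (i + j : ℕ) < 3
  · rw [← bas_eq p B ⟨_, h⟩, ← sg, pol_sg, degree_T _ hPQ, hd]
    congr 1
    simp only
    ring
  have hi := i.2
  have hj := j.2
  obtain h | h : (i + j : ℕ) = 3 ∨ (i + j : ℕ) = 4 := by omega
  · have e1 : (P * Q) • AdjoinRoot.root (g p B) ^ 3 =
        sg p B 0 (P * Q * (X ^ p - X)) - sg p B 1 (P * Q * C B) := by
      simp only [sg, bas_eq, root_cube, smul_sub, mul_smul]
      simp
    rw [h, e1, deg_two (mul_ne_zero hPQ hA0) (by simp only [hd1]; simp; omega), hd1]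
    congr 1
    have : p * i + p * j = 3 * p := by rw [← mul_add, h, mul_comm]
    simp
    omega
  · have e1 : (P * Q) • AdjoinRoot.root (g p B) ^ 4 =
        sg p B 1 (P * Q * (X ^ p - X)) - sg p B 2 (P * Q * C B) := by
      rw [pow_succ, root_cube]
      simp only [sg, bas_eq, smul_sub, mul_smul, sub_mul, smul_mul_assoc]
      simp [sq]
    rw [h, e1, deg_two (mul_ne_zero hPQ hA0) (by simp only [hd1]; simp; omega), hd1]
    congr 1
    have : p * i + p * j = 4 * p := by rw [← mul_add, h, mul_comm]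
    simp
    omega

lemma degree_mul_le' (hp : 1 < p) (h3 : ¬3 ∣ p) (u v : O p B) :
    (pol p B (u * v)).degree ≤ (pol p B u).degree + (pol p B v).degree := by
  conv_lhs => rw [← sum_sg u, ← sum_sg v, sum_mul_sum]
  simp only [map_sum]
  refine (degree_sum_le _ _).trans (Finset.sup_le fun i _ => (degree_sum_le _ _).trans
    (Finset.sup_le fun j _ => ?_))
  rw [degree_sg_mul hp]
  exact add_le_add (degree_T_le h3 u i) (degree_T_le h3 v j)

lemma ext' {u v : O p B} (h : ∀ j, co p B j u = co p B j v) : u = v := by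
  rw [← sum_sg u, ← sum_sg v]
  simp only [h]

lemma exists_top (h3 : ¬3 ∣ p) {u : O p B} (hu : u ≠ 0) : ∃ j, co p B j u ≠ 0 ∧
    (pol p B u).degree = (T p j (co p B j u)).degree ∧
    (pol p B (u - sg p B j (co p B j u))).degree < (T p j (co p B j u)).degree := by
  obtain ⟨j, -, hj⟩ := exists_mem_eq_sup univ univ_nonempty fun j => (T p j (co p B j u)).degree
  have h0 : co p B j u ≠ 0 := fun h => hu (ext' fun i => by
    by_contra hi
    rw [map_zero] at hi
    have := (degree_T_le h3 u i).trans_eq ((degree_pol h3 u).trans hj)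
    rw [h, map_zero, degree_zero, degree_T i hi] at this
    exact absurd (le_bot_iff.1 this) WithBot.coe_ne_bot)
  refine ⟨j, h0, (degree_pol h3 u).trans hj, ?_⟩
  rw [degree_pol h3, Finset.sup_lt_iff (by rw [degree_T j h0]; exact WithBot.bot_lt_coe _)]
  intro i _
  rw [map_sub, co_sg]
  split_ifs with h
  · rw [h, sub_self, map_zero, degree_T j h0]; exact WithBot.bot_lt_coe _
  rw [sub_zero]
  refine ((degree_T_le h3 u i).trans_eq ((degree_pol h3 u).trans hj)).lt_of_ne fun h1 => ?_
  rcases eq_or_ne (co p B i u) 0 with h2 | h2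
  · rw [h2, map_zero, degree_T j h0] at h1; exact absurd h1 WithBot.bot_ne_coe
  · rw [degree_T i h2, degree_T j h0] at h1
    exact h (d_inj h3 (Nat.cast_injective h1))

lemma degree_mul' (hp : 1 < p) (h3 : ¬3 ∣ p) (u v : O p B) :
    (pol p B (u * v)).degree = (pol p B u).degree + (pol p B v).degree := by
  rcases eq_or_ne u 0 with rfl | hu
  · simp
  rcases eq_or_ne v 0 with rfl | hv
  · simp
  obtain ⟨i, hi, hi1, hi2⟩ := exists_top h3 hu
  obtain ⟨j, hj, hj1, hj2⟩ := exists_top h3 hv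
  have e1 : u * v = sg p B i (co p B i u) * sg p B j (co p B j v) +
      ((u - sg p B i (co p B i u)) * v + sg p B i (co p B i u) * (v - sg p B j (co p B j v))) := by
    ring
  have hi3 : (T p i (co p B i u)).degree ≠ ⊥ := by rw [degree_T i hi]; exact WithBot.coe_ne_bot
  have hj3 : (T p j (co p B j v)).degree ≠ ⊥ := by rw [degree_T j hj]; exact WithBot.coe_ne_bot
  rw [e1, map_add, degree_add_eq_left_of_degree_lt, degree_sg_mul hp, hi1, hj1]
  rw [degree_sg_mul hp, map_add]
  refine (degree_add_le _ _).trans_lt (max_lt ((degree_mul_le' hp h3 _ _).trans_lt ?_)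
    ((degree_mul_le' hp h3 _ _).trans_lt ?_))
  · rw [hj1]; exact WithBot.add_lt_add_right hj3 hi2
  · rw [pol_sg]; exact WithBot.add_lt_add_left hi3 hj2

open scoped Classical in
variable (p) in
/-- the gaps -/
noncomputable def G : Finset ℕ := {n ∈ range (2 * p) | ¬∃ (j : Fin 3) (i : ℕ), p * j + 3 * i = n}

lemma mem_G (h3 : ¬3 ∣ p) {n : ℕ} : n ∈ G p ↔ ¬∃ (j : Fin 3) (i : ℕ), p * j + 3 * i = n := by
  classical
  rw [G, mem_filter, and_iff_right_iff_imp, mem_range]
  intro h
  by_contra h'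
  refine h ?_
  by_cases h0 : 3 ∣ n
  · exact ⟨0, n / 3, by simp; omega⟩
  by_cases h1 : 3 ∣ n - p
  · exact ⟨1, (n - p) / 3, by simp; omega⟩
  · obtain ⟨t, rfl⟩ : ∃ t, n = 2 * p + t := ⟨n - 2 * p, by omega⟩
    rw [show 2 * p + t - p = p + t by omega] at h1
    refine ⟨2, t / 3, ?_⟩
    change p * 2 + 3 * (t / 3) = _
    have : p % 3 = 1 ∨ p % 3 = 2 := by omega
    have : t % 3 = 0 ∨ t % 3 = 1 ∨ t % 3 = 2 := by omega
    omega

variable (B) in
/-- the degree structure -/
noncomputable def str (hp : 1 < p) (h3 : ¬3 ∣ p) : DegStr k (O p B) where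
  φ := pol p B
  inj := (injective_iff_map_eq_zero _).2 fun u hu => ext' fun j => Polynomial.ext fun i => by
    rw [← coeff_pol h3, hu]; simp
  one := by
    have : (1 : O p B) = sg p B 0 1 := by simp [sg, bas_eq]
    rw [this, pol_sg]
    simp [T_apply]
  mul := degree_mul' hp h3
  G := G p
  gap n := by
    rw [mem_G h3, not_not]
    constructor
    · rintro ⟨j, i, rfl⟩
      exact ⟨sg p B j (X ^ i), by rw [pol_sg, degree_T j (by simp), natDegree_X_pow]⟩
    · rintro ⟨u, hu⟩
      obtain ⟨j, hj, h, -⟩ := exists_top h3 (u := u) (by rintro rfl; simp at hu)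
      rw [hu, degree_T j hj] at h
      exact ⟨j, _, (Nat.cast_injective h).symm⟩

variable (p B) in
/-- the translation `y ↦ y + c` -/
noncomputable def sig (c : k) : O p B →ₗ[k] O p B where
  toFun u := ∑ j, sg p B j (taylor c (co p B j u))
  map_add' u v := by simp [sg, add_smul, sum_add_distrib]
  map_smul' a u := by
    simp only [sg, RingHom.id_apply, smul_sum, LinearMap.map_smul_of_tower, map_smul, smul_assoc]

lemma co_sig (c : k) (j : Fin 3) (u : O p B) :
    co p B j (sig p B c u) = taylor c (co p B j u) := by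
  change co p B j (∑ i, sg p B i (taylor c (co p B i u))) = _
  simp [co_sg]

lemma degree_sig (h3 : ¬3 ∣ p) (c : k) (u : O p B) :
    (pol p B (sig p B c u)).degree = (pol p B u).degree := by
  rw [degree_pol h3, degree_pol h3]
  congr 1
  ext j
  rw [co_sig]
  rcases eq_or_ne (co p B j u) 0 with h | h
  · simp [h]
  · rw [degree_T j h, degree_T j (by simpa using h), natDegree_taylor]

/-- twisted point counts are bounded -/
theorem count_le {Ω : Type} [Field Ω] [Algebra k Ω] [Fact p.Prime] [CharP Ω p] (h3 : ¬3 ∣ p)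
    {s : ℕ} (hk : ∀ a : k, a ^ (p ^ s) ^ 2 = a) (hs : #(G p) ^ 2 + 3 * #(G p) + 1 < p ^ s) (c : k)
    (S : Finset (Ω × Ω)) (hS : ∀ z ∈ S, z.1 ^ (p ^ s) ^ 2 = z.1 ∧
      z.2 ^ p - z.2 = z.1 ^ 3 + algebraMap k Ω B * z.1 ∧
      z.2 ^ (p ^ s) ^ 2 = z.2 + algebraMap k Ω c) :
    #S ≤ (p ^ s) ^ 2 + (2 * #(G p) + 1) * p ^ s := by
  classical
  have hp : 1 < p := (Fact.out : p.Prime).one_lt
  obtain ⟨h1, h2⟩ := rh k (O p B) Ω (str B hp h3) p s (sig p B c)
    (fun u => (degree_sig h3 c u).le) hs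
  have hex : ∀ z : S, ∃ φ ∈ Fix k Ω ((p ^ s) ^ 2) (sig p B c),
      φ (AdjoinRoot.root _) = z.1.1 ∧ φ (AdjoinRoot.of _ X) = z.1.2 := by
    rintro ⟨⟨x, y⟩, hz⟩
    obtain ⟨a1, a2, a3⟩ := hS _ hz
    simp only at a1 a2 a3
    let φ : O p B →ₐ[k] Ω := AdjoinRoot.liftAlgHom (g p B) (aeval y) x (by
      simp only [g, eval₂_add, eval₂_sub, eval₂_mul, eval₂_X_pow, eval₂_C, eval₂_X]
      simp only [AlgHom.coe_toRingHom, aeval_C, map_sub, map_pow, aeval_X]
      linear_combination -a2)
    have b1 : φ (AdjoinRoot.root _) = x := by simp [φ]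
    have b2 : ∀ P, φ (AdjoinRoot.of _ P) = aeval y P := fun P => by simp [φ]
    have b3 : ∀ j P, φ (sg p B j P) = aeval y P * x ^ (j : ℕ) := fun j P => by
      rw [sg, bas_eq, Algebra.smul_def, map_mul, map_pow, b1, AdjoinRoot.algebraMap_eq, b2]
    refine ⟨φ, fun u => ?_, b1, by simp [b2]⟩
    have b4 : ∀ P : k[X], aeval y P ^ (p ^ s) ^ 2 = aeval y (taylor c P) := fun P => by
      rw [taylor_apply, aeval_comp, map_add, aeval_X, aeval_C, ← a3]
      induction P using Polynomial.induction_on' with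
      | add P Q h1 h2 => rw [map_add, map_add, ← h1, ← h2, ← pow_mul, add_pow_char_pow]
      | monomial n a =>
        rw [aeval_monomial, aeval_monomial, mul_pow, ← map_pow, hk, pow_right_comm]
    conv_lhs => rw [← sum_sg u]
    change _ = φ (∑ j, sg p B j (taylor c (co p B j u)))
    rw [map_sum, map_sum, ← pow_mul, sum_pow_char_pow]
    refine sum_congr rfl fun j _ => ?_
    rw [b3, b3, pow_mul, mul_pow, b4, pow_right_comm x, a1]
  choose φ c1 c2 c3 using hex
  refine le_trans ?_ h2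
  rw [← Fintype.card_coe S, ← Nat.card_eq_fintype_card, ← Nat.card_coe_set_eq]
  have := h1.to_subtype
  refine Nat.card_le_card_of_injective (fun z => (⟨φ z, c1 z⟩ : Fix k Ω _ _)) fun z w h => ?_
  have h' : φ z = φ w := congrArg Subtype.val h
  exact Subtype.ext (Prod.ext (by rw [← c2, ← c2, h']) (by rw [← c3, ← c3, h']))

end Pool.Agent.Lib.MP_786755_nt.AS
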