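import Pool.Agent.Lib.MP_786755_nt.HB

/-! The bound of Hua for the sixth moment of a cubic sum over multiples of a fixed number. -/

namespace Pool.Agent.Lib.MP_786755_nt

open Finset

lemma fiber_cs {ι κ V : Type*} [DecidableEq V] (I : Finset ι) (W : Finset κ) (σ : ι → V)
    (π : κ → V) {R : ℝ} (hR : ∀ w ∈ W, (#(I.filter fun i => π w = σ i) : ℝ) ≤ R) :
    (∑ i ∈ I, ∑ w ∈ W, if π w = σ i then (1 : ℝ) else 0) ^ 2 ≤
      #I * (R * ∑ w ∈ W, ∑ w' ∈ W, if π w' = π w then (1 : ℝ) else 0) := by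
  refine sq_sum_le_card_mul_sum_sq.trans (mul_le_mul_of_nonneg_left ?_ (by positivity))
  have h1 : ∀ i, (∑ w ∈ W, if π w = σ i then (1 : ℝ) else 0) ^ 2 = ∑ w ∈ W,
      (if π w = σ i then (1 : ℝ) else 0) * ∑ w' ∈ W, if π w' = π w then (1 : ℝ) else 0 := fun i => by
    rw [sq, sum_mul]
    refine sum_congr rfl fun w _ => ?_
    split_ifs with h
    · rw [h]
    · simp
  simp only [h1]
  rw [sum_comm, mul_sum]
  refine sum_le_sum fun w hw => ?_
  rw [← sum_mul, sum_boole]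
  exact mul_le_mul_of_nonneg_right (hR w hw) (by positivity)

/-- the sum of three cubes -/
def c3 (i : ℕ × ℕ × ℕ) : ℕ := i.1 ^ 3 + (i.2.1 ^ 3 + i.2.2 ^ 3)

/-- the number of solutions of `c3 i = c3 j` -/
noncomputable def J3 (S : Finset ℕ) : ℝ :=
  ∑ i ∈ S ×ˢ S ×ˢ S, ∑ j ∈ S ×ˢ S ×ˢ S, if c3 i = c3 j then 1 else 0

lemma card_mult (D Y : ℕ) :
    (#((Icc 1 Y).filter fun x => D ∣ 6 * x) : ℝ) ≤ 6 * Y / D := by
  refine le_trans ?_ ((Nat.cast_div_le (m := 6 * Y) (n := D)).trans (by push_cast; rfl))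
  rw [← Nat.Ioc_filter_dvd_card_eq_div]
  refine Nat.cast_le.2 (card_le_card_of_injOn (fun x => 6 * x) (fun x hx => ?_)
    fun x _ y _ h => by simpa using h)
  simp only [coe_filter, mem_Icc, mem_Ioc, Set.mem_ofPred_eq] at hx ⊢
  exact ⟨by omega, hx.2⟩

lemma quad_count {A : ℕ} {E : ℝ} (hE : ∀ m, 1 ≤ m → m ≤ 16 * A ^ 3 → (#m.divisors : ℝ) ≤ E)
    {S : Finset ℕ} (hS : S ⊆ Ioc A (2 * A)) {k : ℤ} (hk : k.natAbs ≤ 16 * A ^ 3) :
    (∑ v ∈ S ×ˢ S, ∑ w ∈ S ×ˢ S, if (w.1 : ℤ) - w.2 = v.1 - v.2 ∧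
      (w.2 : ℤ) ^ 3 - w.1 ^ 3 = k + v.2 ^ 3 - v.1 ^ 3 then (1 : ℝ) else 0) ≤
      (if k = 0 then 2 * (#S : ℝ) ^ 2 else 0) + 4 * E ^ 2 := by
  rw [← sum_product', sum_boole]
  set F := ((S ×ˢ S) ×ˢ S ×ˢ S).filter fun u : (ℕ × ℕ) × ℕ × ℕ => (u.2.1 : ℤ) - u.2.2 =
      u.1.1 - u.1.2 ∧ (u.2.2 : ℤ) ^ 3 - u.2.1 ^ 3 = k + u.1.2 ^ 3 - u.1.1 ^ 3 with hF
  have key : ∀ u ∈ F, 0 < u.1.1 ∧ (u.2.1 : ℤ) - u.2.2 = u.1.1 - u.1.2 ∧
      k = 3 * ((u.1.1 : ℤ) - u.1.2) * ((u.1.2 : ℤ) - u.2.2) * (u.1.1 + u.2.2) := by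
    rintro ⟨⟨x, y⟩, x', y'⟩ hu
    simp only [hF, mem_filter, mem_product] at hu ⊢
    obtain ⟨⟨⟨h1, -⟩, -⟩, h2, h3⟩ := hu
    have := mem_Ioc.1 (hS h1)
    refine ⟨by omega, h2, ?_⟩
    obtain h4 : (x' : ℤ) = y' + x - y := by linarith
    rw [h4] at h3
    linear_combination -h3
  split_ifs with h0
  · subst h0
    refine le_add_of_le_of_nonneg ?_ (by positivity)
    have := card_le_card_of_injOn (s := F) (t := (S ×ˢ S) ×ˢ (univ : Finset Bool))
      (fun u => if u.1.1 = u.1.2 then ((u.1.1, u.2.1), true) else (u.1, false))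
      (fun u hu => by
        have h1 := (mem_filter.1 (mem_coe.1 hu)).1
        simp only [mem_product] at h1
        beta_reduce
        split_ifs <;> simp [h1]) (fun u hu v hv h => by
        obtain ⟨h1, h2, h3⟩ := key u hu
        obtain ⟨h4, h5, h6⟩ := key v hv
        obtain ⟨⟨x, y⟩, x', y'⟩ := u
        obtain ⟨⟨z, w⟩, z', w'⟩ := v
        simp only at h h1 h2 h3 h4 h5 h6
        have h7 : (x : ℤ) + y' ≠ 0 := by omega
        have h8 : (z : ℤ) + w' ≠ 0 := by omega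
        simp only [zero_eq_mul, mul_eq_zero, h7, h8, or_false, sub_eq_zero] at h h1 h2 h3 h4 h5 h6
        simp only [Prod.mk.injEq]
        split_ifs at h <;> simp only [Prod.mk.injEq, Bool.true_eq_false, Bool.false_eq_true,
          and_false] at h <;> omega)
    rw [card_product, card_product] at this
    calc _ ≤ ((#S * #S * #(univ : Finset Bool) : ℕ) : ℝ) := by exact_mod_cast this
      _ = _ := by simp; ring
  · have h1 : k.natAbs ≠ 0 := by omega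
    have h2 : #(k.natAbs.divisors ×ˢ (univ : Finset Bool)) = 2 * #k.natAbs.divisors := by
      simp [mul_comm]
    have := card_le_card_of_injOn (s := F) (t := (k.natAbs.divisors ×ˢ (univ : Finset Bool)) ×ˢ
      (k.natAbs.divisors ×ˢ (univ : Finset Bool)))
      (fun u => ((((u.1.1 : ℤ) - u.1.2).natAbs, decide (u.1.1 ≤ u.1.2)),
        (((u.1.2 : ℤ) - u.2.2).natAbs, decide (u.1.2 ≤ u.2.2))))
      (fun u hu => by
        obtain ⟨-, -, h3⟩ := key u hu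
        simp only [coe_product, Set.mem_prod, mem_coe, Nat.mem_divisors, mem_univ, and_true]
        exact ⟨⟨Int.natAbs_dvd_natAbs.2 ⟨3 * ((u.1.2 : ℤ) - u.2.2) * (u.1.1 + u.2.2),
          h3.trans (by ring)⟩, h1⟩,
          Int.natAbs_dvd_natAbs.2 ⟨3 * ((u.1.1 : ℤ) - u.1.2) * (u.1.1 + u.2.2),
            h3.trans (by ring)⟩, h1⟩) (fun u hu v hv h => by
        obtain ⟨-, h2, h3⟩ := key u hu
        obtain ⟨-, h5, h6⟩ := key v hv
        obtain ⟨⟨x, y⟩, x', y'⟩ := u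
        obtain ⟨⟨z, w⟩, z', w'⟩ := v
        simp only [Prod.mk.injEq, decide_eq_decide] at h h2 h3 h5 h6 ⊢
        have h7 : (z : ℤ) - w = x - y := by omega
        have h8 : (w : ℤ) - w' = y - y' := by omega
        rw [h7, h8, h3] at h6
        have := mul_left_cancel₀ (fun h9 => h0 (by rw [h3, h9, zero_mul])) h6
        omega)
    rw [card_product, h2] at this
    have h3 := hE _ (by omega) hk
    calc _ ≤ ((2 * #k.natAbs.divisors * (2 * #k.natAbs.divisors) : ℕ) : ℝ) := by exact_mod_cast this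
      _ ≤ 2 * E * (2 * E) := by
          have : 0 ≤ E := le_trans (by positivity) h3
          push_cast
          gcongr
      _ = _ := by ring

theorem hua {A D : ℕ} {E V : ℝ} (hE : ∀ m, 1 ≤ m → m ≤ 16 * A ^ 3 → (#m.divisors : ℝ) ≤ E)
    (hE1 : 1 ≤ E) {S : Finset ℕ} (hS : S ⊆ Ioc A (2 * A)) (hD : ∀ a ∈ S, D ∣ 6 * a)
    (hV : 0 ≤ V) (hV' : V ^ 2 = A ^ 7) : D ^ 3 * J3 S ≤ 34000 * E ^ 2 * V := by
  rcases S.eq_empty_or_nonempty with rfl | ⟨a, ha⟩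
  · simp only [J3, empty_product, sum_empty, mul_zero]; positivity
  have ha' := mem_Ioc.1 (hS ha)
  have hD0 : 0 < D := Nat.pos_of_dvd_of_pos (hD a ha) (by omega)
  have hD1 : (1 : ℝ) ≤ D := by exact_mod_cast hD0
  have hD2 : (D : ℝ) ≤ 12 * A := by
    exact_mod_cast (Nat.le_of_dvd (by omega) (hD a ha)).trans (by omega : 6 * a ≤ 12 * A)
  obtain ⟨B, hB⟩ : ∃ B : ℝ, B = 12 * A / D := ⟨_, rfl⟩
  have hB1 : 1 ≤ B := by rwa [hB, one_le_div (by positivity)]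
  have hSB : (#S : ℝ) ≤ B := by
    refine le_trans (Nat.cast_le.2 (card_le_card fun x hx => ?_))
      ((card_mult D (2 * A)).trans (le_of_eq (by rw [hB]; push_cast; ring)))
    have := mem_Ioc.1 (hS hx)
    exact mem_filter.2 ⟨mem_Icc.2 ⟨by omega, this.2⟩, hD x hx⟩
  set H0 := (Icc 1 A).filter fun x => D ∣ 6 * x with hH0
  set H : Finset ℤ := insert 0 (H0.image (fun x : ℕ => (x : ℤ)) ∪ H0.image fun x : ℕ => -(x : ℤ))
    with hH
  have hH1 : (#H : ℝ) ≤ 2 * B := by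
    have h1 : #H ≤ #H0 + #H0 + 1 := (card_insert_le _ _).trans (Nat.succ_le_succ
      ((card_union_le _ _).trans (add_le_add card_image_le card_image_le)))
    have h2 : (#H : ℝ) ≤ #H0 + #H0 + 1 := by exact_mod_cast h1
    have h3 := card_mult D A
    have : B = 6 * A / D + 6 * A / D := by rw [hB]; ring
    linarith
  have hH2 : ∀ x ∈ S, ∀ y ∈ S, (x : ℤ) - y ∈ H := fun x hx y hy => by
    have h1 := mem_Ioc.1 (hS hx)
    have h2 := mem_Ioc.1 (hS hy)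
    simp only [hH, hH0, mem_insert, mem_union, mem_image, mem_filter, mem_Icc]
    rcases lt_trichotomy x y with h | h | h
    · exact Or.inr (Or.inr ⟨y - x, ⟨by omega, by
        rw [Nat.mul_sub]; exact Nat.dvd_sub (hD y hy) (hD x hx)⟩, by omega⟩)
    · exact Or.inl (by omega)
    · exact Or.inr (Or.inl ⟨x - y, ⟨by omega, by
        rw [Nat.mul_sub]; exact Nat.dvd_sub (hD x hx) (hD y hy)⟩, by omega⟩)
  set c : ℕ × ℕ → ℕ := fun t => t.1 ^ 3 + t.2 ^ 3 with hc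
  have hc1 : ∀ t ∈ S ×ˢ S, 1 ≤ c t ∧ c t ≤ 16 * A ^ 3 := fun t ht => by
    have h1 := mem_Ioc.1 (hS (mem_product.1 ht).1)
    have h2 := mem_Ioc.1 (hS (mem_product.1 ht).2)
    have h3 := Nat.pow_le_pow_left h1.2 3
    have h4 := Nat.pow_le_pow_left h2.2 3
    have h5 : 0 < t.1 ^ 3 := pow_pos (by omega) 3
    rw [mul_pow] at h3 h4
    simp only [hc]
    omega
  have hc2 : ∀ m : ℤ, (#((S ×ˢ S).filter fun t => m = c t) : ℝ) ≤ 2 * E := fun m => by
    rcases ((S ×ˢ S).filter fun t => m = c t).eq_empty_or_nonempty with h | ⟨t, ht⟩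
    · rw [h]; simp; linarith
    obtain ⟨h1, rfl⟩ := mem_filter.1 ht
    obtain ⟨h2, h3⟩ := hc1 t h1
    refine le_trans (Nat.cast_le.2 ((card_le_card fun u hu => ?_).trans
      (card_two_cubes (P := A) (m := c t) (by omega)))) (by push_cast; gcongr; exact hE _ h2 h3)
    obtain ⟨h4, h5⟩ := mem_filter.1 hu
    exact mem_filter.2 ⟨product_subset_product hS hS h4, by exact_mod_cast h5.symm⟩
  have h1 := fiber_cs ((S ×ˢ S) ×ˢ H) ((S ×ˢ S) ×ˢ (S ×ˢ S)) (fun i => (i.2, (c i.1 : ℤ)))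
    (fun w => ((w.2.1 : ℤ) - w.2.2, (c w.1 : ℤ) + w.2.2 ^ 3 - w.2.1 ^ 3)) (R := 2 * E) fun w _ => by
      refine le_trans (Nat.cast_le.2 (card_le_card_of_injOn Prod.fst (fun i hi => ?_)
        fun i hi j hj h => ?_)) (hc2 ((c w.1 : ℤ) + w.2.2 ^ 3 - w.2.1 ^ 3))
      · obtain ⟨h1, h2⟩ := mem_filter.1 (mem_coe.1 hi)
        exact mem_coe.2 (mem_filter.2 ⟨(mem_product.1 h1).1, (Prod.mk.inj h2).2⟩)
      · exact Prod.ext h ((Prod.mk.inj (mem_filter.1 (mem_coe.1 hi)).2).1.symm.trans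
          (Prod.mk.inj (mem_filter.1 (mem_coe.1 hj)).2).1)
  have h2 : J3 S = ∑ i ∈ (S ×ˢ S) ×ˢ H, ∑ w ∈ (S ×ˢ S) ×ˢ (S ×ˢ S),
      if ((w.2.1 : ℤ) - w.2.2, (c w.1 : ℤ) + w.2.2 ^ 3 - w.2.1 ^ 3) = (i.2, (c i.1 : ℤ))
      then (1 : ℝ) else 0 := by
    rw [J3, sum_product_right, sum_product (S ×ˢ S) H]
    refine sum_congr rfl fun t _ => ?_
    rw [sum_comm (s := H), sum_product (S ×ˢ S) (S ×ˢ S)]
    simp only [sum_product_right S (S ×ˢ S)]
    rw [sum_comm]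
    refine sum_congr rfl fun t' _ => ?_
    rw [sum_product]
    refine sum_congr rfl fun x hx => sum_congr rfl fun y hy => ?_
    simp only [Prod.mk.injEq, ite_and, sum_ite_eq, if_pos (hH2 x hx y hy)]
    refine if_congr ?_ rfl rfl
    simp only [c3, hc]
    zify
    omega
  have h3 : ∑ w ∈ (S ×ˢ S) ×ˢ (S ×ˢ S), ∑ w' ∈ (S ×ˢ S) ×ˢ (S ×ˢ S),
      (if ((w'.2.1 : ℤ) - w'.2.2, (c w'.1 : ℤ) + w'.2.2 ^ 3 - w'.2.1 ^ 3) =
        ((w.2.1 : ℤ) - w.2.2, (c w.1 : ℤ) + w.2.2 ^ 3 - w.2.1 ^ 3) then (1 : ℝ) else 0) ≤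
      B ^ 2 * (8 * E ^ 2 * B ^ 2) := by
    have hT : (#(S ×ˢ S) : ℝ) ≤ B ^ 2 := by rw [card_product, sq]; push_cast; gcongr
    rw [sum_product]
    refine (sum_le_card_nsmul _ _ (8 * E ^ 2 * B ^ 2) fun t ht => ?_).trans
      (by rw [nsmul_eq_mul]; gcongr)
    simp only [sum_product (S ×ˢ S) (S ×ˢ S)]
    rw [sum_comm]
    refine (sum_le_sum fun t' ht' => le_trans (le_of_eq (sum_congr rfl fun v _ =>
      sum_congr rfl fun w _ => if_congr ?_ rfl rfl)) (quad_count hE hS (k := (c t : ℤ) - c t') (by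
        have := hc1 t ht
        have := hc1 t' ht'
        omega))).trans ?_
    · simp only [Prod.mk.injEq]
      omega
    rw [sum_add_distrib, sum_const, nsmul_eq_mul, ← sum_filter, sum_const, nsmul_eq_mul]
    simp only [sub_eq_zero]
    calc _ ≤ 2 * E * (2 * B ^ 2) + B ^ 2 * (4 * E ^ 2) := by gcongr; exact hc2 _
      _ ≤ 2 * (E * E) * (2 * B ^ 2) + B ^ 2 * (4 * E ^ 2) := by
          gcongr; exact le_mul_of_one_le_right (by positivity) hE1
      _ = _ := by ring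
  rw [← h2, card_product, card_product] at h1
  refine (pow_le_pow_iff_left₀ (by rw [h2]; positivity) (by positivity) two_ne_zero).1 ?_
  calc _ = (D : ℝ) ^ 6 * J3 S ^ 2 := by ring
    _ ≤ D ^ 7 * (B * B * (2 * B) * (2 * E * (B ^ 2 * (8 * E ^ 2 * B ^ 2)))) := by
        gcongr
        · norm_num
        · refine h1.trans ?_
          push_cast
          gcongr
    _ = 1146617856 * E ^ 3 * V ^ 2 := by rw [hV', hB]; field_simp; ring
    _ ≤ 34000 ^ 2 * E ^ 4 * V ^ 2 := by gcongr <;> norm_num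
    _ = _ := by ring

end Pool.Agent.Lib.MP_786755_nt
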