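import Pool.Agent.Lib.MP_786755_nt.Main

/-! The model that keeps the sum over `a`, and integrals with slow decay. -/

namespace Pool.Agent.Lib.MP_786755_nt

open Finset Pool.Agent.Lib.MP_028aa5_nt MeasureTheory

lemma int_decay1 {N η B : ℝ} (hN : 0 < N) (hη : 0 ≤ η) :
    ∫ β in (-η)..η, B / (1 + N * |β|) = 2 * B / N * Real.log (1 + N * η) := by
  have hc : Continuous fun β : ℝ => B / (1 + N * |β|) :=
    Continuous.div (by fun_prop) (by fun_prop) fun β => by positivity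
  rw [sym_split hc]
  have e1 : ∫ β in (0 : ℝ)..η, (B / (1 + N * |β|) + B / (1 + N * |-β|)) =
      2 * B / N * Real.log (1 + N * η) - 2 * B / N * Real.log (1 + N * 0) := by
    refine intervalIntegral.integral_eq_sub_of_hasDerivAt
      (f := fun β => 2 * B / N * Real.log (1 + N * β)) (fun x hx => ?_)
      ((hc.add (hc.comp continuous_neg)).intervalIntegrable _ _)
    rw [Set.uIcc_of_le hη] at hx
    have h0 : 0 < 1 + N * x := by have := hx.1; positivity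
    refine ((((hasDerivAt_id x).const_mul N).const_add 1).log h0.ne').const_mul _ |>.congr_deriv ?_
    rw [abs_neg, abs_of_nonneg hx.1]
    simp only [id]
    field_simp
    ring
  rw [e1]
  simp

theorem arc_int1 {ι : Type*} (S : Finset ι) (c : ι → ℝ) (Y : ι → ℝ → ℝ)
    (hY : ∀ i, Continuous (Y i)) (hY0 : ∀ i β, 0 ≤ Y i β) {η B N : ℝ} (hN : 0 < N) (hη : 0 ≤ η)
    (hB : ∀ β, |β| ≤ η → ∑ i ∈ S, Y i β ≤ B / (1 + N * |β|)) (a : ℝ) :
    ∃ W : ℝ → ℝ, IntervalIntegrable W volume a (a + 1) ∧ (∀ α, 0 ≤ W α) ∧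
      (∀ i ∈ S, ∀ β, |β| ≤ η → Y i β ≤ W (c i + β)) ∧
      ∫ α in a..a + 1, W α ≤ 2 * B / N * Real.log (1 + N * η) := by
  set G : ι → ℝ → ℝ := fun i => (Set.Icc (-η) η).indicator (Y i) with hG
  have hG0 : ∀ i β, 0 ≤ G i β := fun i β => Set.indicator_nonneg (fun _ _ => hY0 _ _) _
  have hG1 : ∀ i, Integrable (G i) := fun i =>
    ((hY i).continuousOn.integrableOn_Icc).integrable_indicator measurableSet_Icc
  have hW : Integrable fun α => ∑ i ∈ S, G i (α - c i) :=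
    integrable_finsetSum _ fun i _ => (hG1 i).comp_sub_right _
  have hW0 : ∀ α, 0 ≤ ∑ i ∈ S, G i (α - c i) := fun α => sum_nonneg fun i _ => hG0 _ _
  refine ⟨_, hW.intervalIntegrable, hW0, fun i hi α h => ?_, ?_⟩
  · refine le_trans ?_ (single_le_sum (f := fun j => G j (c i + α - c j)) (fun i _ => hG0 _ _) hi)
    simp only [hG, add_sub_cancel_left]
    rw [Set.indicator_of_mem (Set.mem_Icc.2 (abs_le.1 h))]
  rw [intervalIntegral.integral_of_le (by linarith)]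
  refine (setIntegral_le_integral hW (ae_of_all _ hW0)).trans ?_
  rw [integral_finsetSum _ fun i _ => (hG1 i).comp_sub_right _]
  simp only [integral_sub_right_eq_self, hG, integral_indicator measurableSet_Icc,
    integral_Icc_eq_integral_Ioc, ← intervalIntegral.integral_of_le (by linarith : -η ≤ η)]
  rw [← intervalIntegral.integral_finsetSum fun i _ => (hY i).intervalIntegrable _ _]
  refine le_trans (intervalIntegral.integral_mono_on (by linarith)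
    (Continuous.intervalIntegrable (by fun_prop) _ _) (Continuous.intervalIntegrable
      (Continuous.div (by fun_prop) (by fun_prop) fun β => by positivity) _ _)
    fun β hβ => hB β (abs_le.2 hβ)) (int_decay1 hN hη).le

/-- the model near `r / q` -/
noncomputable def M1 (A U P q : ℕ) (r : ℤ) (β : ℝ) : ℂ :=
  (∑ a ∈ Ioc A (2 * A), psi q r a * (Fq U a β * e (β * (2 * a ^ 3)))) * (s3 q r 1 * gc P β ^ 2)

/-- the error of the model near `r / q` -/
noncomputable def Low2 (A U P Q : ℕ) (δ : ℝ) (q : ℕ) (r : ℤ) (β : ℝ) : ℂ :=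
  Hs A U P q r β * s3 q r 1 * gc P β - if q ≤ Q then tent δ β * M1 A U P q r β else 0

/-- the model -/
noncomputable def MM2 (A U P Q : ℕ) (δ α : ℝ) : ℂ :=
  ∑ q ∈ Icc 1 Q, ∑ r ∈ (Icc 1 q).filter fun r => r.Coprime q,
    tent δ (α - r / q) * M1 A U P q r (α - r / q)

@[fun_prop] lemma continuous_M1 (A U P q : ℕ) (r : ℤ) : Continuous (M1 A U P q r) := by
  unfold M1; fun_prop

@[fun_prop] lemma continuous_Low2 (A U P Q : ℕ) (δ : ℝ) (q : ℕ) (r : ℤ) :
    Continuous (Low2 A U P Q δ q r) := by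
  unfold Low2
  split_ifs <;> fun_prop

@[fun_prop] lemma continuous_MM2 (A U P Q : ℕ) (δ : ℝ) : Continuous (MM2 A U P Q δ) := by
  unfold MM2; fun_prop

lemma MM2_eq {A U P Q q r : ℕ} {δ α : ℝ} (hδ : 0 < δ) (hq : 1 ≤ q) (hr : r.Coprime q)
    (h1 : q ≤ Q → δ ≤ |α - r / q| ∨ r ∈ (Icc 1 q).filter fun r => r.Coprime q)
    (h2 : (|α - r / q| + δ) * (q * Q) ≤ 1) : MM2 A U P Q δ α =
      if q ≤ Q then tent δ (α - r / q) * M1 A U P q r (α - r / q) else 0 := by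
  have key : ∀ q' ∈ Icc 1 Q, ∀ r' ∈ (Icc 1 q').filter fun r => r.Coprime q', ¬(q' = q ∧ r' = r) →
      (tent δ (α - r' / q') : ℂ) * M1 A U P q' r' (α - r' / q') = 0 := by
    intro q' hq' r' hr' hne
    obtain ⟨h3, h4⟩ := mem_Icc.1 hq'
    rw [tent_eq_zero hδ (not_lt.1 fun h => hne
      (frac_unique hq h3 hr (mem_filter.1 hr').2 (lt_of_lt_of_le ?_ h2)))]
    · simp
    have h5 : |(r : ℝ) / q - r' / q'| < |α - r / q| + δ := by
      have := abs_sub_le ((r : ℝ) / q) α (r' / q')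
      rw [abs_sub_comm _ α] at this
      linarith
    have h6 : (0 : ℝ) < q' := by exact_mod_cast h3
    have h7 : (0 : ℝ) < q := by exact_mod_cast hq
    calc _ < (|α - r / q| + δ) * (q * q') := by gcongr
      _ ≤ _ := by gcongr
  unfold MM2
  split_ifs with h
  · rw [sum_eq_single_of_mem q (mem_Icc.2 ⟨hq, h⟩) fun q' hq' hne =>
      sum_eq_zero fun r' hr' => key q' hq' r' hr' fun h => hne h.1]
    refine sum_eq_single r (fun r' hr' hne => key q (mem_Icc.2 ⟨hq, h⟩) r' hr' fun h => hne h.2)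
      fun h3 => ?_
    simp [tent_eq_zero hδ ((h1 h).resolve_right h3)]
  · exact sum_eq_zero fun q' hq' => sum_eq_zero fun r' hr' =>
      key q' hq' r' hr' fun h' => h (h'.1 ▸ (mem_Icc.1 hq').2)

theorem low2_bound {A U P Q Q' M : ℕ} {β E δ : ℝ} (hδ : 0 < δ) (hA : 1 ≤ A) (hU : 1 ≤ U)
    (hP : 1 ≤ P) (hN : A * U ^ 2 = P ^ 3) (hQ : 2 * A ≤ Q)
    (hE : ∀ m, 1 ≤ m → m ≤ M → (#m.divisors : ℝ) ≤ E) (hL : 1 + Real.log Q' ≤ E) (hE1 : 1 ≤ E)
    (hQ' : Q' ≤ M) (hAM : 12 * A ≤ M) (hβ : |β| * (216 * A * U) ≤ 1)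
    (hβ' : |β| * (38 * P ^ 2) ≤ 1) :
    ∑ q ∈ Icc 1 Q', ∑ r ∈ Rq q, ‖Low2 A U P Q δ q r β‖ ^ 2 ≤
      10 ^ 10 * E ^ 24 * ((A * U * P * Q') ^ 2 + (U * P ^ 2) ^ 2 *
        (A / Q + (A / (P ^ 3 * δ)) ^ 2)) / (1 + P ^ 3 * |β|) ^ 2 := by
  have hP0 : (0 : ℝ) < P := by exact_mod_cast hP
  have hA0 : (1 : ℝ) ≤ A := by exact_mod_cast hA
  have hQ0 : (0 : ℝ) < Q := by exact_mod_cast (by omega : 0 < Q)
  have hN' : (A * U ^ 2 : ℝ) = P ^ 3 := by exact_mod_cast hN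
  set x := (P : ℝ) ^ 3 * |β| with hx
  have hx0 : 0 ≤ x := by positivity
  set c₁ := 6 * 10 ^ 9 * E ^ 16 * (A * U * P * Q') ^ 2 / (1 + x) ^ 2 with hc₁
  set c₂ := 10 ^ 6 * E ^ 22 * ((U * P ^ 2) ^ 2 * (A / Q + (A / (P ^ 3 * δ)) ^ 2)) / (1 + x) ^ 2
    with hc₂
  have h1 : ∀ q ∈ Icc 1 Q', ∑ r ∈ Rq q, ‖Low2 A U P Q δ q r β‖ ^ 2 ≤
      (c₁ + c₂) * ((tq q : ℝ) ^ 2 / q) := by
    intro q hq
    obtain ⟨hq1, hq2⟩ := mem_Icc.1 hq
    have hq0 : (1 : ℝ) ≤ q := by exact_mod_cast hq1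
    have hq3 : (q : ℝ) ≤ Q' := by exact_mod_cast hq2
    have hEq := hE q hq1 (hq2.trans hQ')
    have ht : (1 : ℝ) ≤ tq q := by exact_mod_cast (tq_spec (by omega : q ≠ 0)).1
    set B : ℕ → ℂ := fun r => ∑ a ∈ Ioc A (2 * A), psi q r a * (Fq U a β * e (β * (2 * a ^ 3)))
      with hB
    obtain ⟨w, hw⟩ : ∃ w : ℝ, w = if q ≤ Q then 1 - tent δ β else 1 := ⟨_, rfl⟩
    have e1 : ∀ r ∈ Rq q, ‖Low2 A U P Q δ q r β‖ ^ 2 ≤
        3 * (10 ^ 9 * E ^ 16 * (A * U * P) ^ 2 * tq q / (1 + x) ^ 2 +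
          ‖B r‖ ^ 2 * (w ^ 2 * (E ^ 7 * tq q / q * ((2 * P / (1 + x)) ^ 2) ^ 2))) := by
      intro r hr
      have e2 : Low2 A U P Q δ q r β = (∑ a ∈ Ioc A (2 * A), s2 q (6 * a * r) * Fq U a β *
          e (((r : ℤ) / q + β) * (2 * a ^ 3)) *
          (ga P a ((r : ℤ) / q + β) - s3 q r (6 * a) * gc P β)) * s3 q r 1 * gc P β +
          B r * (w * (s3 q r 1 * gc P β ^ 2)) + 0 := by
        have e4 : Hs A U P q r β = ∑ a ∈ Ioc A (2 * A), s2 q (6 * a * r) * Fq U a β *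
            e (((r : ℤ) / q + β) * (2 * a ^ 3)) *
            (ga P a ((r : ℤ) / q + β) - s3 q r (6 * a) * gc P β) + B r * gc P β := by
          rw [Hs, sum_mul, ← sum_add_distrib]
          refine sum_congr rfl fun a _ => ?_
          have := e_add_div q r (2 * a ^ 3) β
          rw [show ((2 * (a : ℤ) ^ 3 : ℤ) : ℝ) = 2 * a ^ 3 by push_cast; ring] at this
          rw [this, psi]
          ring
        rw [Low2, e4, hw, M1]
        split_ifs <;> push_cast <;> ring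
      rw [e2]
      refine (sq_three _ _ _).trans (mul_le_mul_of_nonneg_left ?_ (by norm_num))
      rw [norm_zero, sq 0, mul_zero, add_zero]
      refine add_le_add (T2_le hA hU hP hN hq1 hEq (fun a ha => ?_) hβ hβ' (Rq_cop hr)) ?_
      · have := mem_Ioc.1 ha
        exact hE _ (by omega) (by omega)
      · rw [norm_mul, norm_mul, norm_mul, norm_pow, mul_pow, mul_pow, mul_pow, Complex.norm_real,
          Real.norm_eq_abs, sq_abs]
        gcongr
        · exact s3_one_sq hq1 hEq (Rq_cop hr)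
        · exact gc_decay hP hβ'
    refine (sum_le_sum e1).trans ?_
    rw [← mul_sum, sum_add_distrib, ← sum_mul, sum_const, nsmul_eq_mul, mul_add, add_mul]
    have e2 := card_Rq q
    refine add_le_add ?_ ?_
    · calc _ ≤ 3 * (2 * q * (10 ^ 9 * E ^ 16 * (A * U * P) ^ 2 * tq q / (1 + x) ^ 2)) := by gcongr
        _ = 6 * 10 ^ 9 * E ^ 16 * (A * U * P * q) ^ 2 / (1 + x) ^ 2 * (tq q * 1 / q) := by
          field_simp; ring
        _ ≤ _ := by rw [hc₁, sq (tq q : ℝ)]; gcongr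
    have e3 := psi_ms (Y := 2 * A) hq1 hEq (Ioc A (2 * A)) (fun a ha => by
      have := mem_Ioc.1 ha
      exact mem_Icc.2 ⟨by omega, this.2⟩) (fun a => Fq U a β * e (β * (2 * a ^ 3))) (g := 3 * U)
      fun a _ => by simpa using norm_Fq_le U a β
    have e4 : (w / (1 + x)) ^ 2 * (A / q * (2 * A / q + 1)) ≤
        3 * (A / Q + (A / (P ^ 3 * δ)) ^ 2) := by
      rw [hw]
      split_ifs with h
      · have e5 : |(1 - tent δ β) / (1 + x)| ≤ 1 / (P ^ 3 * δ) := by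
          rw [abs_div, abs_of_pos (by positivity : 0 < 1 + x), div_le_iff₀ (by positivity)]
          calc _ ≤ _ := one_sub_tent hδ β
            _ = 1 / (P ^ 3 * δ) * x := by rw [hx]; field_simp
            _ ≤ _ := by gcongr; linarith
        rw [← sq_abs]
        calc _ ≤ (1 / (P ^ 3 * δ)) ^ 2 * (A / 1 * (2 * A / 1 + A)) := by gcongr
          _ = 3 * (0 + (A / (P ^ 3 * δ)) ^ 2) := by ring
          _ ≤ _ := by gcongr; positivity
      · have e5 : (Q : ℝ) ≤ q := by exact_mod_cast (not_le.1 h).le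
        have e6 : 2 * (A : ℝ) / q ≤ 1 := by
          rw [div_le_one (by positivity)]; exact le_trans (by exact_mod_cast hQ) e5
        calc _ ≤ (1 / 1) ^ 2 * (A / Q * (1 + 2 : ℝ)) := by gcongr <;> linarith
          _ = 3 * (A / Q + 0) := by ring
          _ ≤ _ := by gcongr; positivity
    calc _ ≤ 3 * (24 * E ^ 15 * (tq q / q) * (3 * U) ^ 2 * ((2 * A : ℕ) * ((2 * A : ℕ) / q + 1)) *
          (w ^ 2 * (E ^ 7 * tq q / q * ((2 * P / (1 + x)) ^ 2) ^ 2))) := by gcongr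
      _ = 20736 * E ^ 22 * ((U * P ^ 2) ^ 2 * ((w / (1 + x)) ^ 2 * (A / q * (2 * A / q + 1)))) /
          (1 + x) ^ 2 * (tq q ^ 2 / q) := by push_cast; field_simp; ring
      _ ≤ 20736 * E ^ 22 * ((U * P ^ 2) ^ 2 * (3 * (A / Q + (A / (P ^ 3 * δ)) ^ 2))) /
          (1 + x) ^ 2 * (tq q ^ 2 / q) := by gcongr
      _ = 62208 * E ^ 22 * ((U * P ^ 2) ^ 2 * (A / Q + (A / (P ^ 3 * δ)) ^ 2)) /
          (1 + x) ^ 2 * (tq q ^ 2 / q) := by ring
      _ ≤ _ := by rw [hc₂]; gcongr; norm_num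
  refine (sum_le_sum h1).trans ?_
  rw [← mul_sum]
  have h3 : ∑ q ∈ Icc 1 Q', (tq q : ℝ) ^ 2 / q ≤ E ^ 2 := (sum_tq_le Q').trans (by
    have := Real.log_natCast_nonneg Q'
    gcongr)
  calc _ ≤ (c₁ + c₂) * E ^ 2 := by gcongr
    _ = (6 * 10 ^ 9 * E ^ 18 * (A * U * P * Q') ^ 2 + 10 ^ 6 * E ^ 24 * ((U * P ^ 2) ^ 2 *
        (A / Q + (A / (P ^ 3 * δ)) ^ 2))) / (1 + x) ^ 2 := by
      rw [hc₁, hc₂]; ring
    _ ≤ _ := by
      rw [mul_add (10 ^ 10 * E ^ 24)]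
      gcongr <;> norm_num

end Pool.Agent.Lib.MP_786755_nt
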