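import Pool.Agent.Lib.MP_786755_nt.W.Six

/-! The mean value over all fractions of the weighted sixth powers. -/

namespace Pool.Agent.Lib.MP_786755_nt

open Finset Pool.Agent.Lib.MP_028aa5_nt

/-- the value attached to three values of `a` and one value of `z` -/
def m4 (i : (ℕ × ℕ × ℕ) × ℕ) : ℕ := 2 * c3 i.1 + i.2 ^ 3

/-- the index set -/
def I4 (A P : ℕ) : Finset ((ℕ × ℕ × ℕ) × ℕ) :=
  (Ioc A (2 * A) ×ˢ Ioc A (2 * A) ×ˢ Ioc A (2 * A)) ×ˢ Ioc P (2 * P)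

/-- the product of three common divisors -/
def G4 (i j : (ℕ × ℕ × ℕ) × ℕ) : ℝ :=
  Nat.gcd j.1.1 i.1.1 * (Nat.gcd j.1.2.1 i.1.2.1 * Nat.gcd j.1.2.2 i.1.2.2)

/-- the terms off the diagonal -/
noncomputable def off (q : ℕ) (i j : (ℕ × ℕ × ℕ) × ℕ) : ℝ :=
  if m4 i ≠ m4 j ∧ (q : ℤ) ∣ (m4 i : ℤ) - m4 j then G4 i j else 0

lemma off_nonneg (q : ℕ) (i j : (ℕ × ℕ × ℕ) × ℕ) : 0 ≤ off q i j := by
  unfold off G4; positivity

lemma c3_le {A : ℕ} {i : ℕ × ℕ × ℕ} (hi : i ∈ Ioc A (2 * A) ×ˢ Ioc A (2 * A) ×ˢ Ioc A (2 * A)) :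
    c3 i ≤ 24 * A ^ 3 := by
  simp only [mem_product, mem_Ioc] at hi
  have h1 := Nat.pow_le_pow_left hi.1.2 3
  have h2 := Nat.pow_le_pow_left hi.2.1.2 3
  have h3 := Nat.pow_le_pow_left hi.2.2.2 3
  rw [mul_pow] at h1 h2 h3
  unfold c3
  omega

lemma m4_inj {A P : ℕ} (h : 16 * A ^ 3 ≤ P ^ 2) {i j : (ℕ × ℕ × ℕ) × ℕ} (hi : i ∈ I4 A P)
    (hj : j ∈ I4 A P) (hm : m4 i = m4 j) : c3 i.1 = c3 j.1 ∧ i.2 = j.2 := by
  have key : ∀ i ∈ I4 A P, ∀ j, m4 i = m4 j → j.2 ≤ i.2 := fun i hi j hm => by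
    by_contra h4
    have h1 := c3_le (mem_product.1 hi).1
    have h5 : (i.2 + 1) ^ 3 ≤ j.2 ^ 3 := Nat.pow_le_pow_left (by omega) 3
    have h7 : P ^ 2 ≤ i.2 ^ 2 := Nat.pow_le_pow_left (mem_Ioc.1 (mem_product.1 hi).2).1.le 2
    rw [show (i.2 + 1) ^ 3 = i.2 ^ 3 + 3 * i.2 ^ 2 + 3 * i.2 + 1 by ring] at h5
    unfold m4 at hm
    omega
  have h1 : i.2 = j.2 := le_antisymm (key j hj i hm.symm) (key i hi j hm)
  unfold m4 at hm
  rw [h1] at hm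
  exact ⟨by omega, h1⟩

section
variable {A U P q : ℕ} {E θ β V : ℝ}

lemma class_ms (hq : q ≠ 0) (hE : ∀ m, 1 ≤ m → m ≤ 16 * A ^ 3 → (#m.divisors : ℝ) ≤ E)
    (hE' : ∀ a ∈ Ioc A (2 * A), (#(6 * a).divisors : ℝ) ≤ E) (hE1 : 1 ≤ E)
    (hAP : 16 * A ^ 3 ≤ P ^ 2) (hθ : ∀ a ∈ Ioc A (2 * A), ‖Fq U a β‖ ≤ θ) (hθ0 : 0 ≤ θ)
    (hV : 0 ≤ V) (hV' : V ^ 2 = A ^ 7) {k : ℕ × ℕ × ℕ} (hk : k ∈ Kq A q) :
    ∑ r ∈ Rq q, ((k.1 : ℝ) / Nat.gcd k.1 q) ^ 3 *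
      ‖Ad A U q r β k ^ 3 * gd P k.1 ((r : ℤ) / q + β)‖ ^ 2 ≤
      3456 * (θ * E) ^ 6 / q ^ 2 * (68000 * E ^ 2 * V * P * (1 / k.1) +
        216 * ∑ i ∈ I4 A P, if i.1.1 ∈ cl A q k then ∑ j ∈ I4 A P, off q i j else 0) := by
  have hq0 : (0 : ℝ) < q := by positivity
  have hoff : ∀ i, 0 ≤ ∑ j ∈ I4 A P, off q i j := fun i => sum_nonneg fun j _ => off_nonneg _ _ _
  have hoff' : 0 ≤ ∑ i ∈ I4 A P, if i.1.1 ∈ cl A q k then ∑ j ∈ I4 A P, off q i j else 0 :=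
    sum_nonneg fun i _ => by split_ifs; exacts [hoff i, le_rfl]
  set S := cl A q k with hS
  have hS1 : S ⊆ Ioc A (2 * A) := filter_subset _ _
  rcases S.eq_empty_or_nonempty with h | ⟨a₀, ha₀⟩
  · simp only [Ad, ← hS, h, sum_empty, zero_pow three_ne_zero, zero_mul, norm_zero,
      zero_pow two_ne_zero, mul_zero, sum_const_zero]
    rw [h] at hoff'
    positivity
  obtain ⟨h1, h2⟩ := mem_filter.1 (mem_product.1 hk).1
  have hrel : ∀ a ∈ S, Rel q a₀ a := fun a ha => (lb_spec hq).2.2 _ _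
    ((mem_filter.1 ha₀).2.2.trans (mem_filter.1 ha).2.2.symm)
  obtain ⟨d, hd⟩ := Nat.gcd_dvd_left k.1 q
  have hg := Nat.gcd_pos_of_pos_right k.1 (Nat.pos_of_ne_zero hq)
  have hd1 : (k.1 : ℝ) / Nat.gcd k.1 q = d := by
    rw [div_eq_iff (by positivity), mul_comm]
    exact_mod_cast hd
  have hD : ∀ a ∈ S, d * Nat.gcd a₀ q ∣ 6 * a := fun a ha => by
    refine Nat.Coprime.mul_dvd_of_dvd_of_dvd (Nat.Coprime.coprime_dvd_right
      (Nat.gcd_dvd_right a₀ q) ?_) ((Dvd.intro_left _ hd.symm).trans (mem_filter.1 ha).2.1)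
      ((hrel a ha).gcd_dvd.mul_left 6)
    refine Nat.coprime_of_dvd fun p hp h3 h4 => hp.not_isUnit (h2 p ?_)
    rw [hd]
    exact mul_dvd_mul (Nat.dvd_gcd (h3.trans (Dvd.intro_left _ hd.symm)) h4) h3
  set Z := (Ioc P (2 * P)).filter (k.1 ∣ ·) with hZ
  set I := (S ×ˢ S ×ˢ S) ×ˢ Z with hI
  have hI1 : I ⊆ I4 A P := product_subset_product
    (product_subset_product hS1 (product_subset_product hS1 hS1)) (filter_subset _ _)
  set u : ℕ → ℂ := fun a => Fq U a β * wt a 1 with hu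
  have hu1 : ∀ a ∈ S, ‖u a‖ ≤ θ * E := fun a ha => by
    have := mem_Ioc.1 (hS1 ha)
    simp only [hu, norm_mul, Complex.norm_real, Real.norm_of_nonneg (wt_nonneg _ _)]
    exact mul_le_mul (hθ a (hS1 ha)) (wt_le (by omega) (hE' a (hS1 ha)) _) (wt_nonneg _ _) hθ0
  set γ : (ℕ × ℕ × ℕ) × ℕ → ℂ := fun i => u i.1.1 * (u i.1.2.1 * u i.1.2.2) * e (β * (m4 i : ℤ))
    with hγ
  have hγ1 : ∀ i ∈ I, ‖γ i‖ ≤ (θ * E) ^ 3 := fun i hi => by
    simp only [hI, mem_product] at hi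
    simp only [hγ, norm_mul (u _ * _), norm_mul (u _), norm_e, mul_one, pow_succ' (θ * E), pow_zero]
    have := hu1 _ hi.1.1
    have := hu1 _ hi.1.2.1
    have := hu1 _ hi.1.2.2
    gcongr
  have e1 : ∀ r : ℤ, Ad A U q r β k ^ 3 * gd P k.1 (r / q + β) =
      s2 q (6 * a₀ * r) ^ 3 * ∑ i ∈ I, γ i * ec q (r * (m4 i : ℤ)) := fun r => by
    have e2 : Ad A U q r β k =
        s2 q (6 * a₀ * r) * ∑ a ∈ S, u a * e ((r / q + β) * (2 * a ^ 3)) := by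
      rw [Ad, mul_sum]
      refine sum_congr rfl fun a ha => ?_
      rw [(hrel a ha).s2_eq]
      ring
    rw [e2, mul_pow, mul_assoc, gd, pow_three (∑ a ∈ S, _), sum_mul_sum, ← sum_product', sum_mul_sum,
      ← sum_product', sum_mul_sum, ← sum_product']
    refine congrArg _ (sum_congr rfl fun i _ => ?_)
    have := e_add_div q r (m4 i : ℤ) β
    rw [show ((r : ℝ) / q + β) * ((m4 i : ℤ) : ℝ) = (r / q + β) * (2 * i.1.1 ^ 3) +
      ((r / q + β) * (2 * i.1.2.1 ^ 3) + (r / q + β) * (2 * i.1.2.2 ^ 3)) + (r / q + β) * i.2 ^ 3 by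
        simp only [m4, c3]; push_cast; ring, e_add, e_add, e_add] at this
    simp only [hγ]
    linear_combination u i.1.1 * (u i.1.2.1 * u i.1.2.2) * this
  obtain ⟨D, hD'⟩ : ∃ D, D = d * Nat.gcd a₀ q := ⟨_, rfl⟩
  have e2 : ∀ r ∈ Rq q, ((k.1 : ℝ) / Nat.gcd k.1 q) ^ 3 *
      ‖Ad A U q r β k ^ 3 * gd P k.1 ((r : ℤ) / q + β)‖ ^ 2 ≤
      1728 * D ^ 3 / q ^ 3 * ‖∑ i ∈ I, γ i * ec q (r * (m4 i : ℤ))‖ ^ 2 := fun r hr => by
    have e3 : ‖s2 q (6 * a₀ * r)‖ ^ 2 ≤ 12 * Nat.gcd a₀ q / q := by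
      refine (norm_s2_sq_le (by omega) _).trans ?_
      gcongr
      exact_mod_cast gcd_twelve_le (by omega) (Rq_cop hr) a₀
    rw [e1, hd1, norm_mul, norm_pow, mul_pow, pow_right_comm, ← mul_assoc]
    gcongr
    calc _ ≤ (d : ℝ) ^ 3 * (12 * Nat.gcd a₀ q / q) ^ 3 := by gcongr
      _ = _ := by rw [hD']; push_cast; ring
  rw [← hD'] at hD
  have e3 : ∀ i ∈ I, ∀ j ∈ I, (D : ℝ) ^ 3 * (if (q : ℤ) ∣ (m4 i : ℤ) - m4 j then ‖γ i‖ * ‖γ j‖
      else 0) ≤ (θ * E) ^ 6 * (D ^ 3 * (if c3 i.1 = c3 j.1 then 1 else 0) *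
        (if i.2 = j.2 then 1 else 0) + 216 * off q i j) := by
    intro i hi j hj
    have e4 := off_nonneg q i j
    by_cases h : (q : ℤ) ∣ (m4 i : ℤ) - m4 j
    swap
    · rw [if_neg h, mul_zero]; positivity
    have e5 : ‖γ i‖ * ‖γ j‖ ≤ (θ * E) ^ 6 :=
      (mul_le_mul (hγ1 i hi) (hγ1 j hj) (norm_nonneg _) (by positivity)).trans (le_of_eq (by ring))
    rw [if_pos h, mul_comm]
    refine mul_le_mul e5 ?_ (by positivity) (by positivity)
    by_cases h' : m4 i = m4 j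
    · obtain ⟨e6, e7⟩ := m4_inj hAP (hI1 hi) (hI1 hj) h'
      rw [if_pos e6, if_pos e7]
      linarith
    have e6 : ∀ a ∈ S, ∀ b ∈ S, (D : ℝ) ≤ 6 * Nat.gcd a b := fun a ha b hb => by
      have := mem_Ioc.1 (hS1 ha)
      have := Nat.le_of_dvd (Nat.gcd_pos_of_pos_left _ (by omega)) (Nat.dvd_gcd (hD a ha) (hD b hb))
      rw [Nat.gcd_mul_left] at this
      exact_mod_cast this
    simp only [hI, mem_product] at hi hj
    rw [off, if_pos (And.intro h' h), G4]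
    refine le_add_of_nonneg_of_le (by positivity) ?_
    calc _ = (D : ℝ) * (D * D) := by ring
      _ ≤ 6 * Nat.gcd j.1.1 i.1.1 * (6 * Nat.gcd j.1.2.1 i.1.2.1 * (6 * Nat.gcd j.1.2.2 i.1.2.2)) := by
        gcongr
        exacts [e6 _ hj.1.1 _ hi.1.1, e6 _ hj.1.2.1 _ hi.1.2.1, e6 _ hj.1.2.2 _ hi.1.2.2]
      _ = _ := by ring
  have e4 := sum_le_sum fun i hi => sum_le_sum (e3 i hi)
  simp only [← mul_sum, sum_add_distrib] at e4
  have e5 : ∑ i ∈ I, ∑ j ∈ I, (D : ℝ) ^ 3 * (if c3 i.1 = c3 j.1 then 1 else 0) *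
      (if i.2 = j.2 then 1 else 0) ≤ 68000 * E ^ 2 * V * P * (1 / k.1) := by
    have e6 : ∑ i ∈ I, ∑ j ∈ I, (D : ℝ) ^ 3 * (if c3 i.1 = c3 j.1 then 1 else 0) *
        (if i.2 = j.2 then 1 else 0) = #Z * (D ^ 3 * J3 S) := by
      rw [hI, sum_product_right, ← nsmul_eq_mul, ← sum_const]
      refine sum_congr rfl fun z hz => ?_
      simp only [sum_product (S ×ˢ S ×ˢ S) Z, mul_ite _ _ (1 : ℝ), mul_one, mul_zero, sum_ite_eq,
        if_pos hz, J3, mul_sum]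
    rw [e6]
    calc _ ≤ 2 * P * (1 / k.1) * (34000 * E ^ 2 * V) :=
          mul_le_mul (card_gd P k.1) (hua hE hE1 hS1 hD hV hV') (by unfold J3; positivity)
            (by positivity)
      _ = _ := by ring
  have e6 : ∑ i ∈ I, ∑ j ∈ I, off q i j ≤
      ∑ i ∈ I4 A P, if i.1.1 ∈ S then ∑ j ∈ I4 A P, off q i j else 0 := by
    rw [← sum_filter]
    refine (sum_le_sum fun i _ => sum_le_sum_of_subset_of_nonneg hI1
      fun _ _ _ => off_nonneg _ _ _).trans (sum_le_sum_of_subset_of_nonneg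
        (fun i hi => mem_filter.2 ⟨hI1 hi, (mem_product.1 (mem_product.1 hi).1).1⟩)
        fun i _ _ => hoff i)
  refine (sum_le_sum e2).trans ?_
  rw [← mul_sum]
  refine (mul_le_mul_of_nonneg_left (orth_le2 (by omega) I γ fun i => m4 i) (by positivity)).trans ?_
  calc _ = 3456 / (q : ℝ) ^ 2 * (D ^ 3 * ∑ i ∈ I, ∑ j ∈ I,
        if (q : ℤ) ∣ (m4 i : ℤ) - m4 j then ‖γ i‖ * ‖γ j‖ else 0) := by field_simp; ring
    _ ≤ 3456 / (q : ℝ) ^ 2 * ((θ * E) ^ 6 * (68000 * E ^ 2 * V * P * (1 / k.1) +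
        216 * ∑ i ∈ I4 A P, if i.1.1 ∈ S then ∑ j ∈ I4 A P, off q i j else 0)) := by
      gcongr ?_ * ?_
      exact e4.trans (by gcongr)
    _ = _ := by ring

theorem six_bound {Q M : ℕ} {y : ℝ} (hy : 0 ≤ y)
    (hE : ∀ m, 1 ≤ m → m ≤ M → (#m.divisors : ℝ) ≤ E) (hE1 : 1 ≤ E)
    (hL : ∀ m : ℕ, 1 ≤ m → m ≤ M → 1 + Real.log m ≤ E) (hA : 1 ≤ A) (hQ1 : 1 ≤ Q) (hQ : Q ≤ M)
    (hM : 48 * A ^ 3 + 8 * P ^ 3 ≤ M) (hAP : 16 * A ^ 3 ≤ P ^ 2)
    (hθ : ∀ a ∈ Ioc A (2 * A), ‖Fq U a β‖ ≤ θ) (hθ0 : 0 ≤ θ) (hV : 0 ≤ V) (hV' : V ^ 2 = A ^ 7) :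
    ∑ q ∈ Icc 1 Q, ∑ r ∈ Rq q, min 1 (q * y) * q * Ys A U P q r β ≤
      10 ^ 9 * E ^ 13 * θ ^ 6 * (V * P + y * A ^ 6 * P ^ 2) := by
  have hA3 : A ≤ A ^ 3 := Nat.le_self_pow three_ne_zero A
  have hE' : ∀ a ∈ Ioc A (2 * A), (#(6 * a).divisors : ℝ) ≤ E := fun a ha => by
    have := mem_Ioc.1 ha
    exact hE _ (by omega) (by omega)
  set O : ℕ → ℝ := fun q => ∑ i ∈ I4 A P, ∑ j ∈ I4 A P, off q i j with hO
  have hO0 : ∀ q, 0 ≤ O q := fun q => sum_nonneg fun i _ => sum_nonneg fun j _ => off_nonneg _ _ _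
  have h1 : ∀ q ∈ Icc 1 Q, ∑ r ∈ Rq q, min 1 (q * y) * q * Ys A U P q r β ≤
      3456 * (θ * E) ^ 6 * (68000 * E ^ 6 * V * P * (1 / q) + 216 * E * y * O q) := by
    intro q hq
    obtain ⟨hq1, hq2⟩ := mem_Icc.1 hq
    have hq0 : (0 : ℝ) < q := by exact_mod_cast hq1
    have e1 := sum_le_sum fun k (hk : k ∈ Kq A q) => class_ms (P := P) (by omega)
      (fun m h1 h2 => hE m h1 (by omega)) hE' hE1 hAP hθ hθ0 hV hV' hk
    rw [sum_comm, ← mul_sum, sum_add_distrib, ← mul_sum, ← mul_sum, sum_comm (s := Kq A q)] at e1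
    have e2 : ∑ k ∈ Kq A q, (1 / k.1 : ℝ) ≤ E ^ 3 * E := by
      rw [Kq, sum_product_right]
      simp only [sum_const, nsmul_eq_mul]
      exact mul_le_mul (card_Lb (by omega) (hE q hq1 (hq2.trans hQ)))
        ((sum_le_sum_of_subset_of_nonneg (filter_subset _ _) fun _ _ _ => by positivity).trans
          ((sum_inv_le_log _).trans (hL _ (by omega) (by omega)))) (by positivity) (by positivity)
    have e3 : (∑ i ∈ I4 A P, ∑ k ∈ Kq A q,
        if i.1.1 ∈ cl A q k then ∑ j ∈ I4 A P, off q i j else 0) ≤ E * O q := by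
      rw [hO, mul_sum]
      refine sum_le_sum fun i hi => ?_
      have e4 := (mem_product.1 (mem_product.1 hi).1).1
      rw [← sum_filter, sum_const, nsmul_eq_mul]
      refine mul_le_mul_of_nonneg_right (le_trans (Nat.cast_le.2 (card_le_card_of_injOn Prod.fst
        (fun k hk => ?_) fun k hk l hl h => Prod.ext h ?_)) (hE' _ e4))
        (sum_nonneg fun j _ => off_nonneg _ _ _)
      · have := mem_Ioc.1 e4
        exact mem_coe.2 (Nat.mem_divisors.2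
          ⟨(mem_filter.1 (mem_filter.1 (mem_coe.1 hk)).2).2.1, by omega⟩)
      · exact (mem_filter.1 (mem_filter.1 (mem_coe.1 hk)).2).2.2.symm.trans
          (mem_filter.1 (mem_filter.1 (mem_coe.1 hl)).2).2.2
    have e4 := min_le_left 1 (q * y)
    have e5 := min_le_right 1 (q * y)
    have e6 : 0 ≤ min 1 (q * y) := by positivity
    have e7 := hO0 q
    rw [← mul_sum]
    calc _ ≤ min 1 (q * y) * q * (3456 * (θ * E) ^ 6 / q ^ 2 *
          (68000 * E ^ 2 * V * P * (E ^ 3 * E) + 216 * (E * O q))) := by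
          gcongr
          exact e1.trans (by gcongr)
      _ = 3456 * (θ * E) ^ 6 * (68000 * E ^ 6 * V * P * (min 1 (q * y) / q) +
          216 * E * (min 1 (q * y) / q) * O q) := by field_simp
      _ ≤ _ := by
          gcongr
          rwa [div_le_iff₀' hq0]
  have h2 : ∑ q ∈ Icc 1 Q, O q ≤ (A ^ 3 * P) * (E * (P * (2 * A * E) ^ 3)) := by
    have hm : ∀ i ∈ I4 A P, m4 i ≤ M := fun i hi => by
      have e1 := c3_le (mem_product.1 hi).1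
      have e2 := Nat.pow_le_pow_left (mem_Ioc.1 (mem_product.1 hi).2).2 3
      rw [mul_pow] at e2
      unfold m4
      omega
    simp only [hO]
    rw [sum_comm]
    refine (sum_le_card_nsmul _ _ (E * (P * (2 * A * E) ^ 3)) fun i hi => ?_).trans (le_of_eq (by
      simp [I4, show 2 * A - A = A by omega, show 2 * P - P = P by omega, pow_succ, mul_assoc]))
    rw [sum_comm]
    have e1 : ∀ j ∈ I4 A P, ∑ q ∈ Icc 1 Q, off q i j ≤ E * G4 i j := fun j hj => by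
      have : 0 ≤ G4 i j := by unfold G4; positivity
      by_cases h : m4 i = m4 j
      · simp only [off, h, ne_eq, not_true, false_and, if_false, sum_const_zero]
        positivity
      simp only [off, ne_eq, h, not_false_iff, true_and]
      rw [← sum_filter, sum_const, nsmul_eq_mul]
      gcongr
      exact card_dvd_le hE (hm i hi) (hm j hj) h
    refine (sum_le_sum e1).trans ?_
    have e2 : ∀ a ∈ Ioc A (2 * A), ∑ b ∈ Ioc A (2 * A), (Nat.gcd b a : ℝ) ≤ 2 * A * E :=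
      fun a ha => by
        have := mem_Ioc.1 ha
        exact sum_gcd_Ioc (by omega) (hE a (by omega) (by omega))
    simp only [I4, mem_product] at hi
    rw [← mul_sum, I4, sum_product_right]
    simp only [G4, sum_const, Nat.card_Ioc, nsmul_eq_mul, show 2 * P - P = P by omega]
    simp only [sum_product, ← mul_sum, ← sum_mul, pow_three]
    gcongr E * (P * (?_ * (?_ * ?_)))
    exacts [e2 _ hi.1.1, e2 _ hi.1.2.1, e2 _ hi.1.2.2]
  refine (sum_le_sum h1).trans ?_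
  rw [← mul_sum, sum_add_distrib, ← mul_sum, ← mul_sum]
  calc _ ≤ 3456 * (θ * E) ^ 6 * (68000 * E ^ 6 * V * P * E +
        216 * E * y * ((A ^ 3 * P) * (E * (P * (2 * A * E) ^ 3)))) := by
        gcongr
        exact (sum_inv_le_log Q).trans (hL Q hQ1 hQ)
    _ = 235008000 * E ^ 13 * θ ^ 6 * (V * P) + 5971968 * E ^ 11 * θ ^ 6 * (y * A ^ 6 * P ^ 2) := by
        ring
    _ ≤ _ := by
        rw [mul_add]
        gcongr <;> norm_num

end

end Pool.Agent.Lib.MP_786755_nt
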