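import Pool.Agent.Lib.MP_786755_nt.W.Low2
import Pool.Agent.Lib.MP_786755_nt.W.Six2

/-! The mean square of the difference between the generating function and the finer model. -/

namespace Pool.Agent.Lib.MP_786755_nt

open Finset Pool.Agent.Lib.MP_028aa5_nt MeasureTheory

lemma gc_gen {q P : ℕ} (hq : 0 < q) (hP : 1 ≤ P) {E c : ℝ} (hE : (#q.divisors : ℝ) ≤ E)
    (hL : 1 + Real.log q ≤ E) {r : ℤ} (hr : IsCoprime r q) (β : ℝ) (hc : 0 ≤ c)
    (h : P ^ 6 ≤ c ^ 3 * (q * (1 + P ^ 3 * |β|)) ^ 2) :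
    ‖gc P (r / q + β)‖ ^ 2 ≤ 150000 * E ^ 16 * (q * (1 + P ^ 3 * |β|) ^ 2 + c) := by
  have hE1 := one_le_of_div hq.ne' hE
  have hq1 : (1 : ℝ) ≤ q := by exact_mod_cast hq
  have hP0 : (0 : ℝ) < P := by exact_mod_cast hP
  have h1 := gc_sharp hq hP hE hL hr β
  have h0 : (1 : ℝ) ≤ E ^ 16 := one_le_pow₀ hE1
  rcases le_total (|β| * (38 * P ^ 2)) 1 with hβ | hβ
  · have h2 := gc_decay hP hβ
    set y := 1 + (P : ℝ) ^ 3 * |β| with hy
    have hy1 : 1 ≤ y := le_add_of_nonneg_right (by positivity)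
    have h3 : tq q / q * (P / y) ^ 2 ≤ c := by
      refine (pow_le_pow_iff_left₀ (by positivity) hc three_ne_zero).1 ?_
      have h4 : (tq q : ℝ) ^ 3 ≤ q := by exact_mod_cast Nat.le_of_dvd hq (tq_spec hq.ne').2.1
      calc _ = tq q ^ 3 * P ^ 6 / (q ^ 3 * y ^ 6) := by field_simp
        _ ≤ q * (c ^ 3 * (q * y) ^ 2) / (q ^ 3 * y ^ 2) := by gcongr; norm_num
        _ = _ := by field_simp
    have h4 : ‖s3 q r 1 * gc P β‖ ^ 2 ≤ 4 * (E ^ 16 * c) := by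
      rw [norm_mul, mul_pow]
      calc _ ≤ E ^ 7 * tq q / q * (2 * P / y) ^ 2 := by gcongr; exact s3_one_sq hq hE hr
        _ = 4 * (E ^ 7 * (tq q / q * (P / y) ^ 2)) := by ring
        _ ≤ _ := by gcongr; norm_num
    have h6 := norm_add_le (gc P (r / q + β) - s3 q r 1 * gc P β) (s3 q r 1 * gc P β)
    rw [sub_add_cancel] at h6
    have h7 : 0 ≤ E ^ 16 * c := by positivity
    have h8 : 0 ≤ E ^ 16 * (q * y ^ 2) := by positivity
    nlinarith [pow_le_pow_left₀ (norm_nonneg _) h6 2,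
      sq_nonneg (‖gc P (r / q + β) - s3 q r 1 * gc P β‖ - ‖s3 q r 1 * gc P β‖)]
  · have h2 : ‖gc P (r / q + β)‖ ≤ 38 * (1 + P ^ 3 * |β|) := by
      have := mul_le_mul_of_nonneg_left hβ hP0.le
      linarith [norm_gc_le P (r / q + β)]
    calc _ ≤ (38 * (1 + P ^ 3 * |β|)) ^ 2 := by gcongr
      _ = 1444 * 1 * (1 * (1 + P ^ 3 * |β|) ^ 2 + 0) := by ring
      _ ≤ _ := by gcongr; norm_num

section
variable {X : ℕ} {E : ℝ}

lemma arc_w {Q : ℕ} {B η : ℝ} (hX : 100 ≤ X) (hL : 1 + Real.log (X ^ 48 : ℕ) ≤ E) (hη0 : 0 ≤ η)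
    (hη : η ≤ 1 / 2) (hB : 0 ≤ B) (Y : ℕ → ℕ → ℝ → ℝ) (hY : ∀ q r, Continuous (Y q r))
    (hY0 : ∀ q r β, 0 ≤ Y q r β) (h : ∀ β, |β| ≤ η →
      ∑ q ∈ Icc 1 Q, ∑ r ∈ Rq q, Y q r β ≤ B * X ^ 107 / (1 + X ^ 48 * |β|)) (τ : ℝ) :
    ∃ W : ℝ → ℝ, IntervalIntegrable W volume τ (τ + 1) ∧ (∀ α, 0 ≤ W α) ∧
      (∀ q ∈ Icc 1 Q, ∀ r ∈ Rq q, ∀ β, |β| ≤ η → Y q r β ≤ W ((r : ℤ) / q + β)) ∧
      ∫ α in τ..τ + 1, W α ≤ 2 * B * E * X ^ 59 := by
  have hX1 : (100 : ℝ) ≤ X := by exact_mod_cast hX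
  obtain ⟨W, h1, h2, h3, h4⟩ := arc_int1 ((Icc 1 Q).sigma Rq) (fun i => ((i.2 : ℤ) : ℝ) / i.1)
    (fun i => Y i.1 i.2) (fun i => hY _ _) (fun i => hY0 _ _) (N := X ^ 48) (by positivity) hη0
    (fun β hβ => by rw [sum_sigma]; exact h β hβ) τ
  refine ⟨W, h1, h2, fun q hq r hr => h3 ⟨q, r⟩ (mem_sigma.2 ⟨hq, hr⟩), h4.trans ?_⟩
  have h5 : Real.log (1 + X ^ 48 * η) ≤ E := by
    have h8 : 0 < 1 + (X : ℝ) ^ 48 * η := by positivity
    have h6 : (2 : ℝ) ≤ X ^ 48 := le_trans (by linarith) (le_self_pow₀ (by linarith) (by norm_num))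
    have h7 : (X : ℝ) ^ 48 * η ≤ X ^ 48 * (1 / 2) := by gcongr
    have := Real.log_le_log h8 (by linarith : 1 + (X : ℝ) ^ 48 * η ≤ X ^ 48)
    push_cast at hL
    linarith
  calc _ ≤ 2 * (B * X ^ 107) / X ^ 48 * E := by gcongr
    _ = _ := by field_simp

lemma Fq_decay' (hX : 100 ≤ X) {β : ℝ} (hβ : |β| ≤ 1 / (216 * X ^ 25)) :
    ∀ a ∈ Ioc (X ^ 2) (2 * X ^ 2), ‖Fq (X ^ 23) a β‖ ≤ 6 * X ^ 23 / (1 + X ^ 48 * |β|) := by
  intro a ha
  have hX0 : (0 : ℝ) < X := by exact_mod_cast (by omega : 0 < X)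
  rw [le_div_iff₀ (by positivity)] at hβ
  have := Fq_decay (Nat.one_le_pow _ _ (by omega)) (Nat.one_le_pow 23 X (by omega)) ha
    (β := β) (le_trans (le_of_eq (by push_cast; ring)) hβ)
  push_cast at this
  rwa [show (X : ℝ) ^ 2 * (X ^ 23) ^ 2 = X ^ 48 by ring] at this

lemma sum_H {Q : ℕ} {V β : ℝ} (hX : 100 ≤ X)
    (hE : ∀ m, 1 ≤ m → m ≤ 1000 * X ^ 48 → (#m.divisors : ℝ) ≤ E) (hE1 : 1 ≤ E) (hV : 0 ≤ V)
    (hQ : X ^ 18 ≤ Q) (hQ' : Q ≤ X ^ 48) (hQV : Q * V ≤ X ^ 43) (hβ : |β| ≤ 1 / (216 * X ^ 25)) :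
    ∑ q ∈ Icc 1 Q, ∑ r ∈ Rq q, V * (1 + X ^ 48 * |β|) * ‖Hs (X ^ 2) (X ^ 23) (X ^ 16) q r β‖ ^ 2 ≤
      3456 * E ^ 7 * X ^ 107 / (1 + X ^ 48 * |β|) := by
  have hX0 : (0 : ℝ) < X := by exact_mod_cast (by omega : 0 < X)
  have e1 := H_bound (Q := Q) hE (A := X ^ 2) (P := X ^ 16)
    (by linarith [pw hX (show 6 < 32 by norm_num), Nat.zero_le (X ^ 32)])
    (by omega) (by have := pw hX (show 2 < 48 by norm_num); omega)
    (by linarith [pw hX (show 6 < 48 by norm_num), Nat.zero_le (X ^ 48)]) (Fq_decay' hX hβ)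
    (by positivity) hE1
  simp only [← mul_sum]
  refine (mul_le_mul_of_nonneg_left e1 (by positivity)).trans ?_
  have e2 : (X : ℝ) ^ 18 ≤ Q := by exact_mod_cast hQ
  push_cast
  calc _ = 1728 * E ^ 7 * X ^ 64 * (V * (Q + X ^ 18)) / (1 + X ^ 48 * |β|) := by
        field_simp; ring
    _ ≤ 1728 * E ^ 7 * X ^ 64 * (V * (Q + Q)) / (1 + X ^ 48 * |β|) := by gcongr
    _ = 3456 * E ^ 7 * X ^ 64 * (Q * V) / (1 + X ^ 48 * |β|) := by ring
    _ ≤ 3456 * E ^ 7 * X ^ 64 * X ^ 43 / (1 + X ^ 48 * |β|) := by gcongr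
    _ = _ := by ring

lemma sum_Low {β : ℝ} (hX : 100 ≤ X)
    (hE : ∀ m, 1 ≤ m → m ≤ 1000 * X ^ 48 → (#m.divisors : ℝ) ≤ E) (hE1 : 1 ≤ E)
    (hL : 1 + Real.log (X ^ 12 : ℕ) ≤ E) (hβ : |β| ≤ 1 / X ^ 36) :
    ∑ q ∈ Icc 1 (X ^ 12), ∑ r ∈ Rq q,
      ‖Low2 (X ^ 2) (X ^ 23) (X ^ 16) (X ^ 5) (1 / (216 * X ^ 41)) q r β‖ ^ 2 ≤
      3 * 10 ^ 10 * E ^ 24 * X ^ 107 / (1 + X ^ 48 * |β|) := by
  have hX1 : (100 : ℝ) ≤ X := by exact_mod_cast hX
  have hX0 : (0 : ℝ) < X := by linarith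
  have h1p : ∀ i, 1 ≤ X ^ i := fun i => Nat.one_le_pow _ _ (by omega)
  have e1 : (216 : ℝ) ≤ X ^ 2 := by nlinarith
  have hp : ∀ {i j : ℕ}, i ≤ j → (X : ℝ) ^ i ≤ X ^ j := fun h => pow_le_pow_right₀ (by linarith) h
  have e2 : |β| * (216 * X ^ 34) ≤ 1 := le_trans (by
    rw [show (X : ℝ) ^ 36 = X ^ 2 * X ^ 34 by ring]; gcongr) ((le_div_iff₀ (pow_pos hX0 _)).1 hβ)
  have e3 : (X : ℝ) ^ 106 + (X ^ 107 + 216 ^ 2 * X ^ 100) ≤ 3 * X ^ 107 := by
    have : 216 ^ 2 * (X : ℝ) ^ 100 ≤ (X ^ 2) ^ 2 * X ^ 100 := by gcongr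
    linarith [hp (show 106 ≤ 107 by norm_num), hp (show 104 ≤ 107 by norm_num)]
  have e5 := hp (show 25 ≤ 34 by norm_num)
  have e6 := hp (show 32 ≤ 34 by norm_num)
  have e7 : 1 ≤ 1 + (X : ℝ) ^ 48 * |β| := le_add_of_nonneg_right (by positivity)
  refine (low2_bound (by positivity) (h1p _) (h1p _) (h1p _) (by ring)
    (by have := pw hX (show 2 < 5 by norm_num); omega) hE hL hE1
    (by have := pw hX (show 12 < 48 by norm_num); omega)
    (by have := pw hX (show 2 < 48 by norm_num); omega)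
    (le_trans (mul_le_mul_of_nonneg_left (by push_cast; linarith) (abs_nonneg _)) e2)
    (le_trans (mul_le_mul_of_nonneg_left (by push_cast; linarith [pow_pos hX0 34])
      (abs_nonneg _)) e2)).trans ?_
  push_cast
  rw [show ((X : ℝ) ^ 16) ^ 3 = X ^ 48 by ring, mul_assoc 3, mul_assoc 3, mul_left_comm 3]
  gcongr
  · exact le_trans (le_of_eq (by field_simp)) e3
  · exact le_self_pow₀ e7 two_ne_zero

lemma sum_Six {β : ℝ} (hX : 100 ≤ X)
    (hE : ∀ m, 1 ≤ m → m ≤ 1000 * X ^ 48 → (#m.divisors : ℝ) ≤ E) (hE1 : 1 ≤ E)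
    (hL : ∀ m : ℕ, 1 ≤ m → m ≤ 1000 * X ^ 48 → 1 + Real.log m ≤ E)
    (hβ : |β| ≤ 1 / (216 * X ^ 25)) :
    ∑ q ∈ Icc 1 (X ^ 23), ∑ r ∈ Rq q, (1 + X ^ 48 * |β|) ^ 2 / X ^ 54 *
      (min 1 (q * ((1 + X ^ 48 * |β|) / X ^ 21)) * q * Ys (X ^ 2) (X ^ 23) (X ^ 16) q r β) ≤
      10 ^ 14 * E ^ 13 * X ^ 107 / (1 + X ^ 48 * |β|) := by
  have hX0 : (0 : ℝ) < X := by exact_mod_cast (by omega : 0 < X)
  have h1p : ∀ i, 1 ≤ X ^ i := fun i => Nat.one_le_pow _ _ (by omega)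
  have e1 := six_bound (Q := X ^ 23) (P := X ^ 16) (V := X ^ 7) (y := (1 + X ^ 48 * |β|) / X ^ 21)
    (by positivity) hE hE1 hL (h1p 2) (h1p _) (by have := pw hX (show 23 < 48 by norm_num); omega)
    (by linarith [pw hX (show 6 < 48 by norm_num), Nat.zero_le (X ^ 48)])
    (by linarith [pw hX (show 6 < 32 by norm_num), Nat.zero_le (X ^ 6)]) (Fq_decay' hX hβ)
    (by positivity) (by positivity) (by push_cast; ring)
  simp only [← mul_sum] at e1 ⊢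
  refine (mul_le_mul_of_nonneg_left e1 (by positivity)).trans ?_
  obtain ⟨y, hy⟩ : ∃ y, y = 1 + (X : ℝ) ^ 48 * |β| := ⟨_, rfl⟩
  have hy1 : 1 ≤ y := hy ▸ le_add_of_nonneg_right (by positivity)
  rw [← hy]
  push_cast
  calc _ = 46656 * 10 ^ 9 * E ^ 13 * X ^ 107 * (1 + y) / y ^ 4 := by field_simp; ring
    _ ≤ 46656 * 10 ^ 9 * E ^ 13 * X ^ 107 * (y + y) / y ^ 2 := by gcongr; norm_num
    _ = 93312 * 10 ^ 9 * E ^ 13 * X ^ 107 / y := by field_simp; ring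
    _ ≤ _ := by gcongr; norm_num

theorem ms_bound2 {τ : ℝ} (hX : 100 ≤ X) (hτ : τ = 1 / (2 * (X ^ 5 : ℕ)))
    (hE : ∀ m, 1 ≤ m → m ≤ 1000 * X ^ 48 → (#m.divisors : ℝ) ≤ E)
    (hL : ∀ m : ℕ, 1 ≤ m → m ≤ 1000 * X ^ 48 → 1 + Real.log m ≤ E) :
    ∫ α in τ..τ + 1, ‖ff (X ^ 2) (X ^ 23) (X ^ 16) α -
      MM2 (X ^ 2) (X ^ 23) (X ^ 16) (X ^ 5) (1 / (216 * X ^ 41)) α‖ ^ 2 ≤
      10 ^ 21 * E ^ 35 * X ^ 59 := by
  have hX1 : (100 : ℝ) ≤ X := by exact_mod_cast hX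
  have hX0 : (0 : ℝ) < X := by linarith
  have hp : ∀ {i j : ℕ}, i ≤ j → X ^ i ≤ X ^ j := fun h => Nat.pow_le_pow_right (by omega) h
  have hp' : ∀ {i j : ℕ}, i ≤ j → (X : ℝ) ^ i ≤ X ^ j := fun h => pow_le_pow_right₀ (by linarith) h
  have h1p : ∀ i, 1 ≤ X ^ i := fun i => Nat.one_le_pow _ _ (by omega)
  have h0p : ∀ i, (0 : ℝ) < X ^ i := fun i => pow_pos hX0 i
  have hM : ∀ {i : ℕ}, i ≤ 48 → ∀ {m : ℕ}, m ≤ 1000 * X ^ i → m ≤ 1000 * X ^ 48 := fun h m hm =>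
    hm.trans (Nat.mul_le_mul_left _ (hp h))
  have hE1 : 1 ≤ E := by simpa using hL 1 le_rfl (by have := h1p 48; omega)
  have hE0 : 0 ≤ E := by linarith
  have hEp : ∀ {i j : ℕ}, i ≤ j → E ^ i * (X : ℝ) ^ 59 ≤ E ^ j * X ^ 59 := fun h =>
    mul_le_mul_of_nonneg_right (pow_le_pow_right₀ hE1 h) (h0p _).le
  have e0 : (0 : ℝ) < 1 / (216 * X ^ 41) := by positivity
  have hL' := hL _ (h1p 48) (by omega)
  have hη : (1 : ℝ) / (216 * X ^ 25) ≤ 1 / 2 :=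
    one_div_le_one_div_of_le two_pos (by linarith [hp' (show 0 ≤ 25 by norm_num)])
  have hη' : (1 : ℝ) / X ^ 36 ≤ 1 / 2 :=
    one_div_le_one_div_of_le two_pos (by linarith [hp' (show 1 ≤ 36 by norm_num)])
  obtain ⟨W₁, a1, a2, a3, a4⟩ := arc_w hX hL' (by positivity) hη (by positivity) _
    (fun q r => by fun_prop) (fun q r β => by positivity) (fun β hβ => sum_H (Q := X ^ 21)
      (V := X ^ 21) hX hE hE1 (by positivity) (hp (by norm_num)) (hp (by norm_num))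
      (by push_cast; linarith [hp' (show 42 ≤ 43 by norm_num)]) hβ) τ
  obtain ⟨W₂, b1, b2, b3, b4⟩ := arc_w hX hL' (by positivity) hη (by positivity) _
    (fun q r => by fun_prop) (fun q r β => by positivity) (fun β hβ => sum_H (Q := X ^ 19)
      (V := X ^ 24) hX hE hE1 (by positivity) (hp (by norm_num)) (hp (by norm_num))
      (le_of_eq (by push_cast; ring)) hβ) τ
  obtain ⟨W₃, c1, c2, c3, c4⟩ := arc_w hX hL' (by positivity) hη' (by positivity) _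
    (fun q r => by fun_prop) (fun q r β => by positivity) (fun β hβ => sum_Low hX hE hE1
      (hL _ (h1p _) (hM (i := 12) (by norm_num) (by omega))) hβ) τ
  obtain ⟨W₄, d1, d2, d3, d4⟩ := arc_w hX hL' (by positivity) hη (by positivity) _
    (fun q r => by fun_prop) (fun q r β => by have := Ys_nonneg (X ^ 2) (X ^ 23) (X ^ 16) q r β
                                              positivity) (fun β hβ => sum_Six hX hE hE1 hL hβ) τ
  obtain ⟨K, hK⟩ : ∃ K : ℝ, K = 11000 * E ^ 3 * ((X ^ 2 : ℕ) * (X ^ 23 : ℕ)) := ⟨_, rfl⟩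
  obtain ⟨C, hC⟩ : ∃ C : ℝ, C = 300000 * E ^ 16 := ⟨_, rfl⟩
  obtain ⟨D, hD⟩ : ∃ D : ℝ, D = E ^ 8 * X ^ 27 := ⟨_, rfl⟩
  have hK0 : 0 ≤ K := by rw [hK]; positivity
  have hC0 : 0 ≤ C := by rw [hC]; positivity
  have hD0 : 0 ≤ D := by rw [hD]; positivity
  have h16 : ∀ m, 1 ≤ m → m ≤ 16 * (X ^ 16) ^ 3 → (#m.divisors : ℝ) ≤ E :=
    fun m h1 h2 => hE m h1 (by linarith [Nat.zero_le (X ^ 48)])
  have h12 := hL (12 * X ^ 2) (by have := h1p 2; omega) (hM (i := 2) (by norm_num) (by omega))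
  have hZ : ∫ α in τ..τ + 1, K * Zs (X ^ 2) (X ^ 16) α ≤ 22000 * (E ^ 6 * X ^ 59) := by
    rw [intervalIntegral.integral_const_mul]
    unfold Zs
    rw [intervalIntegral.integral_finsetSum fun i _ =>
      Continuous.intervalIntegrable (by fun_prop) _ _]
    have := sum_le_card_nsmul (Ioc (X ^ 2) (2 * X ^ 2)) _ _ fun a ha =>
      int_ga_gc (P := X ^ 16) (a := a) (E := E) (by have := mem_Ioc.1 ha; omega)
        (hE _ (by have := mem_Ioc.1 ha; omega) (hM (i := 2) (by norm_num)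
          (by have := mem_Ioc.1 ha; omega))) h16 τ
    refine (mul_le_mul_of_nonneg_left this hK0).trans (le_of_eq ?_)
    rw [Nat.card_Ioc, show 2 * X ^ 2 - X ^ 2 = X ^ 2 by omega, nsmul_eq_mul, hK]
    push_cast; ring
  have hZ' : ∫ α in τ..τ + 1, D * Zd (12 * X ^ 2) (X ^ 16) α ≤ 4 * (E ^ 10 * X ^ 59) := by
    rw [intervalIntegral.integral_const_mul]
    refine (mul_le_mul_of_nonneg_left (int_Zd h16 hE0 h12 τ) hD0).trans (le_of_eq ?_)
    rw [hD]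
    push_cast; ring
  have hZi : IntervalIntegrable (fun α => K * Zs (X ^ 2) (X ^ 16) α) volume τ (τ + 1) :=
    Continuous.intervalIntegrable (by fun_prop) _ _
  have hZj : IntervalIntegrable (fun α => D * Zd (12 * X ^ 2) (X ^ 16) α) volume τ (τ + 1) :=
    Continuous.intervalIntegrable (by fun_prop) _ _
  have i1 := (a1.add b1).const_mul C
  have i2 := d1.const_mul (E ^ 5 * C)
  refine (intervalIntegral.integral_mono_on (by linarith)
    (Continuous.intervalIntegrable (by fun_prop) _ _)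
    (((((hZi.add hZj).add i1).add i2).add c1).const_mul 3) fun α hα => ?_).trans ?_
  swap
  · rw [intervalIntegral.integral_const_mul,
      intervalIntegral.integral_add (((hZi.add hZj).add i1).add i2) c1,
      intervalIntegral.integral_add ((hZi.add hZj).add i1) i2,
      intervalIntegral.integral_add (hZi.add hZj) i1, intervalIntegral.integral_add hZi hZj,
      intervalIntegral.integral_const_mul C, intervalIntegral.integral_const_mul (E ^ 5 * C),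
      intervalIntegral.integral_add a1 b1]
    have f1 := mul_le_mul_of_nonneg_left (add_le_add a4 b4) hC0
    have f2 := mul_le_mul_of_nonneg_left d4 (mul_nonneg (pow_nonneg hE0 5) hC0)
    have f3 := mul_nonneg (pow_nonneg hE0 35) (h0p 59).le
    rw [hC] at f1 f2 ⊢
    linarith [hEp (show 6 ≤ 35 by norm_num), hEp (show 10 ≤ 35 by norm_num),
      hEp (show 24 ≤ 35 by norm_num), hEp (show 25 ≤ 35 by norm_num)]
  clear a4 b4 c4 d4 hZ hZ'
  have g1 : 0 ≤ K * Zs (X ^ 2) (X ^ 16) α := mul_nonneg hK0 (Zs_nonneg _ _ _)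
  have g2 : 0 ≤ D * Zd (12 * X ^ 2) (X ^ 16) α :=
    mul_nonneg hD0 (sum_nonneg fun _ _ => sq_nonneg _)
  have g3 := mul_nonneg hC0 (a2 α)
  have g4 := mul_nonneg hC0 (b2 α)
  have g5 := mul_nonneg (mul_nonneg (pow_nonneg hE0 5) hC0) (d2 α)
  have g6 := c2 α
  obtain ⟨q, r, h1, h2, h3, h4, h5⟩ := dirich α (Y := 216 * X ^ 25) (by positivity)
  have h6 := hM (i := 25) (m := q) (by norm_num) (by omega)
  have h7 : (1 : ℝ) ≤ q := by exact_mod_cast h1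
  have h8 : (q : ℝ) ≤ 216 * X ^ 25 := by exact_mod_cast h2
  push_cast at h4
  have h9 : |α - r / q| ≤ 1 / (216 * X ^ 25) := by
    rw [le_div_iff₀ (by positivity)]
    exact le_trans (mul_le_mul_of_nonneg_left (le_mul_of_one_le_right (by positivity) h7)
      (abs_nonneg _)) h4
  obtain ⟨s, rfl, h10, h11⟩ := to_nat (h1p 5) h1 h3 (hτ ▸ hα) (h9.trans_lt (by
    push_cast
    exact one_div_lt_one_div_of_lt (by positivity)
      (by linarith [hp' (show 5 ≤ 25 by norm_num), h0p 25])))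
  rw [MM2_eq e0 h1 (mem_filter.1 h10).2 (fun h => Or.inr (h11 h)) (by
    have f1 : |α - s / q| * (q * X ^ 5 * 2) ≤ 1 := by
      refine le_trans (mul_le_mul_of_nonneg_left ?_ (abs_nonneg _)) h4
      rw [mul_assoc, mul_comm]
      exact mul_le_mul_of_nonneg_right (by linarith [hp' (show 5 ≤ 25 by norm_num), h0p 25])
        (by linarith)
    have f2 : 1 / (216 * (X : ℝ) ^ 41) * (q * X ^ 5) ≤ 1 / 2 := by
      rw [one_div_mul_eq_div, div_le_iff₀ (by positivity)]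
      have := mul_le_mul_of_nonneg_right h8 (h0p 5).le
      have : 100 * (X : ℝ) ^ 30 ≤ X ^ 41 := by exact_mod_cast pw hX (show 30 < 41 by norm_num)
      linarith [h0p 30]
    push_cast
    linarith), ← Int.cast_natCast (R := ℝ) s]
  obtain ⟨β, rfl⟩ : ∃ β, α = ((s : ℤ) : ℝ) / q + β := ⟨α - ((s : ℤ) : ℝ) / q, by ring⟩
  rw [add_sub_cancel_left] at h4 h5 h9 ⊢
  obtain ⟨y, hy⟩ : ∃ y, y = 1 + (X : ℝ) ^ 48 * |β| := ⟨_, rfl⟩
  have hy1 : 1 ≤ y := hy ▸ le_add_of_nonneg_right (by positivity)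
  have hy2 : (q : ℝ) ≤ q * y := le_mul_of_one_le_right (by linarith) hy1
  have hy3 : y ≤ q * y := le_mul_of_one_le_left (by linarith) h7
  have hyP : y = 1 + ((X ^ 16 : ℕ) : ℝ) ^ 3 * |β| := by rw [hy]; push_cast; ring
  have hmem : ∀ i, q * y ≤ X ^ i → q ∈ Icc 1 (X ^ i) := fun i h =>
    mem_Icc.2 ⟨h1, by exact_mod_cast hy2.trans h⟩
  have hnear : q ≤ X ^ 23 → _ := fun h => near2 (A := X ^ 2) (β := β) h1 h3 (hE q h1 h6)
    (hL q h1 h6) h (le_trans (le_of_eq (by push_cast; ring)) h4) (X ^ 16)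
  rw [← hK] at hnear
  set F := ff (X ^ 2) (X ^ 23) (X ^ 16) (((s : ℤ) : ℝ) / q + β)
  set G := gc (X ^ 16) (((s : ℤ) : ℝ) / q + β) with hG
  set H := Hs (X ^ 2) (X ^ 23) (X ^ 16) q s β with hH
  have hH0 := sq_nonneg ‖H‖
  have hyy : ∀ {i}, q * y ≤ X ^ i → q * y ^ 2 ≤ X ^ i * y := fun h => by
    rw [sq, ← mul_assoc]; gcongr
  rcases le_or_gt (q * y) (X ^ 12) with k1 | k1
  · have f1 := hnear ((mem_Icc.1 (hmem _ k1)).2.trans (hp (by norm_num)))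
    have f2 := b3 q (hmem _ (k1.trans (hp' (by norm_num)))) s h10 β h9
    have f3 := c3 q (hmem _ k1) s h10 β (by
      rw [le_div_iff₀ (h0p _)]
      refine le_of_mul_le_mul_left ?_ (h0p 12)
      linarith)
    have f4 := gc_sharp h1 (h1p 16) (hE q h1 h6) (hL q h1 h6) h3 β
    rw [← hyP] at f4
    rw [← hy] at f2
    have f5 : ‖G - s3 q s 1 * gc (X ^ 16) β‖ ^ 2 ≤ C * (X ^ 24 * y) := by
      refine f4.trans ?_
      rw [hC]
      exact mul_le_mul (by gcongr; norm_num) (hyy (k1.trans (hp' (by norm_num)))) (by positivity)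
        (by positivity)
    have f6 := sq_three (F - H * G) (H * (G - s3 q s 1 * gc (X ^ 16) β))
      (Low2 (X ^ 2) (X ^ 23) (X ^ 16) (X ^ 5) (1 / (216 * X ^ 41)) q s β)
    rw [norm_mul, mul_pow] at f6
    have f7 := mul_le_mul_of_nonneg_left f5 hH0
    have f8 := mul_le_mul_of_nonneg_left f2 hC0
    refine le_trans (le_of_eq ?_) (f6.trans (by linarith))
    rw [Low2]
    congr 2
    ring
  have k2 : (if q ≤ X ^ 5 then (tent (1 / (216 * X ^ 41)) β : ℂ) *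
      M1 (X ^ 2) (X ^ 23) (X ^ 16) q s β else 0) = 0 := by
    split_ifs with h
    · rw [tent_eq_zero e0, Complex.ofReal_zero, zero_mul]
      have f1 : (q : ℝ) ≤ X ^ 5 := by exact_mod_cast h
      have f2 : X ^ 5 * X ^ 7 ≤ X ^ 5 * y := by
        have := mul_le_mul_of_nonneg_right f1 (by linarith : 0 ≤ y)
        linarith
      have f3 := le_of_mul_le_mul_left f2 (h0p 5)
      rw [div_le_iff₀ (by positivity)]
      refine le_of_mul_le_mul_left ?_ (h0p 7)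
      linarith [hp' (show 1 ≤ 7 by norm_num)]
    · rfl
  rw [k2, sub_zero]
  rcases le_total (X ^ 23) q with k3 | k3
  · have := far2 (A := X ^ 2) (α := ((s : ℤ) : ℝ) / q + β) h3 (by rwa [add_sub_cancel_left])
      (fun k k1 k2 => hE k k1 (hM (i := 25) (by norm_num) (by linarith [Nat.zero_le (X ^ 25)])))
      hE1 (hL q h1 h6) (h1p _) (h1p _) k3 (h2.trans (le_of_eq (by ring))) (X ^ 16)
    rw [← hK] at this
    linarith [sq_nonneg ‖F‖]
  have f1 := hnear k3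
  have f2 := sq_three (F - H * G) (H * G) 0
  rw [sub_add_cancel, add_zero, norm_zero] at f2
  refine f2.trans ?_
  have hg : ∀ i j k : ℕ, (X : ℝ) ^ i ≤ q * y → 96 ≤ j * 3 + i * 2 → q * y ≤ X ^ k → j ≤ k →
      ‖H * G‖ ^ 2 ≤ C * (X ^ k * y * ‖H‖ ^ 2) := fun i j k f3 f4 f5 f6 => by
    have f7 := gc_gen h1 (h1p 16) (hE q h1 h6) (hL q h1 h6) h3 β (h0p j).le (by
      rw [← hyP]
      calc _ ≤ ((X : ℝ) ^ j) ^ 3 * (X ^ i) ^ 2 := by
            push_cast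
            rw [← pow_mul, ← pow_mul, ← pow_mul, ← pow_add]
            exact hp' f4
        _ ≤ _ := by gcongr)
    rw [← hyP] at f7
    have f8 := (hp' f6).trans (le_mul_of_one_le_right (h0p k).le hy1)
    rw [norm_mul, mul_pow, mul_comm, ← mul_assoc, hC]
    refine mul_le_mul_of_nonneg_right (f7.trans ?_) hH0
    calc _ ≤ 150000 * E ^ 16 * (X ^ k * y + X ^ k * y) :=
          mul_le_mul_of_nonneg_left (add_le_add (hyy f5) f8) (by positivity)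
      _ = _ := by ring
  rcases le_or_gt (q * y) (X ^ 19) with k4 | k4
  · have f3 := mul_le_mul_of_nonneg_left (b3 q (hmem _ k4) s h10 β h9) hC0
    rw [← hy] at f3
    linarith [hg 12 24 24 k1.le (by norm_num) (k4.trans (hp' (by norm_num))) le_rfl]
  rcases le_or_gt (q * y) (X ^ 21) with k5 | k5
  · have f3 := mul_le_mul_of_nonneg_left (a3 q (hmem _ k5) s h10 β h9) hC0
    rw [← hy] at f3
    linarith [hg 19 21 21 k4.le (by norm_num) k5 le_rfl]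
  have f3 := mul_le_mul_of_nonneg_left (d3 q (mem_Icc.2 ⟨h1, k3⟩) s h10 β h9)
    (mul_nonneg (pow_nonneg hE0 5) hC0)
  rw [← hy, min_eq_left (by rw [← mul_div_assoc, one_le_div (h0p _)]; exact k5.le)] at f3
  have f4 := six_point (A := X ^ 2) (U := X ^ 23) (P := X ^ 16) (by omega) (hE q h1 h6) h12
    (h0p 27) s β
  have f5 := gc_gen h1 (h1p 16) (hE q h1 h6) (hL q h1 h6) h3 β (h0p 21).le (by
    rw [← hyP]
    calc _ ≤ ((X : ℝ) ^ 21) ^ 3 * (X ^ 21) ^ 2 := by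
          push_cast
          rw [← pow_mul, ← pow_mul, ← pow_mul, ← pow_add]
          exact hp' (by norm_num)
      _ ≤ _ := by gcongr)
  have f6 : q * y ≤ q * y ^ 2 := by gcongr; exact le_self_pow₀ hy1 two_ne_zero
  have f7 : ‖G‖ ^ 2 ≤ C * (q * y ^ 2) := by
    rw [← hyP] at f5
    refine f5.trans ?_
    calc _ ≤ 150000 * E ^ 16 * (q * y ^ 2 + q * y ^ 2) := by gcongr; linarith
      _ = _ := by rw [hC]; ring
  have f8 := mul_le_mul_of_nonneg_right f7 (by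
    have := Ys_nonneg (X ^ 2) (X ^ 23) (X ^ 16) q s β
    positivity : 0 ≤ E ^ 5 * Ys (X ^ 2) (X ^ 23) (X ^ 16) q s β / (X ^ 27) ^ 2)
  have f9 : ‖H * G‖ ^ 2 ≤ D * Zd (12 * X ^ 2) (X ^ 16) (((s : ℤ) : ℝ) / q + β) +
      E ^ 5 * C * W₄ (((s : ℤ) : ℝ) / q + β) := by
    refine f4.trans (le_trans (le_of_eq ?_) (add_le_add le_rfl (f8.trans (le_trans (le_of_eq ?_) f3))))
    · rw [hD]; ring
    · ring
  linarith

end

end Pool.Agent.Lib.MP_786755_nt
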