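import Pool.Agent.Lib.MP_786755_nt.Piece

/-! The eighth moment of a sum of multiplicative periodic functions of mean zero. -/

namespace Pool.Agent.Lib.MP_786755_nt

open Finset Pool.Agent.Lib.MP_028aa5_nt

lemma per_prod {R : Type*} [CommSemiring R] (T : Finset ℕ) (φ : ℕ → ℤ → R)
    (hφ : ∀ p ∈ T, Per p (φ p)) : Per (∏ p ∈ T, p) fun x => ∏ p ∈ T, φ p x := fun x y h =>
  prod_congr rfl fun p hp => (hφ p hp).of_dvd (dvd_prod_of_mem _ hp) x y h

lemma sum_prod_crt {R : Type*} [CommSemiring R] (T : Finset ℕ) (hT : ∀ p ∈ T, p.Prime)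
    (φ : ℕ → ℤ → R) (hφ : ∀ p ∈ T, Per p (φ p)) :
    ∑ x ∈ range (∏ p ∈ T, p), ∏ p ∈ T, φ p x = ∏ p ∈ T, ∑ x ∈ range p, φ p x := by
  induction T using Finset.induction_on with
  | empty => simp
  | insert p T hp ih =>
    have h1 := fun l hl => hT l (mem_insert_of_mem hl)
    have h2 := fun l hl => hφ l (mem_insert_of_mem hl)
    simp only [prod_insert hp]
    rw [sum_crt (Nat.Coprime.prod_right fun l hl => (Nat.coprime_primes (hT p (mem_insert_self _ _))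
      (h1 l hl)).2 fun h => hp (h ▸ hl)) (hφ p (mem_insert_self _ _)) (per_prod T φ h2), ih h1 h2]

lemma norm_sum_per {q : ℕ} (hq : 0 < q) {f : ℤ → ℂ} (hf : Per q f) (y : ℕ) :
    ‖∑ x ∈ Ioc 0 y, f x‖ ≤ y / q * ‖∑ x ∈ range q, f x‖ + 2 * ∑ x ∈ range q, ‖f x‖ := by
  have hq0 : (0 : ℝ) < q := by exact_mod_cast hq
  have h1 := sum_range_sub_av hq hf y
  have h2 : ‖∑ x ∈ Ioc 0 (y % q), f x‖ ≤ ∑ x ∈ range q, ‖f x‖ := by
    rw [← sum_Icc_per (f := fun x => ‖f x‖) fun x y h => by simp only [hf x y h]]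
    refine (norm_sum_le _ _).trans (sum_le_sum_of_subset_of_nonneg (fun x hx => ?_)
      fun _ _ _ => norm_nonneg _)
    have := Nat.mod_lt y hq
    simp only [mem_Ioc, mem_Icc] at hx ⊢
    omega
  have h3 : ∀ k : ℕ, ‖k * av q f‖ = k / q * ‖∑ x ∈ range q, f x‖ := fun k => by
    rw [av, norm_mul, norm_div, Complex.norm_natCast, Complex.norm_natCast]; ring
  have h4 : ‖((y % q : ℕ) : ℂ) * av q f‖ ≤ ∑ x ∈ range q, ‖f x‖ := by
    rw [h3]
    exact (mul_le_of_le_one_left (norm_nonneg _) ((div_le_one hq0).2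
      (by exact_mod_cast (Nat.mod_lt y hq).le))).trans (norm_sum_le _ _)
  rw [sub_eq_iff_eq_add'.1 h1, ← h3]
  linarith [norm_add_le (y * av q f) (∑ x ∈ Ioc 0 (y % q), f x - (y % q : ℕ) * av q f),
    norm_sub_le (∑ x ∈ Ioc 0 (y % q), f x) ((y % q : ℕ) * av q f)]

/-- the identity or the conjugation -/
def hc (i : Fin 8) : ℂ →+* ℂ := if i < 4 then RingHom.id ℂ else starRingEnd ℂ

lemma norm_hc (i : Fin 8) (z : ℂ) : ‖hc i z‖ = ‖z‖ := by
  unfold hc; split_ifs <;> simp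

lemma prod_hc (z : ℂ) : ∏ i, hc i z = (‖z‖ ^ 8 : ℝ) := by
  have := Complex.mul_conj' z
  simp only [Fin.prod_univ_eight, hc]
  simp
  linear_combination (‖z‖ ^ 6 + ‖z‖ ^ 4 * z * (starRingEnd ℂ) z + ‖z‖ ^ 2 * (z * (starRingEnd ℂ) z) ^ 2 +
    (z * (starRingEnd ℂ) z) ^ 3) * this

section
variable {g : ℕ → ℤ → ℂ} {c B Z : ℝ} {S : Finset ℕ}

lemma local_bound {p : ℕ} (hp : p.Prime) (hc0 : 0 ≤ c) (h0 : ∑ x ∈ range p, g p x = 0)
    (h1 : ∀ x, ‖g p x‖ ≤ c / √p) (h2 : ∑ x ∈ range p, ‖g p x‖ ^ 2 ≤ c ^ 2 / p)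
    {I : Finset (Fin 8)} (hI : I.Nonempty) :
    ‖∑ x ∈ range p, ∏ i ∈ I, hc i (g p x)‖ ≤ (c / √p) ^ #I ∧
      ∑ x ∈ range p, ‖∏ i ∈ I, hc i (g p x)‖ ≤ c ^ #I := by
  have hp1 : (1 : ℝ) ≤ p := by exact_mod_cast hp.one_le
  have hs : c / √p ≤ c := div_le_self hc0 (Real.one_le_sqrt.2 hp1)
  simp only [norm_prod, norm_hc, prod_const]
  rcases Nat.lt_or_ge 1 #I with h | h
  · obtain ⟨k, hk⟩ : ∃ k, #I = k + 2 := ⟨#I - 2, by omega⟩
    have h3 : ∑ x ∈ range p, ‖g p x‖ ^ #I ≤ (c / √p) ^ #I := by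
      rw [hk, pow_add _ k, div_pow c _ 2, Real.sq_sqrt (by positivity)]
      refine le_trans ?_ (mul_le_mul_of_nonneg_left h2 (by positivity))
      rw [mul_sum]
      refine sum_le_sum fun x _ => ?_
      rw [pow_add]
      gcongr
      exact h1 x
    refine ⟨(norm_sum_le _ _).trans ?_, h3.trans (by gcongr)⟩
    simpa only [norm_prod, norm_hc, prod_const] using h3
  · obtain ⟨i, rfl⟩ := card_eq_one.1 (le_antisymm h hI.card_pos)
    simp only [prod_singleton, ← map_sum, h0, map_zero, norm_zero, card_singleton, pow_one]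
    refine ⟨by positivity, (pow_le_pow_iff_left₀ (by positivity) hc0 two_ne_zero).1
      (sq_sum_le_card_mul_sum_sq.trans ?_)⟩
    rw [card_range, ← le_div_iff₀' (by positivity)]
    exact h2

lemma tuple_bound (hc0 : 0 ≤ c) (hZ : 0 < Z)
    (hS : ∀ q ∈ S, Squarefree q ∧ Z ≤ q ∧ c ^ #q.primeFactors ≤ B ∧
      (∀ x, g q x = ∏ p ∈ q.primeFactors, g p x) ∧ ∀ p ∈ q.primeFactors, Per p (g p) ∧
        ∑ x ∈ range p, g p x = 0 ∧ (∀ x, ‖g p x‖ ≤ c / √p) ∧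
          ∑ x ∈ range p, ‖g p x‖ ^ 2 ≤ c ^ 2 / p)
    {t : Fin 8 → ℕ} (ht : ∀ i, t i ∈ S) (H : ℕ) (b : ℤ) :
    ‖∑ n ∈ Ioc 0 H, ∏ i, hc i (g (t i) (n + b))‖ ≤ B ^ 8 / Z ^ 4 * H *
      (1 / (∏ p ∈ univ.biUnion fun i => (t i).primeFactors, p : ℕ)) + 2 * B ^ 8 := by
  set T := univ.biUnion fun i => (t i).primeFactors with hT
  have hT1 : ∀ p ∈ T, ∃ i, p ∈ (t i).primeFactors := fun p hp => by simpa [hT] using hp
  have hT2 : ∀ p ∈ T, p.Prime := fun p hp => by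
    obtain ⟨i, hi⟩ := hT1 p hp
    exact Nat.prime_of_mem_primeFactors hi
  set I : ℕ → Finset (Fin 8) := fun p => univ.filter fun i => p ∈ (t i).primeFactors with hI
  have hsw : ∀ {M : Type} [CommMonoid M] (u : Fin 8 → ℕ → M),
      ∏ p ∈ T, ∏ i ∈ I p, u i p = ∏ i, ∏ p ∈ (t i).primeFactors, u i p := fun u =>
    prod_comm' fun p i => by
      simp only [hI, hT, mem_filter, mem_univ, true_and, mem_biUnion, and_true]
      exact ⟨fun h => h.2, fun h => ⟨⟨i, h⟩, h⟩⟩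
  set φ : ℕ → ℤ → ℂ := fun p x => ∏ i ∈ I p, hc i (g p x) with hφ
  have hφ1 : ∀ p ∈ T, Per p (φ p) := fun p hp x y h => by
    obtain ⟨i, hi⟩ := hT1 p hp
    simp only [hφ, ((hS _ (ht i)).2.2.2.2 p hi).1 x y h]
  have hφ2 : ∀ p ∈ T, ‖∑ x ∈ range p, φ p x‖ ≤ (c / √p) ^ #(I p) ∧
      ∑ x ∈ range p, ‖φ p x‖ ≤ c ^ #(I p) := fun p hp => by
    obtain ⟨i, hi⟩ := hT1 p hp
    obtain ⟨-, h1, h2, h3⟩ := (hS _ (ht i)).2.2.2.2 p hi
    exact local_bound (hT2 p hp) hc0 h1 h2 h3 ⟨i, mem_filter.2 ⟨mem_univ _, hi⟩⟩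
  have e1 : ∀ x, ∏ i, hc i (g (t i) x) = ∏ p ∈ T, φ p x := fun x => by
    rw [hsw]
    exact prod_congr rfl fun i _ => by rw [(hS _ (ht i)).2.2.2.1, map_prod]
  have hB : 0 ≤ B := le_trans (by positivity) (hS _ (ht 0)).2.2.1
  have hper := per_prod T φ hφ1
  have h1 := norm_sum_per (prod_pos fun p hp => (hT2 p hp).pos)
    (f := fun x => ∏ p ∈ T, φ p (x + b)) (fun x y h => hper _ _ (h.add_right b)) H
  rw [sum_shift hper b, sum_shift (f := fun x => ‖∏ p ∈ T, φ p x‖)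
    (fun x y h => by simp only [hper x y h]) b, sum_prod_crt T hT2 φ hφ1] at h1
  simp only [norm_prod] at h1
  rw [sum_prod_crt T hT2 (fun p x => ‖φ p x‖) fun p hp x y h => by simp only [hφ1 p hp x y h]] at h1
  simp only [e1]
  refine h1.trans (add_le_add ?_ (mul_le_mul_of_nonneg_left ?_ zero_le_two))
  · rw [mul_assoc, mul_one_div, mul_comm]
    gcongr
    refine (prod_le_prod (fun _ _ => norm_nonneg _) fun p hp => (hφ2 p hp).1).trans ?_
    simp only [← prod_const]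
    rw [hsw fun _ p => c / √p]
    refine (prod_le_prod (g := fun _ => B / √Z) (fun i _ => by positivity) fun i _ => ?_).trans
      (le_of_eq ?_)
    · obtain ⟨h2, h3, h4, -⟩ := hS _ (ht i)
      rw [prod_div_distrib, prod_const, ← Real.sqrt_prod _ fun _ _ => by positivity,
        ← Nat.cast_prod, Nat.prod_primeFactors_of_squarefree h2]
      gcongr
    · rw [prod_const, card_univ, Fintype.card_fin, div_pow, show 8 = 2 * 4 by rfl, pow_mul (√Z),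
        Real.sq_sqrt hZ.le]
  · refine (prod_le_prod (fun _ _ => by positivity) fun p hp => (hφ2 p hp).2).trans ?_
    simp only [← prod_const]
    rw [hsw fun _ _ => c]
    refine (prod_le_prod (g := fun _ => B) (fun i _ => by positivity) fun i _ => ?_).trans (by simp)
    rw [prod_const]
    exact (hS _ (ht i)).2.2.1

theorem moment {Q : ℕ} {E : ℝ} (hc0 : 0 ≤ c) (hZ : 0 < Z) (hB : 0 ≤ B) (hQ : S ⊆ Icc 1 Q)
    (hE : ∀ m, 1 ≤ m → m ≤ Q ^ 8 → (#m.divisors : ℝ) ≤ E) (hE0 : 0 ≤ E)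
    (hL : 1 + Real.log (Q ^ 8 : ℕ) ≤ E)
    (hS : ∀ q ∈ S, Squarefree q ∧ Z ≤ q ∧ c ^ #q.primeFactors ≤ B ∧
      (∀ x, g q x = ∏ p ∈ q.primeFactors, g p x) ∧ ∀ p ∈ q.primeFactors, Per p (g p) ∧
        ∑ x ∈ range p, g p x = 0 ∧ (∀ x, ‖g p x‖ ≤ c / √p) ∧
          ∑ x ∈ range p, ‖g p x‖ ^ 2 ≤ c ^ 2 / p) (H : ℕ) (b : ℤ) :
    ∑ n ∈ Ioc 0 H, ‖∑ q ∈ S, g q (n + b)‖ ^ 8 ≤ B ^ 8 * (E ^ 9 * H / Z ^ 4 + 2 * Q ^ 8) := by
  set Pi := Fintype.piFinset fun _ : Fin 8 => S with hPi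
  have h1 : ((∑ n ∈ Ioc 0 H, ‖∑ q ∈ S, g q (n + b)‖ ^ 8 : ℝ) : ℂ) =
      ∑ t ∈ Pi, ∑ n ∈ Ioc 0 H, ∏ i, hc i (g (t i) (n + b)) := by
    rw [sum_comm, Complex.ofReal_sum]
    refine sum_congr rfl fun n _ => ?_
    rw [← prod_hc, hPi, ← prod_univ_sum (fun _ => S) fun i q => hc i (g q (n + b))]
    simp only [map_sum]
  have h2 := congrArg norm h1
  rw [Complex.norm_real, Real.norm_of_nonneg (by positivity)] at h2
  rw [h2]
  refine (norm_sum_le _ _).trans ((sum_le_sum fun t ht =>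
    tuple_bound hc0 hZ hS (Fintype.mem_piFinset.1 ht) H b).trans ?_)
  set L : (Fin 8 → ℕ) → ℕ := fun t => ∏ p ∈ univ.biUnion fun i => (t i).primeFactors, p with hL'
  have h3 : ∀ t ∈ Pi, L t ∈ Icc 1 (Q ^ 8) := fun t ht => by
    have h4 := Fintype.mem_piFinset.1 ht
    have h5 : ∀ i, 1 ≤ t i ∧ t i ≤ Q := fun i => mem_Icc.1 (hQ (h4 i))
    have h6 : ∏ i, t i ≠ 0 := prod_ne_zero_iff.2 fun i _ => by have := h5 i; omega
    refine mem_Icc.2 ⟨Nat.succ_le_of_lt (prod_pos fun p hp => ?_), (Nat.le_of_dvd (by omega) ((prod_dvd_prod_of_subset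
      _ _ _ fun p hp => ?_).trans (Nat.prod_primeFactors_dvd (∏ i, t i)))).trans
        ((prod_le_pow_card _ _ Q fun i _ => (h5 i).2).trans (by simp))⟩
    all_goals obtain ⟨i, -, hi⟩ := mem_biUnion.1 hp
    · exact (Nat.prime_of_mem_primeFactors hi).pos
    · exact Nat.primeFactors_mono (dvd_prod_of_mem _ (mem_univ i)) h6 hi
  have h4 : ∑ t ∈ Pi, (1 / L t : ℝ) ≤ E ^ 8 * E := by
    rw [← sum_fiberwise_of_maps_to h3]
    refine le_trans (sum_le_sum fun l hl => ?_)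
      ((mul_sum _ _ _).ge.trans (mul_le_mul_of_nonneg_left ((sum_inv_le_log _).trans hL)
        (by positivity)))
    rw [sum_congr rfl (g := fun _ => (1 / l : ℝ)) fun t ht => by rw [(mem_filter.1 ht).2],
      sum_const, nsmul_eq_mul]
    obtain ⟨h5, h6⟩ := mem_Icc.1 hl
    have h7 : #(Pi.filter fun t => L t = l) ≤ #(Fintype.piFinset fun _ : Fin 8 => l.divisors) := by
      refine card_le_card fun t ht => Fintype.mem_piFinset.2 fun i => Nat.mem_divisors.2 ⟨?_, by omega⟩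
      obtain ⟨h8, rfl⟩ := mem_filter.1 ht
      rw [← Nat.prod_primeFactors_of_squarefree (hS _ (Fintype.mem_piFinset.1 h8 i)).1]
      exact prod_dvd_prod_of_subset _ _ _ (subset_biUnion_of_mem (fun i => (t i).primeFactors)
        (mem_univ i))
    rw [Fintype.card_piFinset_const] at h7
    have h8 := hE l h5 h6
    gcongr
    exact le_trans (by exact_mod_cast h7) (pow_le_pow_left₀ (by positivity) h8 8)
  have h5 : (#Pi : ℝ) ≤ Q ^ 8 := by
    rw [hPi, Fintype.card_piFinset_const, Nat.cast_pow]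
    gcongr
    simpa using card_le_card hQ
  rw [sum_add_distrib, ← mul_sum, sum_const, nsmul_eq_mul]
  calc _ ≤ B ^ 8 / Z ^ 4 * H * (E ^ 8 * E) + Q ^ 8 * (2 * B ^ 8) := by gcongr
    _ = _ := by ring

end

end Pool.Agent.Lib.MP_786755_nt
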