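import Pool.Agent.Lib.MP_786755_nt.Low

/-! The terms of the singular series for a fixed value of `a`. -/

namespace Pool.Agent.Lib.MP_786755_nt

open Finset Pool.Agent.Lib.MP_028aa5_nt

/-- the local factor for fixed `a` -/
noncomputable def fl (q : ℕ) (a r : ℤ) : ℂ := s2 q (6 * a * r) * s3 q r (6 * a) * s3 q r 1

open Classical in
/-- the term of the singular series for fixed `a` -/
noncomputable def Aa (a : ℤ) (q : ℕ) (m : ℤ) : ℂ :=
  ∑ r ∈ range q, if IsCoprime (r : ℤ) q then fl q a r * ec q (-(r * m)) else 0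

lemma fl_congr {q : ℕ} (a : ℤ) {r r' : ℤ} (h : r ≡ r' [ZMOD q]) : fl q a r = fl q a r' := by
  unfold fl
  rw [s2_congr (h.mul_left _), s3_congr h fun _ _ => Iff.rfl, s3_congr h fun _ _ => Iff.rfl]

open Classical in
lemma per_fl (a : ℤ) (q : ℕ) (m : ℤ) :
    Per q fun r => if IsCoprime r q then fl q a r * ec q (-(r * m)) else 0 := fun x y h => by
  simp only [cop_congr h]
  rw [fl_congr a h, ec_congr (h.mul_right m).neg]

lemma per_Aa (a : ℤ) (q : ℕ) : Per q (Aa a q) := fun x y h =>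
  sum_congr rfl fun r _ => by rw [ec_congr (h.mul_left r).neg]

theorem Aa_mul (a m : ℤ) {q₁ q₂ : ℕ} (h : q₁.Coprime q₂) :
    Aa a (q₁ * q₂) m = Aa a q₁ m * Aa a q₂ m := by
  classical
  rcases eq_or_ne q₁ 0 with rfl | h₁
  · simp [Aa]
  rcases eq_or_ne q₂ 0 with rfl | h₂
  · simp [Aa]
  obtain ⟨k₁, k₂, hk⟩ := exists_bezout h
  have c1 : IsCoprime k₁ q₁ := ⟨q₂, k₂, by linarith⟩
  have c2 : IsCoprime k₂ q₂ := ⟨q₁, k₁, by linarith⟩
  unfold Aa
  rw [← sum_affine (per_fl a q₁ m) c1 0, ← sum_affine (per_fl a q₂ m) c2 0,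
    ← sum_crt h (f := fun x => if IsCoprime (k₁ * x + 0) q₁ then
        fl q₁ a (k₁ * x + 0) * ec q₁ (-((k₁ * x + 0) * m)) else 0)
      (g := fun x => if IsCoprime (k₂ * x + 0) q₂ then
        fl q₂ a (k₂ * x + 0) * ec q₂ (-((k₂ * x + 0) * m)) else 0)
      (fun x y e => per_fl a q₁ m _ _ ((e.mul_left _).add_right _))
      (fun x y e => per_fl a q₂ m _ _ ((e.mul_left _).add_right _))]
  refine sum_congr rfl fun r _ => ?_
  simp only [add_zero, cop_split hk, fl]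
  rw [s2_split h h₁ h₂ hk, s3_split h h₁ h₂ hk, s3_split h h₁ h₂ hk, ec_split h₁ h₂ hk]
  by_cases e1 : IsCoprime (k₁ * r) q₁ <;> by_cases e2 : IsCoprime (k₂ * r) q₂ <;>
    simp only [e1, e2, and_self, and_false, and_true, if_true, if_false, mul_zero, zero_mul]
  ring_nf

lemma Aa_one (a m : ℤ) : Aa a 1 m = 1 := by
  simp [Aa, fl, s2, s3, av, wq, isCoprime_one_right]

lemma Aa_prod (a m : ℤ) (T : Finset ℕ) (hT : ∀ p ∈ T, p.Prime) :
    Aa a (∏ p ∈ T, p) m = ∏ p ∈ T, Aa a p m := by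
  induction T using Finset.induction_on with
  | empty => simp [Aa_one]
  | insert p T hp ih =>
    have h1 := fun l hl => hT l (mem_insert_of_mem hl)
    rw [prod_insert hp, prod_insert hp, Aa_mul _ _ (Nat.Coprime.prod_right fun l hl =>
      (Nat.coprime_primes (hT p (mem_insert_self _ _)) (h1 l hl)).2 fun h => hp (h ▸ hl)), ih h1]

lemma fl_six {q : ℕ} {t : ℤ} (ht : IsCoprime t q) (a r : ℤ) : fl q a (t ^ 6 * r) = fl q a r := by
  have h3 : ∀ m, s3 q (t ^ 6 * r) m = s3 q r m := by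
    intro m
    unfold s3
    rw [← av_affine (per_cube q r m) (ht.pow_left (m := 2)) 0]
    refine av_congr fun z => ?_
    rw [add_zero, wq_mul_unit ht.pow_left]
    congr 2; ring
  unfold fl
  rw [h3, h3, ← s2_sq_mul (ht.pow_left (m := 3)) (6 * a * r)]
  congr 3; ring

lemma fl_pow_le {p j : ℕ} (hp : p.Prime) (hj : j ≠ 0) (a : ℕ) {r : ℤ}
    (hr : IsCoprime r (p ^ j : ℕ)) :
    ‖fl (p ^ j) a r‖ ^ 2 ≤ 2 ^ 18 * Nat.gcd a (p ^ j) * (p ^ (j / 3)) ^ 2 / (p ^ j) ^ 3 := by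
  have hp0 := hp.pos
  have h0 := not_dvd_of_isCoprime hp (dvd_pow_self p hj) hr
  have e1 : ‖s2 (p ^ j) (6 * a * r)‖ ^ 2 ≤ 12 * Nat.gcd a (p ^ j) / (p ^ j : ℕ) := by
    refine (norm_s2_sq_le (by positivity) _).trans ?_
    gcongr
    exact_mod_cast gcd_twelve_le (by positivity) hr a
  rw [fl, norm_mul, norm_mul, mul_pow, mul_pow]
  calc _ ≤ 12 * Nat.gcd a (p ^ j) / (p ^ j : ℕ) * (128 * (p : ℝ) ^ (j / 3) / p ^ j) *
        (128 * (p : ℝ) ^ (j / 3) / p ^ j) := by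
        gcongr
        exacts [s3_pow_le hp hj h0 _, s3_pow_le hp hj h0 _]
    _ = 196608 * Nat.gcd a (p ^ j) * (p ^ (j / 3)) ^ 2 / (p ^ j) ^ 3 := by push_cast; ring
    _ ≤ _ := by gcongr; norm_num

lemma fl_prime_le {p : ℕ} (hp : p.Prime) (a : ℕ) {r : ℤ} (hr : IsCoprime r p) :
    ‖fl p a r‖ ^ 2 ≤ 2 ^ 18 * Nat.gcd a p / p ^ 3 := by
  simpa using fl_pow_le hp one_ne_zero a (r := r) (by simpa using hr)

section
variable {a : ℤ} {q : ℕ} {B : ℝ}

lemma Aa_triv (hB0 : 0 ≤ B) (hB : ∀ r : ℤ, IsCoprime r q → ‖fl q a r‖ ^ 2 ≤ B) (m : ℤ) :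
    ‖Aa a q m‖ ^ 2 ≤ q ^ 2 * B := by
  refine (pow_le_pow_left₀ (norm_nonneg _) (norm_sum_le _ _) 2).trans
    (sq_sum_le_card_mul_sum_sq.trans ?_)
  rw [card_range, sq (q : ℝ), mul_assoc]
  gcongr
  refine (sum_le_card_nsmul _ _ B fun (r : ℕ) _ => ?_).trans (by simp)
  split_ifs with h
  · simpa using hB r h
  · simpa using hB0

lemma Aa_l2 (hq : 0 < q) (hB0 : 0 ≤ B) (hB : ∀ r : ℤ, IsCoprime r q → ‖fl q a r‖ ^ 2 ≤ B) :
    ∑ m ∈ range q, ‖Aa a q m‖ ^ 2 ≤ q ^ 2 * B := by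
  classical
  have h := orth_le hq (range q) (fun r => if IsCoprime (r : ℤ) q then fl q a r else 0)
    fun r => -(r : ℤ)
  refine le_trans (le_of_eq (sum_congr rfl fun m _ => by
    simp only [Aa, ite_mul, zero_mul, neg_mul, mul_comm (m : ℤ)])) (h.trans ?_)
  rw [sq, mul_assoc]
  gcongr
  refine (sum_le_card_nsmul _ _ B fun r hr => ?_).trans (by simp)
  rw [sum_eq_single_of_mem r hr fun s hs hne => if_neg fun h1 => ?_, if_pos (by simp), ← sq]
  · split_ifs with h1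
    · exact hB r h1
    · simpa using hB0
  · have := mem_range.1 hr
    have := mem_range.1 hs
    have := Int.eq_zero_of_dvd_of_natAbs_lt_natAbs h1 (by omega)
    omega

lemma Aa_mean (hq : 1 < q) : ∑ m ∈ range q, Aa a q m = 0 := by
  unfold Aa
  rw [sum_comm]
  refine sum_eq_zero fun r _ => ?_
  split_ifs with h
  · simp only [← neg_mul]
    rw [← mul_sum, sum_ec (by omega), if_neg fun h1 => ?_, mul_zero]
    have := Int.isUnit_iff.1 (h.isUnit_of_dvd' (dvd_neg.1 h1) dvd_rfl)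
    omega
  · simp

end

lemma card_six_roots {p : ℕ} (hp : p.Prime) {r : ℤ} (hr : ¬(p : ℤ) ∣ r) (s : ℤ) :
    #((range p).filter fun x : ℕ => (p : ℤ) ∣ r * x ^ 6 - s) ≤ 6 := by
  have := Fact.mk hp
  have hr0 : (r : ZMod p) ≠ 0 := fun h => hr ((ZMod.intCast_zmod_eq_zero_iff_dvd _ _).1 h)
  set f : Polynomial (ZMod p) :=
    Polynomial.C (r : ZMod p) * Polynomial.X ^ 6 - Polynomial.C (s : ZMod p) with hf
  have hdeg : f.natDegree = 6 := by
    rw [hf, Polynomial.natDegree_sub_C, Polynomial.natDegree_C_mul_X_pow _ _ hr0]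
  have hf0 : f ≠ 0 := fun h => by rw [h] at hdeg; simp at hdeg
  calc _ ≤ #f.roots.toFinset := by
        refine card_le_card_of_injOn (fun x => (x : ZMod p)) (fun x hx => ?_) fun x hx y hy h => ?_
        · have h1 := (ZMod.intCast_zmod_eq_zero_iff_dvd _ _).2 (mem_filter.1 hx).2
          push_cast at h1
          refine mem_coe.2 (Multiset.mem_toFinset.2 ((Polynomial.mem_roots hf0).2 ?_))
          simp [hf, h1]
        · have h1 := (ZMod.natCast_eq_natCast_iff' _ _ _).1 h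
          rwa [Nat.mod_eq_of_lt (mem_range.1 (mem_filter.1 hx).1),
            Nat.mod_eq_of_lt (mem_range.1 (mem_filter.1 hy).1)] at h1
    _ ≤ 6 := (Multiset.toFinset_card_le _).trans ((Polynomial.card_roots' f).trans hdeg.le)

lemma Aa_prime_le {p : ℕ} (hp : p.Prime) (a m : ℕ) :
    ‖Aa a p m‖ ^ 2 ≤ 2 ^ 22 * Nat.gcd a p * Nat.gcd m p / p ^ 2 := by
  classical
  have hp2 : (2 : ℝ) ≤ p := by exact_mod_cast hp.two_le
  obtain ⟨B, hB⟩ : ∃ B : ℝ, B = 2 ^ 18 * Nat.gcd a p / p ^ 3 := ⟨_, rfl⟩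
  have hB0 : 0 ≤ B := by rw [hB]; positivity
  have hB1 : ∀ r : ℤ, IsCoprime r p → ‖fl p a r‖ ^ 2 ≤ B := fun r hr => hB ▸ fl_prime_le hp a hr
  rw [show 2 ^ 22 * (Nat.gcd a p : ℝ) * Nat.gcd m p / p ^ 2 = 16 * (p * Nat.gcd m p * B) by
    rw [hB]; field_simp; ring]
  by_cases hm : p ∣ m
  · have := Aa_triv hB0 hB1 m
    rw [Nat.gcd_eq_right hm, ← sq]
    linarith [show 0 ≤ (p : ℝ) ^ 2 * B by positivity]
  rw [(hp.coprime_iff_not_dvd.2 hm).symm.gcd_eq_one, Nat.cast_one, mul_one]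
  set i : ℕ → ℕ := fun t => (((m : ℤ) * t ^ 6) % p).toNat with hi0
  have hi : ∀ t, (i t : ℤ) = (m * t ^ 6) % p := fun x =>
    Int.toNat_of_nonneg (Int.emod_nonneg _ (by have := hp.pos; omega))
  have hmap : ∀ t ∈ (range p).erase 0, i t ∈ range p := fun t _ => by
    have := Int.emod_lt_of_pos (m * t ^ 6) (by have := hp.pos; omega : (0 : ℤ) < p)
    rw [← hi] at this
    exact mem_range.2 (by omega)
  have h3 : ∑ t ∈ (range p).erase 0, ‖Aa a p (i t)‖ ^ 2 ≤ 6 * ∑ s ∈ range p, ‖Aa a p s‖ ^ 2 := by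
    rw [← sum_fiberwise_of_maps_to hmap, mul_sum]
    refine sum_le_sum fun s _ => ?_
    rw [sum_congr rfl (g := fun _ => ‖Aa a p s‖ ^ 2) fun t ht => by rw [(mem_filter.1 ht).2],
      sum_const, nsmul_eq_mul]
    gcongr
    refine le_trans ?_ (Nat.cast_le.2 (card_six_roots hp (r := m) (by exact_mod_cast hm) s))
    refine Nat.cast_le.2 (card_le_card fun t ht => ?_)
    obtain ⟨h4, h5⟩ := mem_filter.1 ht
    refine mem_filter.2 ⟨(mem_erase.1 h4).2, ?_⟩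
    rw [← h5, hi]
    exact (Int.mod_modEq _ _).dvd
  have h4 : ∀ t ∈ (range p).erase 0, ‖Aa a p (i t)‖ ^ 2 = ‖Aa a p m‖ ^ 2 := by
    intro t ht
    have h2 : IsCoprime (t : ℤ) p := isCoprime_of_not_dvd hp fun h => by
      have h3 := mem_erase.1 ht
      have := Nat.le_of_dvd (by omega) (Int.natCast_dvd_natCast.1 h)
      have := mem_range.1 h3.2
      omega
    rw [hi, per_Aa a p _ _ (Int.mod_modEq _ _), Aa, Aa,
      ← sum_affine (per_fl a p m) (h2.pow_left (m := 6)) 0]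
    congr 2
    refine sum_congr rfl fun r _ => ?_
    simp only [add_zero, IsCoprime.mul_left_iff, h2.pow_left, true_and, fl_six h2]
    congr 3; ring
  rw [sum_congr rfl h4, sum_const, card_erase_of_mem (mem_range.2 hp.pos), card_range, nsmul_eq_mul,
    Nat.cast_sub hp.one_le, Nat.cast_one] at h3
  have h5 := Aa_l2 hp.pos hB0 hB1
  have h6 : p * ‖Aa a p m‖ ^ 2 ≤ p * (16 * (p * B)) := by
    nlinarith [sq_nonneg ‖Aa a p m‖, show 0 ≤ (p : ℝ) ^ 2 * B by positivity]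
  exact le_of_mul_le_mul_left h6 (by linarith)

lemma Aa_supp {p j : ℕ} (hp : p.Prime) (h6 : ¬p ∣ 6) (hj : 2 ≤ j) {a m : ℤ}
    (h : Aa a (p ^ j) m ≠ 0) : (p : ℤ) ^ j ∣ m ^ 3 := by
  classical
  obtain ⟨l, hl⟩ : ∃ l, l = j / 2 := ⟨_, rfl⟩
  obtain ⟨k, rfl⟩ : ∃ k, j = l + k + l := ⟨j - 2 * l, by omega⟩
  suffices h1 : (p : ℤ) ^ l ∣ m from
    (pow_dvd_pow _ (by omega : l + k + l ≤ l * 3)).trans (pow_mul (p : ℤ) l 3 ▸ pow_dvd_pow_of_dvd h1 3)
  by_contra h1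
  have hp0 := hp.pos
  have hd : ∀ y : ℤ, (p : ℤ) ∣ p ^ (l + k) * y := fun y => (dvd_pow_self _ (by omega)).mul_right _
  have hcop : ∀ r : ℤ, IsCoprime r (p ^ (l + k + l) : ℕ) ↔ ¬(p : ℤ) ∣ r := fun r =>
    ⟨not_dvd_of_isCoprime hp (dvd_pow_self _ (by omega)), fun h => by
      push_cast; exact (isCoprime_of_not_dvd hp h).pow_right⟩
  refine h (sum_vanish (p := p ^ l) (by positivity) (per_fl a _ m) (p ^ (l + k))
    (fun _ => -m) (fun r y => ?_) fun _ _ h2 => h1 (by exact_mod_cast dvd_neg.1 h2))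
  simp only [hcop, dvd_add_left (hd y)]
  split_ifs with h2
  · simp
  obtain ⟨w, v, hw⟩ := (hcop (6 * r)).2 fun h3 => ((Nat.prime_iff_prime_int.1 hp).dvd_or_dvd h3).elim
    (fun h4 => h6 (by exact_mod_cast h4)) h2
  obtain ⟨s, hs⟩ : ∃ s : ℤ, s = p ^ (l + k) * (w * y) := ⟨_, rfl⟩
  have h3 : IsCoprime (1 + s) (p ^ (l + k + l) : ℕ) := (hcop _).2 fun h3 => hp.not_dvd_one (by
    exact_mod_cast (dvd_add_left (hs ▸ hd _)).1 h3)
  have h4 : (1 + s) ^ 6 * r ≡ r + p ^ (l + k) * y [ZMOD (p ^ (l + k + l) : ℕ)] := by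
    refine Int.modEq_iff_dvd.2 ⟨p ^ (l + k) * y * v - p ^ k * (w * y) ^ 2 *
      (15 + 20 * s + 15 * s ^ 2 + 6 * s ^ 3 + s ^ 4) * r, ?_⟩
    push_cast at hw ⊢
    have h5 : s ^ 2 = p ^ (l + k + l) * (p ^ k * (w * y) ^ 2) := by rw [hs]; ring
    linear_combination (-(p : ℤ) ^ (l + k) * y) * hw - 6 * r * hs -
      (15 + 20 * s + 15 * s ^ 2 + 6 * s ^ 3 + s ^ 4) * r * h5
  rw [← fl_congr a h4, fl_six h3, ← ec_mul_left (k := p ^ (l + k)) (by positivity) (p ^ l),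
    ← pow_add, mul_assoc, ← ec_add]
  congr 2
  push_cast; ring

theorem Aa_decomp (a : ℕ) : ∀ q : ℕ, q ≠ 0 → ∃ q₂ q₁ : ℕ, q = q₂ * q₁ ∧ q₂.Coprime q₁ ∧
    Squarefree q₁ ∧ q₁.Coprime (6 * a) ∧ ∀ m : ℕ, Aa a q₂ m ≠ 0 → q₂ ∣ 432 * a * m ^ 3 ∧
      ‖Aa a q₂ m‖ ^ 6 * q₂ ≤ (2 ^ 66) ^ #q₂.primeFactors * Nat.gcd (Nat.gcd a m) q₂ := by
  intro q
  induction q using Nat.recOnPosPrimePosCoprime with
  | zero => simp
  | one => exact fun _ => ⟨1, 1, rfl, by simp, by simp, by simp, fun m _ => by simp [Aa_one]⟩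
  | prime_pow p k hp hk =>
    intro _
    have hp1 : (1 : ℝ) ≤ p := by exact_mod_cast hp.one_le
    by_cases h1 : k = 1 ∧ ¬p ∣ 6 * a
    · exact ⟨1, p, by simp [h1.1], by simp, hp.squarefree, hp.coprime_iff_not_dvd.2 h1.2,
        fun m _ => by simp [Aa_one]⟩
    refine ⟨p ^ k, 1, by simp, by simp, by simp, by simp, fun m hm => ?_⟩
    rw [Nat.primeFactors_prime_pow hk.ne' hp, card_singleton, pow_one]
    have hg : ∀ x, (1 : ℝ) ≤ Nat.gcd x (p ^ k) := fun x => by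
      exact_mod_cast Nat.gcd_pos_of_pos_right x (pow_pos hp.pos k)
    rcases eq_or_ne k 1 with rfl | h2
    · have h3 : p ∣ 6 * a := by simpa using h1
      simp only [pow_one] at hg ⊢
      refine ⟨(h3.trans ⟨72, by ring⟩).mul_right _, ?_⟩
      have h4 : (Nat.gcd a p * Nat.gcd m p : ℝ) ^ 3 ≤ Nat.gcd (Nat.gcd a m) p * p ^ 5 := by
        have e1 : ∀ x, (Nat.gcd x p : ℝ) ≤ p := fun x => by
          exact_mod_cast Nat.gcd_le_right x hp.pos
        have e2 : (p : ℝ) ^ 3 ≤ Nat.gcd (Nat.gcd a m) p * p ^ 5 :=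
          (pow_le_pow_right₀ hp1 (by norm_num)).trans (le_mul_of_one_le_left (by positivity) (hg _))
        by_cases h5 : p ∣ a
        · by_cases h6 : p ∣ m
          · rw [Nat.gcd_eq_right h5, Nat.gcd_eq_right h6, Nat.gcd_eq_right (Nat.dvd_gcd h5 h6)]
            exact le_of_eq (by ring)
          · rw [(hp.coprime_iff_not_dvd.2 h6).symm.gcd_eq_one, Nat.cast_one, mul_one]
            exact le_trans (pow_le_pow_left₀ (by positivity) (e1 _) 3) e2
        · rw [(hp.coprime_iff_not_dvd.2 h5).symm.gcd_eq_one, Nat.cast_one, one_mul]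
          exact le_trans (pow_le_pow_left₀ (by positivity) (e1 _) 3) e2
      calc _ = (‖Aa a p m‖ ^ 2) ^ 3 * p := by ring
        _ ≤ (2 ^ 22 * Nat.gcd a p * Nat.gcd m p / p ^ 2) ^ 3 * p := by
            gcongr; exact Aa_prime_le hp a m
        _ = 2 ^ 66 * ((Nat.gcd a p * Nat.gcd m p : ℝ) ^ 3 / p ^ 5) := by field_simp
        _ ≤ _ := by gcongr; rwa [div_le_iff₀ (by positivity)]
    have h3 := Aa_triv (by positivity) (fun r hr => fl_pow_le hp hk.ne' a hr) m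
    by_cases h4 : p ∣ 6 * a
    · obtain ⟨rfl, rfl⟩ : p = 3 ∧ k = 2 := by
        by_contra h5
        refine hm (sum_eq_zero fun r _ => ?_)
        split_ifs with h6
        · rw [fl, s3_pow_vanish hp (by omega) (not_dvd_of_isCoprime hp (dvd_pow_self p hk.ne') h6)
            (by exact_mod_cast h4)]
          simp
        · rfl
      refine ⟨⟨48 * a * m ^ 3, by ring⟩, le_trans ?_ (le_mul_of_one_le_right (by positivity) (hg _))⟩
      have h5 : (Nat.gcd a (3 ^ 2) : ℝ) ≤ 9 := by exact_mod_cast Nat.gcd_le_right _ (by norm_num)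
      have h6 : ‖Aa a (3 ^ 2) m‖ ^ 2 ≤ 2 ^ 18 := h3.trans (by
        generalize (Nat.gcd a (3 ^ 2) : ℝ) = g at h5
        norm_num
        linarith)
      calc _ = (‖Aa a (3 ^ 2) m‖ ^ 2) ^ 3 * 9 := by push_cast; ring
        _ ≤ (2 ^ 18) ^ 3 * 9 := by gcongr
        _ ≤ _ := by norm_num
    · refine ⟨Dvd.dvd.mul_left (by
        exact_mod_cast Aa_supp hp (fun h => h4 (h.mul_right a)) (by omega) hm) _,
        le_trans ?_ (le_mul_of_one_le_right (by positivity) (hg _))⟩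
      rw [((hp.coprime_iff_not_dvd.2 fun h => h4 (h.mul_left 6)).pow_left k).symm.gcd_eq_one] at h3
      have h5 : ((p : ℝ) ^ (k / 3)) ^ 3 ≤ p ^ k := by
        rw [← pow_mul]; exact pow_le_pow_right₀ hp1 (by omega)
      calc _ = (‖Aa a (p ^ k) m‖ ^ 2) ^ 3 * p ^ k := by push_cast; ring
        _ ≤ _ := mul_le_mul_of_nonneg_right (pow_le_pow_left₀ (by positivity) h3 3) (by positivity)
        _ = 2 ^ 54 * ((((p : ℝ) ^ (k / 3)) ^ 3) ^ 2 / (p ^ k) ^ 2) := by push_cast; field_simp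
        _ ≤ 2 ^ 66 * 1 := by
            gcongr
            · norm_num
            · norm_num
            · rw [div_le_one (by positivity)]; gcongr
        _ = _ := mul_one _
  | coprime b c hb hc hbc ihb ihc =>
    intro _
    obtain ⟨b₂, b₁, rfl, h1, h2, h3, h4⟩ := ihb (by omega)
    obtain ⟨c₂, c₁, rfl, k1, k2, k3, k4⟩ := ihc (by omega)
    have e1 : b₂.Coprime c₂ := hbc.coprime_mul_right.coprime_mul_right_right
    refine ⟨b₂ * c₂, b₁ * c₁, by ring, (h1.mul_right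
      hbc.coprime_mul_right.coprime_mul_left_right).mul_left
      (hbc.coprime_mul_left.coprime_mul_right_right.symm.mul_right k1),
      (Nat.squarefree_mul hbc.coprime_mul_left.coprime_mul_left_right).2 ⟨h2, k2⟩,
      h3.mul_left k3, fun m hm => ?_⟩
    rw [Aa_mul _ _ e1] at hm ⊢
    obtain ⟨h5, h6⟩ := h4 m (left_ne_zero_of_mul hm)
    obtain ⟨k5, k6⟩ := k4 m (right_ne_zero_of_mul hm)
    refine ⟨e1.mul_dvd_of_dvd_of_dvd h5 k5, ?_⟩
    rw [e1.primeFactors_mul, card_union_of_disjoint e1.disjoint_primeFactors, pow_add,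
      Nat.Coprime.gcd_mul _ e1, norm_mul]
    refine le_trans (le_of_eq ?_) ((mul_le_mul h6 k6 (by positivity) (by positivity)).trans
      (le_of_eq ?_)) <;> push_cast <;> ring

end Pool.Agent.Lib.MP_786755_nt
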