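import Pool.Agent.Lib.MP_786755_nt.W.Hua
import Pool.Agent.Lib.MP_786755_nt.W.Comp
import Pool.Agent.Lib.MP_786755_nt.Low

/-! The sixth moment of the sum over `a` on the arcs with large denominators. -/

namespace Pool.Agent.Lib.MP_786755_nt

open Finset Pool.Agent.Lib.MP_028aa5_nt MeasureTheory

lemma wt_expand {a M : ℕ} (ha : a ≠ 0) (hM : 6 * a ≤ M) (z : ℕ) : (wt a z : ℂ) =
    ∑ d ∈ (Icc 1 M).filter Squarefree, if d ∣ 6 * a ∧ d ∣ z then
      (ArithmeticFunction.moebius d : ℂ) * wt a 1 else 0 := by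
  have h1 := congrArg (fun f : ArithmeticFunction ℤ => (f (Nat.gcd (6 * a) z) : ℂ))
    ArithmeticFunction.moebius_mul_coe_zeta
  simp only [ArithmeticFunction.coe_mul_zeta_apply, ArithmeticFunction.one_apply, Int.cast_sum,
    Int.cast_ite, Int.cast_one, Int.cast_zero] at h1
  have h0 : Nat.gcd (6 * a) z ≠ 0 := (Nat.gcd_pos_of_pos_left _ (by omega)).ne'
  have h2 : ∑ d ∈ ((Icc 1 M).filter Squarefree).filter fun d => d ∣ 6 * a ∧ d ∣ z,
      (ArithmeticFunction.moebius d : ℂ) =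
      ∑ d ∈ (Nat.gcd (6 * a) z).divisors, (ArithmeticFunction.moebius d : ℂ) := by
    refine sum_subset (fun d hd => Nat.mem_divisors.2 ⟨Nat.dvd_gcd_iff.2 (mem_filter.1 hd).2, h0⟩)
      fun d hd h => ?_
    have h3 := Nat.dvd_gcd_iff.1 (Nat.dvd_of_mem_divisors hd)
    rw [ArithmeticFunction.moebius_eq_zero_of_not_squarefree fun h4 => h (mem_filter.2
      ⟨mem_filter.2 ⟨mem_Icc.2 ⟨Nat.pos_of_mem_divisors hd,
        (Nat.le_of_dvd (by omega) h3.1).trans hM⟩, h4⟩, h3⟩), Int.cast_zero]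
  have h3 : ∀ z : ℕ, wt a z = ∏ p ∈ (6 * a).primeFactors, wp p z := fun z => by
    unfold wt wq
    exact prod_congr rfl fun p hp => if_pos (by exact_mod_cast Nat.dvd_of_mem_primeFactors hp)
  rw [← sum_filter, ← sum_mul, h2, h1, h3, h3]
  split_ifs with h
  · rw [one_mul]
    refine congrArg _ (prod_congr rfl fun p hp => ?_)
    have hp' := Nat.prime_of_mem_primeFactors hp
    rw [wp, wp, if_neg fun h4 => hp'.not_dvd_one (h ▸ Nat.dvd_gcd (Nat.dvd_of_mem_primeFactors hp)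
      (by exact_mod_cast h4)), if_neg fun h4 => hp'.not_dvd_one (by exact_mod_cast h4)]
  · obtain ⟨p, hp, h4⟩ := Nat.exists_prime_and_dvd h
    have h5 := Nat.dvd_gcd_iff.1 h4
    rw [prod_eq_zero (Nat.mem_primeFactors.2 ⟨hp, h5.1, by omega⟩)
      (by rw [wp, if_pos (by exact_mod_cast h5.2)])]
    simp

/-- the cubic sum over multiples of `d` -/
noncomputable def gd (P d : ℕ) (α : ℝ) : ℂ := ∑ z ∈ (Ioc P (2 * P)).filter (d ∣ ·), e (α * z ^ 3)

/-- the sum of the squares of the products of cubic sums -/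
noncomputable def Zd (M P : ℕ) (α : ℝ) : ℝ := ∑ d ∈ Icc 1 M, ‖gd P d α * gc P α‖ ^ 2

@[fun_prop] lemma continuous_gd (P d : ℕ) : Continuous (gd P d) := by unfold gd; fun_prop

@[fun_prop] lemma continuous_Zd (M P : ℕ) : Continuous (Zd M P) := by unfold Zd; fun_prop

lemma card_gd (P d : ℕ) : (#((Ioc P (2 * P)).filter (d ∣ ·)) : ℝ) ≤ 2 * P * (1 / d) := by
  refine le_trans ?_ ((Nat.cast_div_le (m := 2 * P) (n := d)).trans (le_of_eq (by push_cast; ring)))
  rw [← Nat.Ioc_filter_dvd_card_eq_div]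
  exact Nat.cast_le.2 (card_le_card (filter_subset_filter _ (Ioc_subset_Ioc_left (Nat.zero_le _))))

theorem int_Zd {M P : ℕ} {E : ℝ} (hE : ∀ m, 1 ≤ m → m ≤ 16 * P ^ 3 → (#m.divisors : ℝ) ≤ E)
    (hE0 : 0 ≤ E) (hL : 1 + Real.log M ≤ E) (τ : ℝ) :
    ∫ α in τ..τ + 1, Zd M P α ≤ 4 * E ^ 2 * P ^ 2 := by
  unfold Zd
  rw [intervalIntegral.integral_finsetSum fun i _ => Continuous.intervalIntegrable (by fun_prop) _ _]
  have h1 : ∀ d, ∫ α in τ..τ + 1, ‖gd P d α * gc P α‖ ^ 2 ≤ 4 * E * P ^ 2 * (1 / d) := by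
    intro d
    set S := (Ioc P (2 * P)).filter (d ∣ ·) ×ˢ Ioc P (2 * P) with hS
    have hS' : S ⊆ Ioc P (2 * P) ×ˢ Ioc P (2 * P) := product_subset_product_left (filter_subset _ _)
    have e1 : ∀ α, gd P d α * gc P α = ∑ i ∈ S, 1 * e (α * ((i.1 ^ 3 + i.2 ^ 3 : ℕ) : ℤ)) :=
      fun α => by
        rw [gd, gc, sum_mul_sum, hS, sum_product]
        refine sum_congr rfl fun z _ => sum_congr rfl fun w _ => ?_
        push_cast
        rw [mul_add, e_add, one_mul]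
    simp only [e1]
    refine (int_sq_le S _ _ τ).trans ((sum_le_card_nsmul _ _ (2 * E) fun i hi => ?_).trans ?_)
    · obtain ⟨h1, h2⟩ := mem_product.1 (hS' hi)
      have h3 := mem_Ioc.1 h1
      have h5 : i.1 ^ 3 ≤ (2 * P) ^ 3 := Nat.pow_le_pow_left h3.2 3
      have h6 : i.2 ^ 3 ≤ (2 * P) ^ 3 := Nat.pow_le_pow_left (mem_Ioc.1 h2).2 3
      have h7 : 0 < i.1 ^ 3 := pow_pos (by omega) 3
      rw [show (2 * P) ^ 3 = 8 * P ^ 3 by ring] at h5 h6
      simp only [Nat.cast_inj, eq_comm (a := i.1 ^ 3 + i.2 ^ 3), norm_one, mul_one, sum_boole]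
      refine le_trans (Nat.cast_le.2 ((card_le_card (filter_subset_filter _ hS')).trans
        (card_two_cubes (m := i.1 ^ 3 + i.2 ^ 3) (by omega)))) ?_
      push_cast
      gcongr
      exact hE _ (by omega) (by omega)
    · rw [hS, card_product, Nat.card_Ioc, show 2 * P - P = P by omega, nsmul_eq_mul]
      calc _ ≤ 2 * P * (1 / d) * P * (2 * E) := by push_cast; gcongr; exact card_gd P d
        _ = _ := by ring
  refine (sum_le_sum fun d _ => h1 d).trans ?_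
  rw [← mul_sum]
  calc _ ≤ 4 * E * P ^ 2 * E := by gcongr; exact (sum_inv_le_log M).trans hL
    _ = _ := by ring

/-- the labels of the classes modulo `q` -/
noncomputable def Lb (q : ℕ) : Finset (ℕ × ℕ) := if h : q ≠ 0 then (exists_label h).choose else ∅

/-- the label of a class modulo `q` -/
noncomputable def lb (q : ℕ) : ℤ → ℕ × ℕ :=
  if h : q ≠ 0 then (exists_label h).choose_spec.choose else fun _ => 0

lemma lb_spec {q : ℕ} (h : q ≠ 0) : #(Lb q) ≤ #q.divisors * 4 ^ #q.primeFactors ∧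
    (∀ a, lb q a ∈ Lb q) ∧ ∀ a a', lb q a = lb q a' → Rel q a a' := by
  rw [Lb, lb, dif_pos h, dif_pos h]
  exact (exists_label h).choose_spec.choose_spec

lemma card_Lb {q : ℕ} (h : q ≠ 0) {E : ℝ} (hE : (#q.divisors : ℝ) ≤ E) : (#(Lb q) : ℝ) ≤ E ^ 3 := by
  have h1 : (#(Lb q) : ℝ) ≤ #q.divisors * 4 ^ #q.primeFactors := by exact_mod_cast (lb_spec h).1
  have h2 := one_le_of_div h hE
  have h3 := pow_omega_le h hE (c := 4) (k := 2) (by norm_num)
  calc _ ≤ E * E ^ 2 := h1.trans (by gcongr; exact_mod_cast h3)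
    _ = _ := by ring

/-- the pairs of a divisor and a label -/
noncomputable def Kq (A q : ℕ) : Finset (ℕ × ℕ × ℕ) := (Icc 1 (12 * A)).filter Squarefree ×ˢ Lb q

/-- the `a` with given divisor and label -/
noncomputable def cl (A q : ℕ) (k : ℕ × ℕ × ℕ) : Finset ℕ :=
  (Ioc A (2 * A)).filter fun a => k.1 ∣ 6 * a ∧ lb q a = k.2

/-- the sum over one class -/
noncomputable def Ad (A U q : ℕ) (r : ℤ) (β : ℝ) (k : ℕ × ℕ × ℕ) : ℂ :=
  ∑ a ∈ cl A q k, s2 q (6 * a * r) * Fq U a β * e ((r / q + β) * (2 * a ^ 3)) * wt a 1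

/-- the weighted sixth powers -/
noncomputable def Ys (A U P q : ℕ) (r : ℤ) (β : ℝ) : ℝ :=
  ∑ k ∈ Kq A q, ((k.1 : ℝ) / Nat.gcd k.1 q) ^ 3 * ‖Ad A U q r β k ^ 3 * gd P k.1 (r / q + β)‖ ^ 2

@[fun_prop] lemma continuous_Ys (A U P q : ℕ) (r : ℤ) : Continuous (Ys A U P q r) := by
  unfold Ys Ad; fun_prop

lemma Ys_nonneg (A U P q : ℕ) (r : ℤ) (β : ℝ) : 0 ≤ Ys A U P q r β :=
  sum_nonneg fun _ _ => by positivity

lemma Hs_split (A U P : ℕ) {q : ℕ} (hq : q ≠ 0) (r : ℤ) (β : ℝ) : Hs A U P q r β =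
    ∑ k ∈ Kq A q, (ArithmeticFunction.moebius k.1 : ℂ) * (Ad A U q r β k * gd P k.1 (r / q + β)) := by
  simp only [Hs, Ad, cl, gd, ga, sum_filter, sum_mul, mul_sum]
  rw [sum_comm, sum_comm (s := Kq A q)]
  refine sum_congr rfl fun z _ => ?_
  rw [sum_comm (s := Kq A q)]
  refine sum_congr rfl fun a ha => ?_
  have := mem_Ioc.1 ha
  rw [wt_expand (M := 12 * A) (by omega) (by omega), sum_mul, mul_sum, Kq, sum_product]
  refine sum_congr rfl fun d _ => ?_
  rw [sum_eq_single_of_mem _ ((lb_spec hq).2.1 a) fun l _ h => by simp [h.symm]]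
  by_cases h1 : d ∣ 6 * a <;> by_cases h2 : d ∣ z <;> simp [h1, h2]
  ring

theorem six_point {A U P q : ℕ} (hq : q ≠ 0) {E c : ℝ} (hE : (#q.divisors : ℝ) ≤ E)
    (hL : 1 + Real.log (12 * A : ℕ) ≤ E) (hc : 0 < c) (r : ℤ) (β : ℝ) :
    ‖Hs A U P q r β * gc P (r / q + β)‖ ^ 2 ≤ E ^ 5 * (E ^ 3 * c * Zd (12 * A) P (r / q + β) +
      ‖gc P (r / q + β)‖ ^ 2 * Ys A U P q r β / c ^ 2) := by
  have hE1 := one_le_of_div hq hE
  set α := (r : ℝ) / q + β
  set w : ℕ → ℝ := fun d => (d : ℝ) / Nat.gcd d q with hw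
  have hw0 : ∀ k ∈ Kq A q, 0 < w k.1 := fun k hk => by
    have := (mem_Icc.1 (mem_filter.1 (mem_product.1 hk).1).1).1
    have := Nat.gcd_pos_of_pos_left q this
    positivity
  have h1 : ‖Hs A U P q r β * gc P α‖ ≤ ∑ k ∈ Kq A q, ‖Ad A U q r β k * gd P k.1 α * gc P α‖ := by
    rw [Hs_split A U P hq, sum_mul]
    refine (norm_sum_le _ _).trans (sum_le_sum fun k _ => ?_)
    rw [mul_assoc, norm_mul, Complex.norm_intCast]
    exact mul_le_of_le_one_left (norm_nonneg _)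
      (by exact_mod_cast ArithmeticFunction.abs_moebius_le_one)
  have h2 := sum_sq_le_sum_mul_sum_of_sq_le_mul (Kq A q)
    (r := fun k => ‖Ad A U q r β k * gd P k.1 α * gc P α‖) (f := fun k => (w k.1)⁻¹)
    (g := fun k => w k.1 * ‖Ad A U q r β k * gd P k.1 α * gc P α‖ ^ 2)
    (fun k hk => (inv_pos.2 (hw0 k hk)).le) (fun k hk => mul_nonneg (hw0 k hk).le (sq_nonneg _))
    fun k hk => (inv_mul_cancel_left₀ (hw0 k hk).ne' _).ge
  have h3 : ∀ f : ℕ → ℝ, (∀ d, 0 ≤ f d) → ∑ k ∈ Kq A q, f k.1 ≤ E ^ 3 * ∑ d ∈ Icc 1 (12 * A), f d :=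
    fun f hf => by
      rw [Kq, sum_product_right]
      simp only [sum_const, nsmul_eq_mul]
      exact mul_le_mul (card_Lb hq hE) (sum_le_sum_of_subset_of_nonneg (filter_subset _ _)
        fun _ _ _ => hf _) (sum_nonneg fun _ _ => hf _) (by positivity)
  refine ((pow_le_pow_left₀ (norm_nonneg _) h1 2).trans h2).trans (mul_le_mul ?_ ?_
    (sum_nonneg fun k hk => mul_nonneg (hw0 k hk).le (sq_nonneg _)) (by positivity))
  · refine (h3 (fun d => (w d)⁻¹) fun d => by positivity).trans ?_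
    simp only [hw, inv_div]
    have := Real.log_natCast_nonneg (12 * A)
    calc _ ≤ E ^ 3 * (E * E) := by gcongr; exact (sum_gcd_div hq _).trans (by gcongr)
      _ = _ := by ring
  · refine le_trans ?_ (add_le_add_left (b := c * ∑ k ∈ Kq A q, ‖gd P k.1 α * gc P α‖ ^ 2) ?_ _)
    · rw [Ys, mul_sum, mul_sum, sum_div, ← sum_add_distrib]
      refine sum_le_sum fun k hk => ?_
      simp only [norm_mul, norm_pow]
      have e1 := hw0 k hk
      set y := w k.1 * ‖Ad A U q r β k‖ ^ 2 with hy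
      have e2 : y ≤ c + y ^ 3 / c ^ 2 := by
        rcases le_total y c with h | h
        · exact le_add_of_le_of_nonneg h (by positivity)
        · refine le_add_of_nonneg_of_le hc.le ?_
          rw [le_div_iff₀ (by positivity), pow_succ' y]
          gcongr
      calc _ = y * (‖gd P k.1 α‖ * ‖gc P α‖) ^ 2 := by rw [hy]; ring
        _ ≤ (c + y ^ 3 / c ^ 2) * (‖gd P k.1 α‖ * ‖gc P α‖) ^ 2 := by gcongr
        _ = _ := by rw [hy]; ring
    · rw [mul_comm _ c, mul_assoc]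
      gcongr
      exact h3 (fun d => ‖gd P d α * gc P α‖ ^ 2) fun d => by positivity

end Pool.Agent.Lib.MP_786755_nt
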