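import Pool.Agent.Lib.MP_786755_nt.W.Sa
import Pool.Agent.Lib.MP_786755_nt.W.Mom
import Pool.Agent.Lib.MP_786755_nt.W.Comp

/-! The tail of the singular series for a fixed value of `a`. -/

namespace Pool.Agent.Lib.MP_786755_nt

open Finset Pool.Agent.Lib.MP_028aa5_nt

lemma Aa_sqfree_le (a m : ℕ) (T : Finset ℕ) (hT : ∀ p ∈ T, p.Prime ∧ ¬p ∣ a) :
    ‖Aa a (∏ p ∈ T, p) m‖ ≤ (2 ^ 11) ^ #T * (Nat.gcd (∏ p ∈ T, p) m / (∏ p ∈ T, p : ℕ)) := by
  induction T using Finset.induction_on with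
  | empty => simp [Aa_one]
  | insert p T hp ih =>
    have h1 := fun l hl => hT l (mem_insert_of_mem hl)
    obtain ⟨h2, h3⟩ := hT p (mem_insert_self _ _)
    have h4 : p.Coprime (∏ l ∈ T, l) := Nat.Coprime.prod_right fun l hl =>
      (Nat.coprime_primes h2 (h1 l hl).1).2 fun h => hp (h ▸ hl)
    have h5 : ‖Aa a p m‖ ≤ 2 ^ 11 * (Nat.gcd m p / p) := by
      refine (pow_le_pow_iff_left₀ (norm_nonneg _) (by positivity) two_ne_zero).1
        ((Aa_prime_le h2 a m).trans ?_)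
      have : (1 : ℝ) ≤ Nat.gcd m p := by exact_mod_cast Nat.gcd_pos_of_pos_right m h2.pos
      rw [(h2.coprime_iff_not_dvd.2 h3).symm.gcd_eq_one]
      calc _ = 2 ^ 22 * ((Nat.gcd m p : ℝ) * 1) / p ^ 2 := by push_cast; ring
        _ ≤ 2 ^ 22 * ((Nat.gcd m p : ℝ) * Nat.gcd m p) / p ^ 2 := by gcongr
        _ = _ := by ring
    rw [prod_insert hp, Aa_mul _ _ h4, norm_mul, card_insert_of_notMem hp, Nat.gcd_comm,
      Nat.Coprime.gcd_mul _ h4, Nat.gcd_comm m (∏ l ∈ T, l)]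
    refine (mul_le_mul h5 (ih h1) (norm_nonneg _) (by positivity)).trans (le_of_eq ?_)
    push_cast
    ring

theorem tail_bound {a Y Q k M H : ℕ} {E : ℝ} (hE : ∀ m, 1 ≤ m → m ≤ M → (#m.divisors : ℝ) ≤ E)
    (hL : ∀ m : ℕ, 1 ≤ m → m ≤ M → 1 + Real.log m ≤ E) (ha : 1 ≤ a) (hY : 1 ≤ Y) (hk : 1 ≤ k)
    (hQ1 : 1 ≤ Q) (hQ : Q ^ 8 ≤ M) (hH : 432 * a * H ^ 3 ≤ M) :
    ∃ T : ℕ → ℝ, (∀ n, 0 ≤ T n) ∧ (∀ n : ℕ, 2 * a ^ 3 < n → n ≤ H →
      ‖∑ q ∈ Ioc Y Q, Aa a q (n - 2 * a ^ 3)‖ ≤ T n + E ^ 25 * Nat.gcd a n / k) ∧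
      ∑ n ∈ Ioc 0 H, T n ^ 8 ≤ E ^ 169 * (H * k ^ 72 / Y ^ 4 + 2 * k ^ 48 * Q ^ 8) := by
  classical
  choose! f₂ f₁ h1 h2 h3 h4 h5 using Aa_decomp a
  have hQM : Q ≤ M := (Nat.le_self_pow (by norm_num) Q).trans hQ
  have hE1 : 1 ≤ E := by simpa using hL 1 le_rfl (hQ1.trans hQM)
  have hk0 : (0 : ℝ) < k := by exact_mod_cast hk
  set S : ℕ → Finset ℕ := fun d => ((Ioc Y Q).filter fun q => f₂ q = d).image f₁ with hS
  have hS1 : ∀ d, ∀ s ∈ S d, Squarefree s ∧ s.Coprime (6 * a) ∧ Y < d * s ∧ s ∈ Icc 1 Q := by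
    intro d s hs
    obtain ⟨q, hq, rfl⟩ := mem_image.1 hs
    obtain ⟨h6, rfl⟩ := mem_filter.1 hq
    have h7 := mem_Ioc.1 h6
    have h8 := h1 q (by omega)
    exact ⟨h3 q (by omega), h4 q (by omega), h8 ▸ h7.1, mem_Icc.2
      ⟨Nat.pos_of_ne_zero (h3 q (by omega)).ne_zero,
        (Nat.le_of_dvd (by omega) (Dvd.intro_left _ h8.symm)).trans h7.2⟩⟩
  have hω : ∀ s ∈ Icc 1 Q, ∀ j : ℕ, ((2 : ℝ) ^ j) ^ #s.primeFactors ≤ E ^ j := fun s hs j => by
    have := mem_Icc.1 hs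
    exact_mod_cast pow_omega_le (by omega) (hE s this.1 (this.2.trans hQM)) (c := 2 ^ j) le_rfl
  have hmap : ∀ q ∈ Ioc Y Q, f₂ q ∈ Icc 1 Q := fun q hq => by
    have h7 := mem_Ioc.1 hq
    have h8 : f₂ q ∣ q := Dvd.intro _ (h1 q (by omega)).symm
    exact mem_Icc.2 ⟨Nat.pos_of_dvd_of_pos h8 (by omega), (Nat.le_of_dvd (by omega) h8).trans h7.2⟩
  refine ⟨fun n => E ^ 11 * ∑ d ∈ Icc 1 (k ^ 6), ‖∑ s ∈ S d, Aa a s (n + -(2 * a ^ 3))‖,
    fun n => by positivity, fun n hn hn' => ?_, ?_⟩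
  · obtain ⟨m, rfl⟩ : ∃ m, n = m + 2 * a ^ 3 := ⟨n - 2 * a ^ 3, by omega⟩
    have e0 : ((m + 2 * a ^ 3 : ℕ) : ℤ) - 2 * a ^ 3 = m := by push_cast; ring
    have e1 : Nat.gcd a (m + 2 * a ^ 3) = Nat.gcd a m := by
      rw [show 2 * a ^ 3 = a * (2 * a ^ 2) by ring, Nat.gcd_add_mul_left_right]
    have hm : 432 * a * m ^ 3 ≤ M := le_trans (by gcongr; omega) hH
    have hm0 : 0 < m := by omega
    have hg : (1 : ℝ) ≤ Nat.gcd a m := by exact_mod_cast Nat.gcd_pos_of_pos_left m ha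
    simp only [← sub_eq_add_neg, e0, e1]
    have e2 : ∑ q ∈ Ioc Y Q, Aa a q m = ∑ d ∈ Icc 1 Q, Aa a d m * ∑ s ∈ S d, Aa a s m := by
      rw [← sum_fiberwise_of_maps_to hmap]
      refine sum_congr rfl fun d _ => ?_
      rw [sum_image fun q hq q' hq' h => ?_, mul_sum]
      · refine sum_congr rfl fun q hq => ?_
        obtain ⟨h6, rfl⟩ := mem_filter.1 hq
        have := mem_Ioc.1 h6
        rw [← Aa_mul _ _ (h2 q (by omega)), ← h1 q (by omega)]
      · obtain ⟨h6, h7⟩ := mem_filter.1 (mem_coe.1 hq)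
        obtain ⟨h8, h9⟩ := mem_filter.1 (mem_coe.1 hq')
        have := mem_Ioc.1 h6
        have := mem_Ioc.1 h8
        rw [h1 q (by omega), h1 q' (by omega), h, h7, h9]
    have e3 : ∀ d, ‖∑ s ∈ S d, Aa a s m‖ ≤ E ^ 13 := fun d => by
      refine (norm_sum_le _ _).trans ((sum_le_sum (g := fun s => E ^ 11 * ((Nat.gcd s m : ℝ) / s))
        fun s hs => ?_).trans ?_)
      · obtain ⟨h6, h7, -, h8⟩ := hS1 d s hs
        have := Aa_sqfree_le a m s.primeFactors fun p hp => ⟨Nat.prime_of_mem_primeFactors hp,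
          fun h => (Nat.prime_of_mem_primeFactors hp).not_dvd_one (h7 ▸ Nat.dvd_gcd
            (Nat.dvd_of_mem_primeFactors hp) (h.mul_left 6))⟩
        rw [Nat.prod_primeFactors_of_squarefree h6] at this
        exact this.trans (by gcongr; exact hω s h8 11)
      rw [← mul_sum]
      have := Real.log_natCast_nonneg Q
      calc _ ≤ E ^ 11 * (E * E) := by
            gcongr
            refine (sum_le_sum_of_subset_of_nonneg (fun s hs => (hS1 d s hs).2.2.2)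
              fun _ _ _ => by positivity).trans ((sum_gcd_div hm0.ne' Q).trans ?_)
            gcongr
            · refine hE m hm0 (le_trans ?_ hm)
              exact (Nat.le_self_pow three_ne_zero m).trans (Nat.le_mul_of_pos_left _ (by omega))
            · exact hL Q hQ1 hQM
        _ = _ := by ring
    have e4 : ∀ d ∈ Icc 1 Q, ‖Aa a d m * ∑ s ∈ S d, Aa a s m‖ ≤
        (if d ≤ k ^ 6 then E ^ 11 * ‖∑ s ∈ S d, Aa a s m‖ else 0) +
        if d ∣ 432 * a * m ^ 3 then E ^ 24 * Nat.gcd a m / k else 0 := fun d hd => by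
      by_cases h0 : Aa a d m * ∑ s ∈ S d, Aa a s m = 0
      · rw [h0, norm_zero]; positivity
      obtain ⟨s, hs⟩ := nonempty_of_sum_ne_zero (right_ne_zero_of_mul h0)
      obtain ⟨q, hq, -⟩ := mem_image.1 hs
      obtain ⟨h6, rfl⟩ := mem_filter.1 hq
      have := mem_Ioc.1 h6
      obtain ⟨h7, h8⟩ := h5 q (by omega) m (left_ne_zero_of_mul h0)
      have h9 : (0 : ℝ) < f₂ q := by exact_mod_cast (mem_Icc.1 hd).1
      have h10 := h8.trans (mul_le_mul_of_nonneg_right (hω _ hd 66) (by positivity))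
      rw [norm_mul, if_pos h7]
      split_ifs with h
      · refine le_add_of_le_of_nonneg (mul_le_mul_of_nonneg_right ((pow_le_pow_iff_left₀
          (norm_nonneg _) (by positivity) (by norm_num : 6 ≠ 0)).1
          (le_of_mul_le_mul_right (h10.trans ?_) h9)) (norm_nonneg _)) (by positivity)
        rw [← pow_mul]
        gcongr
        exact Nat.gcd_le_right _ (mem_Icc.1 hd).1
      · have h11 : ‖Aa a (f₂ q) m‖ ≤ E ^ 11 * Nat.gcd a m / k := by
          refine (pow_le_pow_iff_left₀ (norm_nonneg _) (by positivity) (by norm_num : 6 ≠ 0)).1 ?_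
          rw [div_pow, le_div_iff₀ (by positivity), mul_pow, ← pow_mul]
          refine le_trans (by gcongr; exact_mod_cast (not_le.1 h).le) (h10.trans ?_)
          gcongr
          exact le_trans (by exact_mod_cast Nat.gcd_le_left _ (by exact_mod_cast hg))
            (le_self_pow₀ hg (by norm_num))
        rw [zero_add]
        exact (mul_le_mul h11 (e3 _) (norm_nonneg _) (by positivity)).trans (le_of_eq (by ring))
    rw [e2]
    refine (norm_sum_le _ _).trans ((sum_le_sum e4).trans ?_)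
    rw [sum_add_distrib, ← sum_filter, ← sum_filter, mul_sum, sum_const, nsmul_eq_mul]
    refine add_le_add (sum_le_sum_of_subset_of_nonneg (fun d hd => mem_Icc.2
      ⟨(mem_Icc.1 (mem_filter.1 hd).1).1, (mem_filter.1 hd).2⟩) fun _ _ _ => by positivity) ?_
    calc _ ≤ E * (E ^ 24 * Nat.gcd a m / k) := by
          gcongr
          exact le_trans (Nat.cast_le.2 (card_le_card fun d hd => Nat.mem_divisors.2
            ⟨(mem_filter.1 hd).2, by positivity⟩)) (hE _ (Nat.succ_le_of_lt (by positivity)) hm)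
      _ = _ := by ring
  have hY0 : (0 : ℝ) < Y := by exact_mod_cast hY
  have e1 : ∀ d ∈ Icc 1 (k ^ 6), ∑ n ∈ Ioc 0 H, ‖∑ s ∈ S d, Aa a s (n + -(2 * a ^ 3))‖ ^ 8 ≤
      (E ^ 9) ^ 8 * (E ^ 9 * H / (Y / k ^ 6) ^ 4 + 2 * Q ^ 8) := fun d hd => by
    refine moment (g := Aa a) (c := 2 ^ 9) (by positivity) (by positivity) (by positivity)
      (fun s hs => (hS1 d s hs).2.2.2) (fun m h1 h2 => hE m h1 (h2.trans hQ)) (by positivity)
      (hL _ (Nat.one_le_pow _ _ hQ1) hQ) (fun s hs => ?_) H _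
    obtain ⟨h6, h7, h8, h9⟩ := hS1 d s hs
    refine ⟨h6, ?_, hω s h9 9, fun x => ?_, fun p hp => ?_⟩
    · rw [div_le_iff₀' (by positivity)]
      exact_mod_cast h8.le.trans (Nat.mul_le_mul_right _ (mem_Icc.1 hd).2)
    · rw [← Aa_prod _ _ _ fun p hp => Nat.prime_of_mem_primeFactors hp,
        Nat.prod_primeFactors_of_squarefree h6]
    have h10 := Nat.prime_of_mem_primeFactors hp
    have h11 : (0 : ℝ) < p := by exact_mod_cast h10.pos
    have h12 : ∀ r : ℤ, IsCoprime r p → ‖fl p a r‖ ^ 2 ≤ 2 ^ 18 / p ^ 3 := fun r hr => by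
      have := fl_prime_le h10 a hr
      rwa [((h7.coprime_dvd_left (Nat.dvd_of_mem_primeFactors hp)).coprime_mul_left_right).symm,
        Nat.cast_one, mul_one] at this
    have h13 : (p : ℝ) ^ 2 * (2 ^ 18 / p ^ 3) = (2 ^ 9) ^ 2 / p := by field_simp
    refine ⟨per_Aa a p, Aa_mean h10.one_lt, fun x => (pow_le_pow_iff_left₀ (norm_nonneg _)
      (by positivity) two_ne_zero).1 ?_, h13 ▸ Aa_l2 h10.pos (by positivity) h12⟩
    rw [div_pow, Real.sq_sqrt h11.le, ← h13]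
    exact Aa_triv (by positivity) h12 x
  simp only [mul_pow, ← mul_sum]
  have e2 := sum_le_sum fun (n : ℕ) (_ : n ∈ Ioc 0 H) => pow_sum_le_card_mul_sum_pow
    (s := Icc 1 (k ^ 6)) (f := fun d => ‖∑ s ∈ S d, Aa a s (n + -(2 * a ^ 3))‖)
    (fun _ _ => norm_nonneg _) 7
  rw [← mul_sum, sum_comm] at e2
  have e3 := sum_le_card_nsmul _ _ _ e1
  rw [Nat.card_Icc, Nat.add_sub_cancel, Nat.cast_pow] at e2
  rw [Nat.card_Icc, Nat.add_sub_cancel, nsmul_eq_mul, Nat.cast_pow] at e3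
  calc _ ≤ (E ^ 11) ^ 8 * ((k ^ 6) ^ 7 * (k ^ 6 * ((E ^ 9) ^ 8 *
        (E ^ 9 * H / (Y / k ^ 6) ^ 4 + E ^ 9 * (2 * Q ^ 8))))) := by
        gcongr
        refine e2.trans (mul_le_mul_of_nonneg_left (e3.trans ?_) (by positivity))
        gcongr _ * (_ * (_ + ?_))
        exact le_mul_of_one_le_left (by positivity) (one_le_pow₀ hE1)
    _ = _ := by field_simp

end Pool.Agent.Lib.MP_786755_nt
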