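import Pool.Agent.Lib.MP_786755_nt.W.Main2
import Pool.Agent.Lib.MP_786755_nt.W.Tail
import Pool.Agent.Lib.MP_786755_nt.Count

/-! The main term of the finer model. -/

namespace Pool.Agent.Lib.MP_786755_nt

open Finset Pool.Agent.Lib.MP_028aa5_nt MeasureTheory

lemma Aa_Icc (a n : ℤ) (q : ℕ) : Aa a q (n - 2 * a ^ 3) =
    ∑ r ∈ (Icc 1 q).filter fun r => r.Coprime q, psi q r a * s3 q r 1 * ec q (-(r * n)) := by
  rw [Aa, ← sum_Icc_per (per_fl a q _), sum_filter]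
  refine sum_congr rfl fun r _ => ?_
  simp only [Nat.isCoprime_iff_coprime]
  split_ifs
  · rw [fl, psi, show -(r * (n - 2 * a ^ 3)) = r * (2 * a ^ 3) + -(r * n) by ring, ec_add]
    ring
  · rfl

lemma An_Icc (n : ℤ) (q : ℕ) : An n q =
    ∑ r ∈ (Icc 1 q).filter fun r => r.Coprime q, av q (psi q r) * s3 q r 1 * ec q (-(r * n)) := by
  rw [An, ← sum_Icc_per (per_An n q), sum_filter]
  simp only [Nat.isCoprime_iff_coprime, cc]

lemma int_MM2 (A U P Q n : ℕ) {δ τ : ℝ} (hδ : 0 < δ) (hτ : τ = 1 / (2 * Q)) (h : δ ≤ τ) :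
    ∫ α in τ..τ + 1, MM2 A U P Q δ α * e (-(α * n)) =
      ∫ β in (-δ)..δ, tent δ β * gc P β ^ 2 * e (-(β * n)) * ∑ a ∈ Ioc A (2 * A),
        (∑ q ∈ Icc 1 Q, Aa a q (n - 2 * a ^ 3)) * (Fq U a β * e (β * (2 * a ^ 3))) := by
  have hs : ∀ (g : ℝ → ℂ) {a b : ℝ}, a ≤ -δ → δ ≤ b →
      ∫ β in a..b, tent δ β * g β = ∫ β, tent δ β * g β := fun g a b ha hb =>
    intervalIntegral.integral_eq_integral_of_support_subset fun β hβ => by
      have : |β| < δ := not_le.1 fun h => hβ (by simp [tent_eq_zero hδ h])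
      obtain ⟨h1, h2⟩ := abs_lt.1 this
      exact ⟨by linarith, by linarith⟩
  have e0 : ∀ β : ℝ, tent δ β * gc P β ^ 2 * e (-(β * n)) * ∑ a ∈ Ioc A (2 * A),
      (∑ q ∈ Icc 1 Q, Aa a q (n - 2 * a ^ 3)) * (Fq U a β * e (β * (2 * a ^ 3))) =
      ∑ q ∈ Icc 1 Q, ∑ r ∈ (Icc 1 q).filter fun r => r.Coprime q,
        tent δ β * (M1 A U P q r β * (ec q (-(r * n)) * e (-(β * n)))) := fun β => by
    simp only [Aa_Icc, M1, sum_mul, mul_sum]
    rw [sum_comm]
    refine sum_congr rfl fun q _ => ?_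
    rw [sum_comm]
    exact sum_congr rfl fun r _ => sum_congr rfl fun a _ => by ring
  simp only [e0]
  simp only [MM2, sum_mul]
  rw [intervalIntegral.integral_finsetSum fun i _ =>
    Continuous.intervalIntegrable (by fun_prop) _ _, intervalIntegral.integral_finsetSum fun i _ =>
    Continuous.intervalIntegrable (by fun_prop) _ _]
  refine sum_congr rfl fun q hq => ?_
  obtain ⟨h1, h2⟩ := mem_Icc.1 hq
  have hq0 : (0 : ℝ) < q := by exact_mod_cast h1
  have hq1 : (q : ℝ) ≤ Q := by exact_mod_cast h2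
  rw [intervalIntegral.integral_finsetSum fun i _ =>
    Continuous.intervalIntegrable (by fun_prop) _ _, intervalIntegral.integral_finsetSum fun i _ =>
    Continuous.intervalIntegrable (by fun_prop) _ _]
  refine sum_congr rfl fun r hr => ?_
  obtain ⟨h3, h4⟩ := mem_Icc.1 (mem_filter.1 hr).1
  have e1 : ∀ α : ℝ, tent δ (α - r / q) * M1 A U P q r (α - r / q) * e (-(α * n)) =
      (fun β => tent δ β * (M1 A U P q r β * (ec q (-(r * n)) * e (-(β * n))))) (α - r / q) :=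
    fun α => by
      have := e_add_div q r (-n) (α - r / q)
      push_cast at this
      rw [add_sub_cancel] at this
      simp only [mul_neg] at this ⊢
      rw [this]
      ring
  simp only [e1]
  have e2 : (r : ℝ) / q ≤ 1 := by rw [div_le_one hq0]; exact_mod_cast h4
  have e3 : 2 * τ ≤ r / q := by
    rw [hτ, show 2 * (1 / (2 * (Q : ℝ))) = 1 / Q by ring]
    gcongr
    exact_mod_cast h3
  rw [intervalIntegral.integral_comp_sub_right
    (fun β => tent δ β * (M1 A U P q r β * (ec q (-(r * n)) * e (-(β * n))))),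
    hs _ (by linarith) (by linarith), hs _ le_rfl le_rfl]

lemma disc_Aa {A U P q : ℕ} {E β : ℝ} (hAU : A ≤ U) (hN : A * U ^ 2 = P ^ 3) (hq : 0 < q)
    (hqA : q ≤ A) (hE : (#q.divisors : ℝ) ≤ E) (n : ℤ) :
    ‖∑ a ∈ Ioc A (2 * A), (Aa a q (n - 2 * a ^ 3) - An n q) * (Fq U a β * e (β * (2 * a ^ 3)))‖ ≤
      10 ^ 5 * E ^ 11 * tq q * (U * (1 + P ^ 3 * |β|)) := by
  have hE1 := one_le_of_div hq.ne' hE
  have hq0 : (0 : ℝ) < q := by exact_mod_cast hq
  have h1 := T3_le (β := β) (Q := A) hAU hN hq hE le_rfl (by omega)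
  simp only [if_pos hqA, Nat.cast_one, mul_one] at h1
  set R := (Icc 1 q).filter fun r => r.Coprime q with hR
  have hR1 : R ⊆ Rq q := filter_subset_filter _ fun r hr => by
    have := mem_Icc.1 hr
    exact mem_Ioc.2 ⟨by omega, by omega⟩
  have e1 : ∑ a ∈ Ioc A (2 * A), (Aa a q (n - 2 * a ^ 3) - An n q) *
      (Fq U a β * e (β * (2 * a ^ 3))) = ∑ r ∈ R, (∑ a ∈ Ioc A (2 * A),
      (psi q r a - av q (psi q r)) * (Fq U a β * e (β * (2 * a ^ 3)))) *
        (s3 q r 1 * ec q (-(r * n))) := by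
    simp only [Aa_Icc, An_Icc, ← sum_sub_distrib, sum_mul]
    rw [sum_comm]
    exact sum_congr rfl fun r _ => sum_congr rfl fun a _ => by ring
  rw [e1]
  refine (pow_le_pow_iff_left₀ (norm_nonneg _) (by positivity) two_ne_zero).1
    ((pow_le_pow_left₀ (norm_nonneg _) (norm_sum_le _ _) 2).trans ?_)
  simp only [norm_mul (∑ a ∈ Ioc A (2 * A), _), norm_mul (s3 q _ 1), norm_ec, mul_one]
  refine (sum_mul_sq_le_sq_mul_sq _ _ _).trans ((mul_le_mul ((sum_le_sum_of_subset_of_nonneg hR1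
    fun _ _ _ => sq_nonneg _).trans h1) (sum_le_card_nsmul _ _ _ fun r hr =>
      s3_one_sq hq hE (Rq_cop (hR1 hr))) (by positivity) (by positivity)).trans ?_)
  have e2 : (#R : ℝ) ≤ 2 * q := le_trans (by exact_mod_cast card_le_card hR1) (card_Rq q)
  rw [nsmul_eq_mul]
  calc _ ≤ 5 * 10 ^ 9 * E ^ 15 * tq q * (U * (1 + P ^ 3 * |β|)) ^ 2 *
        (2 * q * (E ^ 7 * tq q / q)) := by gcongr
    _ = _ := by field_simp; ring

theorem main_lower {A U P Q Y n : ℕ} {E δ L : ℝ} (hδ : 0 < δ) (hAU : A ≤ U) (hP : 1 ≤ P)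
    (hN : A * U ^ 2 = P ^ 3) (hYA : Y ≤ A) (hYQ : Y ≤ Q)
    (hE : ∀ m, 1 ≤ m → m ≤ Y → (#m.divisors : ℝ) ≤ E) (hE0 : 0 ≤ E) (hL : 1 + Real.log Y ≤ E)
    (hL' : Real.log (1 + P ^ 3 * δ) ≤ E) (hδ' : δ * (38 * P ^ 2) ≤ 1)
    (hT : ∑ a ∈ Ioc A (2 * A), ‖∑ q ∈ Ioc Y Q, Aa a q (n - 2 * a ^ 3)‖ ≤ L) :
    ‖∑ q ∈ Icc 1 Y, An n q‖ * ‖∫ β in (-δ)..δ, tent δ β * f0 A U P β * e (-(β * n))‖ -
      8 * E * (U / P) * (10 ^ 5 * E ^ 13 * Y + 3 * L) ≤
    ‖∫ β in (-δ)..δ, tent δ β * gc P β ^ 2 * e (-(β * n)) * ∑ a ∈ Ioc A (2 * A),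
        (∑ q ∈ Icc 1 Q, Aa a q (n - 2 * a ^ 3)) * (Fq U a β * e (β * (2 * a ^ 3)))‖ := by
  have hP0 : (0 : ℝ) < P := by exact_mod_cast hP
  have hL0 : 0 ≤ L := le_trans (by positivity) hT
  rw [← norm_mul, ← intervalIntegral.integral_const_mul, sub_le_iff_le_add']
  refine (norm_le_norm_sub_add _ _).trans (add_le_add ?_ le_rfl)
  rw [← intervalIntegral.integral_sub (Continuous.intervalIntegrable (by fun_prop) _ _)
    (Continuous.intervalIntegrable (by fun_prop) _ _)]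
  obtain ⟨D, hD⟩ : ∃ D : ℝ, D = 10 ^ 5 * E ^ 13 * Y + 3 * L := ⟨_, rfl⟩
  have hD0 : 0 ≤ D := by rw [hD]; positivity
  refine (intervalIntegral.norm_integral_le_of_norm_le (g := fun β =>
    4 * P ^ 2 * U * D / (1 + P ^ 3 * |β|)) (by linarith) (ae_of_all _ fun β hβ => ?_)
    (Continuous.intervalIntegrable (Continuous.div (by fun_prop) (by fun_prop)
      fun β => by positivity) _ _)).trans ?_
  · have h1 := gc_decay hP (β := β) (le_trans (by gcongr; exact abs_le.2 ⟨hβ.1.le, hβ.2⟩) hδ')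
    set y := 1 + (P : ℝ) ^ 3 * |β| with hy
    have hy1 : 1 ≤ y := le_add_of_nonneg_right (by positivity)
    set γ : ℕ → ℂ := fun a => Fq U a β * e (β * (2 * a ^ 3)) with hγ
    have e1 : (∑ q ∈ Icc 1 Y, An n q) * (tent δ β * f0 A U P β * e (-(β * n))) -
        tent δ β * gc P β ^ 2 * e (-(β * n)) * ∑ a ∈ Ioc A (2 * A),
        (∑ q ∈ Icc 1 Q, Aa a q (n - 2 * a ^ 3)) * γ a = -(tent δ β * gc P β ^ 2 * e (-(β * n))) *
        (∑ q ∈ Icc 1 Y, ∑ a ∈ Ioc A (2 * A), (Aa a q (n - 2 * a ^ 3) - An n q) * γ a +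
          ∑ a ∈ Ioc A (2 * A), (∑ q ∈ Ioc Y Q, Aa a q (n - 2 * a ^ 3)) * γ a) := by
      have e2 : ∀ f : ℕ → ℂ, ∑ q ∈ Icc 1 Q, f q = ∑ q ∈ Icc 1 Y, f q + ∑ q ∈ Ioc Y Q, f q :=
        fun f => (sum_Ioc_consecutive f (Nat.zero_le Y) hYQ).symm
      rw [sum_comm]
      simp only [e2, ← sum_mul, sum_sub_distrib, add_mul, sub_mul, sum_add_distrib, ← mul_sum, f0]
      ring
    have e2 : |tent δ β| ≤ 1 := by
      rw [tent, abs_of_nonneg (le_max_left _ _)]
      exact max_le zero_le_one (sub_le_self _ (by positivity))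
    have e3 : ‖∑ q ∈ Icc 1 Y, ∑ a ∈ Ioc A (2 * A), (Aa a q (n - 2 * a ^ 3) - An n q) * γ a‖ ≤
        10 ^ 5 * E ^ 13 * Y * (U * y) := by
      refine (norm_sum_le _ _).trans ((sum_le_sum (g := fun q => 10 ^ 5 * E ^ 11 * Y * (U * y) *
        ((tq q : ℝ) ^ 2 / q)) fun q hq => ?_).trans ?_)
      · obtain ⟨h2, h3⟩ := mem_Icc.1 hq
        have h4 : (0 : ℝ) < q := by exact_mod_cast h2
        have h5 : (1 : ℝ) ≤ tq q := by exact_mod_cast (tq_spec (by omega : q ≠ 0)).1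
        refine (disc_Aa hAU hN h2 (h3.trans hYA) (hE q h2 h3) n).trans ?_
        calc _ = 10 ^ 5 * E ^ 11 * q * (U * y) * (tq q * 1 / q) := by rw [← hy]; field_simp
          _ ≤ _ := by rw [sq (tq q : ℝ)]; gcongr
      · rw [← mul_sum]
        have := Real.log_natCast_nonneg Y
        calc _ ≤ 10 ^ 5 * E ^ 11 * Y * (U * y) * E ^ 2 := by
              gcongr; exact (sum_tq_le Y).trans (by gcongr)
          _ = _ := by ring
    have e4 : ‖∑ a ∈ Ioc A (2 * A), (∑ q ∈ Ioc Y Q, Aa a q (n - 2 * a ^ 3)) * γ a‖ ≤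
        3 * L * (U * y) := by
      refine (norm_sum_le _ _).trans ((sum_le_sum (g := fun a : ℕ =>
        ‖∑ q ∈ Ioc Y Q, Aa a q (n - 2 * a ^ 3)‖ * (3 * U)) fun a _ => ?_).trans ?_)
      · rw [norm_mul]
        gcongr
        simpa [hγ] using norm_Fq_le U a β
      · rw [← sum_mul]
        calc _ ≤ L * (3 * U) := by gcongr
          _ = 3 * L * (U * 1) := by ring
          _ ≤ _ := by gcongr
    rw [e1, norm_mul, norm_neg, norm_mul, norm_mul, norm_e, norm_pow, Complex.norm_real]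
    calc _ ≤ 1 * (2 * P / y) ^ 2 * 1 * (D * (U * y)) := by
          have e5 := (norm_add_le _ _).trans (add_le_add e3 e4)
          rw [← add_mul, ← hD] at e5
          gcongr
          exact e2
      _ = _ := by field_simp; ring
  · rw [int_decay1 (by positivity) hδ.le, ← hD]
    calc _ ≤ 2 * (4 * P ^ 2 * U * D) / P ^ 3 * E := by gcongr
      _ = _ := by field_simp; ring

end Pool.Agent.Lib.MP_786755_nt
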