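import Pool.Agent.Lib.MP_786755_nt.W.Curve
import Pool.Agent.Lib.MP_639284_nt.Weil
import Pool.Agent.Lib.MP_786755_nt.Local

/-! The bound of Weil for cubic exponential sums modulo a prime. -/

namespace Pool.Agent.Lib.MP_786755_nt.AS

open Polynomial Finset Filter Pool.Agent.Lib.MP_639284_nt
open Pool.Agent.Shared.HasseDavenport (mon mem_mon)

/-- the sum of `z ^ 3 + B z` over the roots, by the formulas of Newton -/
noncomputable def lam {R : Type} [CommRing R] (B : R) (P : R[X]) : R :=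
  -P.reverse.coeff 1 ^ 3 + 3 * P.reverse.coeff 1 * P.reverse.coeff 2 - 3 * P.reverse.coeff 3 -
    B * P.reverse.coeff 1

section
variable {R : Type} [CommRing R] [IsDomain R] (B : R)

lemma lam_mul {P Q : R[X]} (hP : P.Monic) (hQ : Q.Monic) : lam B (P * Q) = lam B P + lam B Q := by
  have h1 : P.reverse.coeff 0 = 1 := by rw [coeff_zero_reverse, hP.leadingCoeff]
  have h2 : Q.reverse.coeff 0 = 1 := by rw [coeff_zero_reverse, hQ.leadingCoeff]
  simp only [lam, reverse_mul_of_domain, coeff_mul, Nat.antidiagonal_succ, Nat.antidiagonal_zero,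
    sum_cons, sum_singleton, map_cons, map_singleton]
  simp [h1, h2]
  ring

omit [IsDomain R] in
lemma lam_one : lam B 1 = 0 := by
  have : (1 : R[X]).reverse = 1 := by simpa using reverse_C (1 : R)
  simp [lam, this, coeff_one]

lemma lam_lin (z : R) : lam B (X - C z) = z ^ 3 + B * z := by
  have h : ∀ n, (X - C z).reverse.coeff n = (X - C z).coeff (revAt 1 n) := fun n => by
    rw [coeff_reverse, natDegree_X_sub_C]
  simp only [lam, h]
  rw [show revAt 1 1 = 0 from rfl, show revAt 1 2 = 2 from rfl, show revAt 1 3 = 3 from rfl]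
  simp [coeff_X, coeff_C]
  ring

lemma lam_prod (S : Finset ℕ) (z : ℕ → R) :
    lam B (∏ i ∈ S, (X - C (z i))) = ∑ i ∈ S, (z i ^ 3 + B * z i) := by
  induction S using Finset.induction_on with
  | empty => simp [lam_one]
  | insert a S ha ih =>
    rw [prod_insert ha, sum_insert ha, lam_mul B (monic_X_sub_C _)
      (monic_prod_of_monic _ _ fun i _ => monic_X_sub_C _), lam_lin, ih]

end

variable {k Ω : Type} [Field k] [Field Ω] [Algebra k Ω]

lemma lam_map (B : k) (P : k[X]) :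
    lam (algebraMap k Ω B) (P.map (algebraMap k Ω)) = algebraMap k Ω (lam B P) := by
  simp only [lam, coeff_reverse, natDegree_map, coeff_map, map_sub, map_add, map_mul, map_neg,
    map_pow, map_ofNat]

lemma lam_minpoly [Finite k] (p : ℕ) [Fact p.Prime] [CharP Ω p] (hk : Nat.card k = p) (B : k)
    {x : Ω} {s : ℕ} (hs : 0 < s) (hx : x ^ p ^ s = x) :
    algebraMap k Ω ((s / (minpoly k x).natDegree : ℕ) • lam B (minpoly k x)) =
      ∑ i ∈ range s, (x ^ 3 + algebraMap k Ω B * x) ^ p ^ i := by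
  have hfix : ∀ (c : k) (n : ℕ), c ^ p ^ n = c := fun c n => by
    have := Fintype.ofFinite k
    rw [← hk, Nat.card_eq_fintype_card, FiniteField.pow_card_pow]
  have hp : 1 < p := (Fact.out : p.Prime).one_lt
  have h0 : aeval x (X ^ Nat.card k ^ s - X : k[X]) = 0 := by simp [hk, hx]
  have hi : IsIntegral k x := IsAlgebraic.isIntegral
    ⟨_, FiniteField.X_pow_card_pow_sub_X_ne_zero k hs.ne' Finite.one_lt_card, h0⟩
  have hirr := minpoly.irreducible hi
  obtain ⟨t, ht⟩ := hirr.natDegree_dvd_of_dvd_X_pow_card_pow_sub_X (minpoly.dvd k x h0)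
  obtain ⟨d, hd⟩ : ∃ d, (minpoly k x).natDegree = d := ⟨_, rfl⟩
  have hd0 : 0 < d := hd ▸ minpoly.natDegree_pos hi
  have hxd : x ^ p ^ d = x := by
    obtain ⟨Q, hQ⟩ := (hirr.natDegree_dvd_iff_dvd_X_pow_card_pow_sub_X (n := d)).1 (hd ▸ dvd_rfl)
    have := congrArg (aeval x) hQ
    simpa [hk, sub_eq_zero] using this
  have hroot : ∀ i, aeval (x ^ p ^ i) (minpoly k x) = 0 := fun i => by
    have : ∀ P : k[X], aeval (x ^ p ^ i) P = aeval x P ^ p ^ i := fun P => by
      induction P using Polynomial.induction_on' with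
      | add P Q h1 h2 => rw [map_add, map_add, h1, h2, add_pow_char_pow]
      | monomial n a =>
        rw [aeval_monomial, aeval_monomial, mul_pow, ← map_pow, hfix, pow_right_comm]
    rw [this, minpoly.aeval, zero_pow (by positivity)]
  have hne : ∀ i j, i < j → j < d → x ^ p ^ i ≠ x ^ p ^ j := fun i j hij hj h => by
    obtain ⟨u, rfl⟩ : ∃ u, j = u + i := ⟨j - i, by omega⟩
    have h1 : (x ^ p ^ u - x) ^ p ^ i = 0 := by
      rw [sub_pow_char_pow, ← pow_mul, ← pow_add, h, sub_self]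
    have h2 : aeval x (X ^ Nat.card k ^ u - X : k[X]) = 0 := by
      simpa [hk] using pow_eq_zero_iff (by positivity) |>.1 h1
    have := Nat.le_of_dvd (by omega)
      (hirr.natDegree_dvd_of_dvd_X_pow_card_pow_sub_X (minpoly.dvd k x h2))
    omega
  have hmon : (∏ i ∈ range d, (X - C (x ^ p ^ i))).Monic :=
    monic_prod_of_monic _ _ fun i _ => monic_X_sub_C _
  have hprod : (minpoly k x).map (algebraMap k Ω) = ∏ i ∈ range d, (X - C (x ^ p ^ i)) := by
    refine eq_of_monic_of_dvd_of_natDegree_le hmon ((minpoly.monic hi).map _) ?_ ?_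
    · refine Finset.prod_dvd_of_coprime (fun i hi j hj hij => ?_) fun i _ => ?_
      · refine isCoprime_X_sub_C_of_isUnit_sub (IsUnit.mk0 _ (sub_ne_zero.2 ?_))
        rcases lt_or_gt_of_ne hij with h | h
        · exact hne i j h (mem_range.1 hj)
        · exact (hne j i h (mem_range.1 hi)).symm
      · rw [dvd_iff_isRoot, IsRoot, eval_map_algebraMap, hroot]
    · rw [natDegree_map, hd, natDegree_prod_of_monic _ _ fun i _ => monic_X_sub_C _]
      simp only [natDegree_X_sub_C]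
      simp
  have hf : ∀ i, (x ^ 3 + algebraMap k Ω B * x) ^ p ^ i =
      (x ^ p ^ i) ^ 3 + algebraMap k Ω B * x ^ p ^ i := fun i => by
    rw [add_pow_char_pow, mul_pow, ← map_pow, hfix, pow_right_comm]
  rw [map_nsmul, ← lam_map, hprod, lam_prod, ht, hd, Nat.mul_div_cancel_left _ hd0]
  simp only [hf]
  clear ht
  induction t with
  | zero => simp
  | succ t ih =>
    rw [mul_add_one, add_comm (d * t), sum_range_add, succ_nsmul', ih]
    simp only [pow_add, pow_mul, hxd]

lemma sum_mon_zero [Finite k] (ψ : AddChar k ℂ) (B : k) {c : k} (hc : ψ (3 * c) ≠ 1) (n : ℕ) :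
    ∑ P ∈ mon k (n + 3), ψ (lam B P) = 0 := by
  have key : ∀ c : k, ∀ f ∈ mon k (n + 3), f + monomial n c ∈ mon k (n + 3) := by
    intro c f hf
    obtain ⟨h1, h2⟩ := mem_mon.1 hf
    have h3 : (monomial n c).degree < f.degree := by
      rw [degree_eq_natDegree h1.ne_zero, h2]
      exact (degree_monomial_le _ _).trans_lt (by exact_mod_cast (by omega : n < n + 3))
    exact mem_mon.2 ⟨h1.add_of_left h3, by rw [natDegree_add_eq_left_of_degree_lt h3, h2]⟩
  have h : ∑ f ∈ mon k (n + 3), ψ (lam B f) * ψ (3 * c) = ∑ f ∈ mon k (n + 3), ψ (lam B f) := by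
    refine sum_nbij' (fun f => f + monomial n (-c)) (fun f => f + monomial n c)
      (key _) (key _) (fun f _ => by simp) (fun f _ => by simp) fun f hf => ?_
    have h1 := (mem_mon.1 (key (-c) f hf)).2
    have h2 := (mem_mon.1 hf).2
    rw [← AddChar.map_add_eq_mul]
    congr 1
    simp only [lam, coeff_reverse, h1, h2]
    rw [revAt_le (by omega), revAt_le (by omega), revAt_le (by omega)]
    simp [coeff_monomial]
    ring
  rw [← sum_mul] at h
  have : (∑ f ∈ mon k (n + 3), ψ (lam B f)) * (ψ (3 * c) - 1) = 0 := by linear_combination h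
  exact (mul_eq_zero.1 this).resolve_right (sub_ne_zero.2 hc)

lemma tele {p : ℕ} [Fact p.Prime] [CharP Ω p] (y : Ω) (s : ℕ) :
    ∑ i ∈ range s, (y ^ p - y) ^ p ^ i = y ^ p ^ s - y := by
  induction s with
  | zero => simp
  | succ s ih => rw [sum_range_succ, ih, sub_pow_char_pow, ← pow_mul, ← pow_succ']; ring

lemma ext_bound [IsAlgClosed Ω] [Fintype k] (p : ℕ) [Fact p.Prime] [CharP Ω p]
    (hk : Nat.card k = p) (h3 : ¬3 ∣ p) (B : k) {ψ : AddChar k ℂ} (hψ : ψ ≠ 1) {s : ℕ}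
    (hs0 : 0 < s) (hs : #(G p) ^ 2 + 3 * #(G p) + 1 < p ^ s) :
    ‖∑ x ∈ FQ Ω (p ^ (s * 2)), ψ (lam B (minpoly k x)) ^ (s * 2 / (minpoly k x).natDegree)‖ ≤
      (2 * #(G p) + 1 : ℝ) * (p : ℝ) ^ s := by
  classical
  have hp : 1 < p := (Fact.out : p.Prime).one_lt
  have hQ : 1 < p ^ (s * 2) := Nat.one_lt_pow (by omega) hp
  have hcard : Fintype.card k = p := by rw [← Nat.card_eq_fintype_card, hk]
  let t : Ω → k := fun x => (s * 2 / (minpoly k x).natDegree : ℕ) • lam B (minpoly k x)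
  let M : k → ℕ := fun c => #{x ∈ FQ Ω (p ^ (s * 2)) | t x = c}
  have h1 : ∀ c, p * M c ≤ p ^ (s * 2) + (2 * #(G p) + 1) * p ^ s := fun c => by
    have hy : ∀ x : Ω, ∃ y : Ω, y ^ p - y = x ^ 3 + algebraMap k Ω B * x := fun x => by
      have hd : (X ^ p - X : Polynomial Ω).degree = p := by
        rw [degree_eq_natDegree (FiniteField.X_pow_card_sub_X_ne_zero Ω hp),
          FiniteField.X_pow_card_sub_X_natDegree_eq Ω hp]
      obtain ⟨y, hy⟩ := IsAlgClosed.exists_root
        (X ^ p - X - C (x ^ 3 + algebraMap k Ω B * x) : Polynomial Ω) (by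
          rw [degree_sub_C (by rw [hd]; exact_mod_cast (by omega : 0 < p)), hd]
          exact_mod_cast (by omega : p ≠ 0))
      exact ⟨y, by simpa [sub_eq_zero] using hy⟩
    choose y hy using hy
    have := count_le (B := B) (Ω := Ω) h3 (s := s) (fun a => by
      rw [← pow_mul, ← hcard, FiniteField.pow_card_pow]) hs c
      (((univ : Finset k) ×ˢ {x ∈ FQ Ω (p ^ (s * 2)) | t x = c}).image
        fun z => (z.2, y z.2 + algebraMap k Ω z.1)) (by
        intro z hz
        obtain ⟨⟨a, x⟩, h1, rfl⟩ := mem_image.1 hz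
        obtain ⟨h2, h4⟩ := mem_filter.1 (mem_product.1 h1).2
        have h5 := (mem_FQ hQ).1 h2
        have h6 : ∀ n, algebraMap k Ω a ^ p ^ n = algebraMap k Ω a := fun n => by
          rw [← map_pow, ← hcard, FiniteField.pow_card_pow]
        have h7 := lam_minpoly p hk B (by omega : 0 < s * 2) h5
        rw [← hy, tele] at h7
        simp only [← pow_mul]
        refine ⟨h5, ?_, ?_⟩
        · have := h6 1
          rw [pow_one] at this
          rw [add_pow_char, this, ← hy]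
          ring
        · rw [add_pow_char_pow, h6, ← h4]
          simp only [t]
          linear_combination -h7)
    rw [card_image_of_injective _ (fun z w h => by
      obtain ⟨h1, h2⟩ := Prod.mk.inj h
      rw [h1, add_right_inj] at h2
      exact Prod.ext ((algebraMap k Ω).injective h2) h1), card_product, card_univ, hcard,
      ← pow_mul] at this
    exact this
  have h2 : ∑ c, M c = p ^ (s * 2) := by
    rw [← card_FQ Ω hQ p (dvd_pow_self p (by omega))]
    exact (card_eq_sum_card_fiberwise (f := t) fun _ _ => mem_univ _).symm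
  have h4 : ∑ x ∈ FQ Ω (p ^ (s * 2)), ψ (lam B (minpoly k x)) ^ (s * 2 / (minpoly k x).natDegree)
      = ∑ c, ψ c * M c := by
    rw [← sum_fiberwise (g := t)]
    refine sum_congr rfl fun c _ => ?_
    rw [sum_congr rfl (g := fun _ => ψ c) fun x hx => by
      rw [← AddChar.map_nsmul_eq_pow, ← (mem_filter.1 hx).2], sum_const, nsmul_eq_mul, mul_comm]
  obtain ⟨D, hD⟩ : ∃ D : ℝ, D = (2 * #(G p) + 1 : ℝ) * (p : ℝ) ^ s := ⟨_, rfl⟩
  have h5 : ∀ c, (p : ℝ) * M c - p ^ (s * 2) - D ≤ 0 := fun c => by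
    have : ((p * M c : ℕ) : ℝ) ≤ (p ^ (s * 2) + (2 * #(G p) + 1) * p ^ s : ℕ) := by
      exact_mod_cast h1 c
    push_cast at this
    linarith
  have h6 : p * ∑ c, ψ c * M c = ∑ c, ψ c * ((p : ℝ) * M c - p ^ (s * 2) - D : ℝ) := by
    simp only [Complex.ofReal_sub, mul_sub, sum_sub_distrib, ← sum_mul,
      AddChar.sum_eq_zero_iff_ne_zero.2 hψ, mul_sum]
    simp [mul_left_comm]
  have h7 : ‖(p : ℂ) * ∑ c, ψ c * M c‖ ≤ p * D := by
    rw [h6]
    refine (norm_sum_le _ _).trans (le_of_eq ?_)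
    have : ∀ c, ‖ψ c * ((p : ℝ) * M c - p ^ (s * 2) - D : ℝ)‖ = D + p ^ (s * 2) - p * M c :=
      fun c => by
        rw [norm_mul, AddChar.norm_apply, one_mul, Complex.norm_real, Real.norm_of_nonpos (h5 c)]
        ring
    simp only [this]
    have h8 : ∑ c, (M c : ℝ) = p ^ (s * 2) := by exact_mod_cast h2
    rw [sum_sub_distrib, ← mul_sum, h8, sum_const, card_univ, hcard, nsmul_eq_mul]
    ring
  rw [norm_mul, Complex.norm_natCast] at h7
  rw [h4, ← hD]
  exact le_of_mul_le_mul_left h7 (by positivity)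

theorem weil_char (p : ℕ) [Fact p.Prime] (h3 : p ≠ 3) (B : ZMod p) {ψ : AddChar (ZMod p) ℂ}
    (hψ : ψ ≠ 1) : ‖∑ x, ψ (x ^ 3 + B * x)‖ ^ 2 ≤ 4 * p := by
  have hp : p.Prime := Fact.out
  have h3' : ¬3 ∣ p := fun h => h3 ((Nat.prime_dvd_prime_iff_eq Nat.prime_three hp).1 h).symm
  have h30 : (3 : ZMod p) ≠ 0 := fun h => h3 ((Nat.prime_dvd_prime_iff_eq hp Nat.prime_three).1
    ((ZMod.natCast_eq_zero_iff 3 p).1 (by exact_mod_cast h)))
  obtain ⟨c, hc⟩ := AddChar.ne_one_iff.1 hψ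
  set S := ∑ x, ψ (x ^ 3 + B * x) with hS
  obtain ⟨α, hα⟩ := IsAlgClosed.exists_pow_nat_eq
    (S ^ 2 - 4 * ∑ P ∈ mon (ZMod p) 2, ψ (lam B P)) (by norm_num : 0 < 2)
  have hk : Nat.card (ZMod p) = p := Nat.card_zmod p
  have key := polyS euler (ZMod p) (AlgebraicClosure (ZMod p)) (fun P => ψ (lam B P))
    ((-S + α) / 2) ((-S - α) / 2) (by simp [lam_one])
    (fun P Q hP hQ => by rw [lam_mul B hP hQ, AddChar.map_add_eq_mul])
    (by rw [sum_mon_one]; simp only [lam_lin, ← hS]; ring)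
    (by linear_combination hα / 4) (fun n hn => by
      obtain ⟨m, rfl⟩ : ∃ m, n = m + 3 := ⟨n - 3, by omega⟩
      exact sum_mon_zero ψ B (c := c / 3) (by rwa [mul_div_cancel₀ _ h30]) m)
  obtain ⟨a, ha⟩ : ∃ a, a = (-S + α) / 2 := ⟨_, rfl⟩
  obtain ⟨b, hb⟩ : ∃ b, b = (-S - α) / 2 := ⟨_, rfl⟩
  rw [← ha, ← hb, hk] at key
  have hev : ∀ᶠ s in atTop, ‖(a ^ 2) ^ s + (b ^ 2) ^ s‖ ≤ (2 * #(G p) + 1 : ℝ) * (p : ℝ) ^ s := by
    filter_upwards [(tendsto_pow_atTop_atTop_of_one_lt hp.one_lt).eventually_gt_atTop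
      (#(G p) ^ 2 + 3 * #(G p) + 1), eventually_gt_atTop 0] with s hs hs0
    have h1 := ext_bound (Ω := AlgebraicClosure (ZMod p)) p hk h3' B hψ hs0 hs
    have h2 := key (s * 2) (by omega)
    rw [← finsum_mem_coe_finset, finsum_mem_congr (t := {x | x ^ p ^ (s * 2) = x})
      (Set.ext fun x => mem_FQ (Nat.one_lt_pow (by omega) hp.one_lt)) fun _ _ => rfl, h2,
      norm_neg] at h1
    rwa [← pow_mul, ← pow_mul, mul_comm 2]
  have hp0 : (0 : ℝ) < p := by exact_mod_cast hp.pos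
  have h1 := norm_le_of_sum hp0 hev
  have h2 := norm_le_of_sum hp0 (hev.mono fun s h => by rwa [add_comm] at h)
  rw [norm_pow] at h1 h2
  have h4 : ‖S‖ ≤ ‖a‖ + ‖b‖ := by
    rw [show S = -(a + b) by rw [ha, hb]; ring, norm_neg]
    exact norm_add_le _ _
  nlinarith [norm_nonneg S, norm_nonneg a, norm_nonneg b, sq_nonneg (‖a‖ - ‖b‖)]

end Pool.Agent.Lib.MP_786755_nt.AS

namespace Pool.Agent.Lib.MP_786755_nt

open Finset Pool.Agent.Lib.MP_028aa5_nt

theorem weil {p : ℕ} (hp : p.Prime) {r : ℤ} (hr : ¬(p : ℤ) ∣ r) (b : ℤ) :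
    ‖∑ x ∈ range p, ec p (r * x ^ 3 + b * x)‖ ^ 2 ≤ 4 * p := by
  rcases eq_or_ne p 3 with rfl | h3
  · have : ‖∑ x ∈ range 3, ec 3 (r * x ^ 3 + b * x)‖ ≤ 3 :=
      (norm_sum_le _ _).trans (by simp)
    have h := norm_nonneg (∑ x ∈ range 3, ec 3 (r * x ^ 3 + b * x))
    push_cast
    nlinarith
  have := Fact.mk hp
  have hr' : (r : ZMod p) ≠ 0 := fun h => hr ((ZMod.intCast_zmod_eq_zero_iff_dvd r p).1 h)
  have h := AS.weil_char p h3 (b / r) (ψ := ZMod.stdAddChar.mulShift (r : ZMod p))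
    (ZMod.isPrimitive_stdAddChar p hr')
  convert h using 3
  refine sum_nbij' (fun x => (x : ZMod p)) ZMod.val (by simp) (fun x _ => mem_range.2 x.val_lt)
    (fun x hx => ZMod.val_cast_of_lt (mem_range.1 hx)) (by simp) fun x _ => ?_
  rw [AddChar.mulShift_apply, show (r : ZMod p) * ((x : ZMod p) ^ 3 + b / r * x) =
    ((r * x ^ 3 + b * x : ℤ) : ZMod p) by push_cast; field_simp, ZMod.stdAddChar_coe, ec, e]
  congr 1
  push_cast
  ring

end Pool.Agent.Lib.MP_786755_nt
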